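import Pool.Agent.helper61.BM.Spec

set_option autoImplicit false

namespace Pool.Agent.helper61.BM

open Finset

theorem ASM_dg {V : Type} [Fintype V] [DecidableEq V] (G : SimpleGraph V) [DecidableRel G.Adj] (v : V) :
    dg G v = G.degree v := by
  rw [← SimpleGraph.card_neighborFinset_eq_degree]
  unfold dg
  refine congrArg Finset.card ?_
  ext w
  simp

open scoped Classical in
theorem ASM (hFIN : FIN_stmt) (hMXG : MXG_stmt) (hWLK : WLK_stmt) : ASM_stmt := by
  intro V _ _ G _ c _ hconn h3 hc e hno
  by_contra hcon
  push Not at hcon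
  have hcard : Fintype.card V = (c - 1) + 2 := by omega
  have hN : Noc G (c - 1) := by
    refine ⟨by omega, hcard, ?_⟩
    intro l hl
    by_contra h
    obtain ⟨u, w, hw, hlen⟩ := hWLK V G l hl (by omega)
    have := hcon u w hw
    omega
  have hL : Lab G (c - 1) (fun v => ((e.symm v : Fin (Fintype.card V)) : ℕ) + 1) := by
    refine ⟨?_, ?_, ?_, ?_⟩
    · intro u v huv
      have h1 : ((e.symm u : Fin (Fintype.card V)) : ℕ) = ((e.symm v : Fin (Fintype.card V)) : ℕ) := by
        simpa using huv
      exact e.symm.injective (Fin.ext h1)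
    · intro v
      exact Nat.le_add_left 1 _
    · intro v
      have := (e.symm v).isLt
      omega
    · intro u v huv h1 h2 h4 h5 h6
      simp only [ASM_dg] at h1 h2 h4 h5 h6
      apply hno
      refine ⟨e.symm u, e.symm v, ?_, ?_, ?_, ?_, ?_, ?_⟩
      · rw [Fin.lt_def]
        omega
      · omega
      · rw [Equiv.apply_symm_apply, Equiv.apply_symm_apply]
        exact huv
      · rw [Equiv.apply_symm_apply]
        exact h4
      · rw [Equiv.apply_symm_apply]
        omega
      · rw [Equiv.apply_symm_apply, Equiv.apply_symm_apply]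
        omega
  obtain ⟨G', hC, hL'⟩ := hMXG V G (c - 1) _ hN hconn hL
  exact hFIN V G' (c - 1) _ hC hL'

end Pool.Agent.helper61.BM
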