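import Pool.Agent.helper61.BM.Use

set_option autoImplicit false

namespace Pool.Agent.helper61.BM

open Finset
open scoped Classical

theorem C5E (hKND : KND_stmt) : C5E_stmt := by
  intro V _ G m p hC hp r hr ham htm hx ha0 ht0
  have hN := hC.toNoc
  have hF := hr.toFr
  obtain ⟨k1, k2⟩ := hKND V G m hC (p 0) r hr ha0 ham ht0 htm
  obtain ⟨J, hJ⟩ : ∃ J : Finset ℕ, J = (range m).filter (fun j => Tw G (p 0) (r j)) := ⟨_, rfl⟩
  have mJ : ∀ j, j ∈ J ↔ j < m ∧ Tw G (p 0) (r j) := by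
    intro j
    rw [hJ, mem_filter, mem_range]
  have cJ : (TT G (p 0)).card ≤ J.card := by
    have hsub : TT G (p 0) ⊆ J.image r := by
      intro t ht
      obtain ⟨k, _, hk, rfl⟩ := k1 t (mem_TT.1 ht)
      exact mem_image.2 ⟨k, (mJ k).2 ⟨hk, mem_TT.1 ht⟩, rfl⟩
    exact (card_le_card hsub).trans card_image_le
  have hne : J.Nonempty := by
    rw [← card_pos]
    have : 0 < (TT G (p 0)).card := card_pos.2 ⟨p 0, mem_TT.2 (Tw.refl _)⟩
    omega
  obtain ⟨j0, hj0, hmin⟩ : ∃ j0 ∈ J, ∀ j ∈ J, j0 ≤ j := ⟨J.min' hne, min'_mem _ _, fun j hj => min'_le _ _ hj⟩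
  have hk2 : ∀ j ∈ J.erase j0, 2 ≤ j ∧ j < m ∧ ¬ G.Adj (r 0) (r (j - 1)) ∧ ¬ G.Adj (r m) (r (j - 1)) ∧
      G.Adj (p 0) (r (j - 1)) := by
    intro j hj
    rw [mem_erase] at hj
    have h1 := (mJ j).1 hj.2
    have h0 := (mJ j0).1 hj0
    have h2 := hmin j hj.2
    obtain ⟨a1, a2, a3, a4, _⟩ := k2 j (by omega) h1.2 ⟨j0, by omega, h0.2⟩
    exact ⟨a1, h1.1, a2, a3, a4⟩
  have hsub : NN G (p 0) ∪ (J.erase j0).image (fun j => r (j - 1)) ⊆ NN G (r m) \ TT G (r 0) := by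
    intro v hv
    rw [mem_union, mem_image] at hv
    rw [mem_sdiff, mem_NN, mem_TT]
    rcases hv with hv | ⟨j, hj, rfl⟩
    · have hv' := mem_NN.1 hv
      refine ⟨⟨?_, hx v hv⟩, ?_⟩
      · rintro rfl
        exact hv'.2 ham
      · intro h
        rcases (h (p 0)).1 (Or.inr ha0.symm) with h1 | h1
        · exact hv'.1 h1.symm
        · exact hv'.2 h1.symm
    · obtain ⟨a1, a2, a3, a4, a5⟩ := hk2 j hj
      refine ⟨⟨hF.ne (by omega) (by omega) (by omega), a4⟩, ?_⟩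
      intro h
      exact a3 (h.adj (hF.ne (by omega) (by omega) (by omega)))
  have hdis : Disjoint (NN G (p 0)) ((J.erase j0).image (fun j => r (j - 1))) := by
    rw [disjoint_left]
    intro v hv hv'
    rw [mem_image] at hv'
    obtain ⟨j, hj, rfl⟩ := hv'
    obtain ⟨_, _, _, _, a5⟩ := hk2 j hj
    exact (mem_NN.1 hv).2 a5
  have hc := card_le_card hsub
  rw [card_union_of_disjoint hdis, card_image_of_injOn, card_erase_of_mem hj0] at hc
  · have h1 := hN.card_NN_eq (p 0)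
    have h2 := hp.dd
    have h3 : 0 < J.card := card_pos.2 hne
    omega
  · intro x hx' y hy' hxy
    obtain ⟨a1, a2, _⟩ := hk2 x hx'
    obtain ⟨b1, b2, _⟩ := hk2 y hy'
    have := hF.inj (x - 1) (y - 1) (by omega) (by omega) hxy
    omega

end Pool.Agent.helper61.BM
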