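import Pool.Agent.helper61.BM.Use

set_option autoImplicit false

namespace Pool.Agent.helper61.BM

open Finset
open scoped Classical

theorem C5L (hREV : REV_stmt) (hORE : ORE_stmt) (hTBE : TBE_stmt) (hTPR : TPR_stmt) (hEAR : EAR_stmt) (hLSE : LSE_stmt)
    (hKND : KND_stmt) (hGLL : GLL_stmt) : C5L_stmt := by
  intro V _ G m p hC hp hτ i hi hai hbi hex r hr hrm ha0 ht0
  have hN := hC.toNoc
  have hF := hp.toFr
  have hT := (hTBE V G m p hC hp).2
  have hti : ¬ Tw G (p 0) (p i) := by
    intro h
    obtain ⟨q, hq, hbq⟩ := hex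
    have := hT i q (by omega) (by omega) h hbq
    omega
  obtain ⟨E, hE1, hE2, hE3⟩ := hLSE V G m p hC hp i hi hbi hex
  have hsub : E ⊆ NN G (p i) \ TT G (r 0) := by
    intro v hv
    rw [mem_sdiff, mem_TT]
    refine ⟨hE1 hv, ?_⟩
    intro htv
    have hnv := mem_NN.1 (hE1 hv)
    have hav : G.Adj (p 0) v := by
      rcases (htv (p 0)).1 (Or.inr ha0.symm) with h | h
      · exact absurd (h ▸ htv).symm ht0
      · exact h.symm
    have hnt : ¬ Tw G (p 0) v := fun h => ht0 (h.trans htv.symm)
    rcases hE3 v hv with ⟨j, hj, hbj, rfl⟩ | ⟨j, hj, hj2, hbj, rfl⟩ | ⟨t, ht, htm, htw, rfl⟩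
    · have hj0 : j ≠ 0 := by
        rintro rfl
        exact hp.na hbj.symm
      have ha : G.Adj (p 0) (p (i + 1)) := (hp.toXP.full hORE hN hi).2 hbi
      have h1 := hREV V G m p 0 i hF (Nat.zero_le _) (by omega) (fun h => absurd h (lt_irrefl 0)) (fun _ => ha)
      have h2 := hREV V G m (rev p 0 i) (i - j + 1) m h1 (by omega) le_rfl
        (fun _ => by
          rw [rev_in (by omega), rev_out (by omega), show 0 + i - (i - j + 1 - 1) = j by omega]
          exact hbj.symm)
        (fun h => absurd h (lt_irrefl m))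
      have e0 : rev (rev p 0 i) (i - j + 1) m 0 = p i := by
        rw [rev_out (by omega), rev_in (by omega)]
        congr 1
        omega
      have em : rev (rev p 0 i) (i - j + 1) m m = p (j - 1) := by
        rw [rev_in (by omega), rev_in (by omega)]
        congr 1
        omega
      have ez : rev (rev p 0 i) (i - j + 1) m (m + 1) = p (m + 1) := by
        rw [rev_out (by omega), rev_out (by omega)]
      have hq : XP G m (rev (rev p 0 i) (i - j + 1) m) := by
        refine ⟨h2, ?_, ?_⟩
        · rw [e0, em]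
          exact hnv.2
        · rw [e0, em, ← htv.dg_eq, ← hrm, add_comm]
          exact hr.dd
      have := hGLL V G m hC (p 0) _ hq (by rw [e0]; exact hai) (by rw [em]; exact hav) (by rw [e0]; exact hti)
        (by rw [em]; exact hnt) hτ
      rw [ez] at this
      exact this hp.za
    · exact (hp.toXP.full hORE hN hj2).1 hav hbj
    · obtain ⟨t2, a1, a2, a3⟩ := (hTPR V G m p hC hp).1 t ht htm htw
      have hE := (hEAR V G m p hC hp).2 (t - 1) (by omega) a1 a2 (by
        intro j hj hbj
        have := hT t j htm hj htw hbj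
        omega)
      have hrm' : G.Adj (p 0) (r m) := by rw [hrm]; exact hai
      have htm' : ¬ Tw G (p 0) (r m) := by rw [hrm]; exact hti
      have g1 := hGLL V G m hC (p 0) r hr.toXP ha0 hrm' ht0 htm' hτ
      obtain ⟨k, hk1, hk2, hk3⟩ := (hKND V G m hC (p 0) r hr.toXP ha0 hrm' ht0 htm').1 (p 0) (Tw.refl _)
      have hza : r (m + 1) ≠ p 0 := by
        rw [← hk3]
        exact hr.toFr.ne (by omega) (by omega) (by omega)
      have g2 := hE (r (m + 1)) (mem_NN.2 ⟨hza, g1⟩)
      apply g2
      refine htv.adj_of hr.za ?_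
      intro h
      rw [h] at g1
      exact g1 hav
  have := card_le_card hsub
  omega

end Pool.Agent.helper61.BM
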