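import Pool.Agent.helper61.BM.Spec

set_option autoImplicit false

namespace Pool.Agent.helper61.BM

open Finset
open scoped Classical

theorem DEG : DEG_stmt := by
  intro V _ G m p hp v
  symm
  refine card_bij (fun i _ => p i) ?_ ?_ ?_
  · intro i hi
    simp only [mem_filter, mem_range] at hi
    simp [hi.2]
  · intro i hi j hj hij
    simp only [mem_filter, mem_range] at hi hj
    exact hp.inj i j (by omega) (by omega) hij
  · intro w hw
    simp only [mem_filter, mem_univ, true_and] at hw
    obtain ⟨i, hi, rfl⟩ := hp.sur w
    exact ⟨i, by simp only [mem_filter, mem_range]; exact ⟨by omega, hw⟩, rfl⟩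

end Pool.Agent.helper61.BM
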