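import Pool.Agent.helper61.BM.Spec

set_option autoImplicit false

namespace Pool.Agent.helper61.BM

open Finset
open scoped Classical

theorem FIN (hLMX : LMX_stmt) (hLM3 : LM3_stmt) : FIN_stmt := by
  intro V _ G m f hC hL
  have key : ∀ k : ℕ, ∀ p : ℕ → V, LM G m f p → f (p 0) = k → False := by
    intro k
    induction k using Nat.strong_induction_on with
    | _ k ih =>
      intro p hp hk
      obtain ⟨p', hp', hlt⟩ := hLM3 V G m f p hC hL hp
      exact ih (f (p' 0)) (by omega) p' hp' rfl
  obtain ⟨p, hp⟩ := hLMX V G m f hC hL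
  exact key _ p hp rfl

end Pool.Agent.helper61.BM
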