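import Pool.Agent.helper61.BM.Use

set_option autoImplicit false

namespace Pool.Agent.helper61.BM

open Finset
open scoped Classical

theorem GLL_core (hORE : ORE_stmt) (hXZZ : XZZ_stmt) (hKND : KND_stmt) {V : Type} [Fintype V]
    {G : SimpleGraph V} {m : ℕ} (hC : Ctx G m) {a : V} {r : ℕ → V} (hr : CP G m r) (ha0 : G.Adj a (r 0))
    (ham : G.Adj a (r m)) (ht0 : ¬ Tw G a (r 0)) (htm : ¬ Tw G a (r m)) (hτ : 2 ≤ (TT G a).card) :
    ¬ G.Adj a (r (m + 1)) := by
  have hN := hC.toNoc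
  have hF := hr.toFr
  obtain ⟨k1, k2⟩ := hKND V G m hC a r hr.toXP ha0 ham ht0 htm
  obtain ⟨t1, h1, t2, h2, hne⟩ := one_lt_card.1 (show 1 < (TT G a).card by omega)
  obtain ⟨i1, hi1, hi1m, rfl⟩ := k1 t1 (mem_TT.1 h1)
  obtain ⟨i2, hi2, hi2m, rfl⟩ := k1 t2 (mem_TT.1 h2)
  have hne' : i1 ≠ i2 := by
    rintro rfl
    exact hne rfl
  obtain ⟨i, j, hij, hjm, hi, hj⟩ : ∃ i j, i < j ∧ j < m ∧ Tw G a (r i) ∧ Tw G a (r j) := by
    rcases Nat.lt_or_gt_of_ne hne' with h | h
    · exact ⟨i1, i2, h, hi2m, mem_TT.1 h1, mem_TT.1 h2⟩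
    · exact ⟨i2, i1, h, hi1m, mem_TT.1 h2, mem_TT.1 h1⟩
  obtain ⟨hj2, hA, hB, _, _⟩ := k2 j (by omega) hj ⟨i, hij, hi⟩
  have hj3 : G.Adj (r m) (r (j - 2)) := by
    by_contra h
    have := (hr.toXP.full hORE hN (show j - 2 < m by omega)).2 h
    rw [show j - 2 + 1 = j - 1 by omega] at this
    exact hA this
  have hz := (hXZZ V G m r hC hr (j - 2) (by omega) hj3).2 (by omega)
  rw [show j - 2 + 2 = j by omega] at hz
  intro haz
  apply hz
  refine (hj.adj_of haz ?_).symm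
  exact hF.ne (by omega) (by omega) (by omega)

theorem GLL (hREV : REV_stmt) (hORE : ORE_stmt) (hXZZ : XZZ_stmt) (hKND : KND_stmt) : GLL_stmt := by
  intro V _ G m hC a r hr ha0 ham ht0 htm hτ
  have hN := hC.toNoc
  by_cases hz : G.Adj (r 0) (r (m + 1))
  · exact GLL_core hORE hXZZ hKND hC ⟨hr, hz⟩ ha0 ham ht0 htm hτ
  · have hz' : G.Adj (r m) (r (m + 1)) := by
      by_contra h
      exact hz ((hr.fullz hORE hN).2 h)
    have hq := hREV V G m r 0 m hr.toFr (Nat.zero_le _) le_rfl (fun h => absurd h (lt_irrefl 0))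
      (fun h => absurd h (lt_irrefl m))
    have e0 : rev r 0 m 0 = r m := by
      rw [rev_in (by omega)]
      congr 1
      omega
    have em : rev r 0 m m = r 0 := by
      rw [rev_in (by omega)]
      congr 1
      omega
    have ez : rev r 0 m (m + 1) = r (m + 1) := rev_out (by omega)
    have hq' : CP G m (rev r 0 m) := by
      refine ⟨⟨hq, ?_, ?_⟩, ?_⟩
      · rw [e0, em]
        exact fun h => hr.na h.symm
      · rw [e0, em, add_comm]
        exact hr.dd
      · rw [e0, ez]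
        exact hz'
    have := GLL_core hORE hXZZ hKND hC (a := a) hq' (by rw [e0]; exact ham) (by rw [em]; exact ha0)
      (by rw [e0]; exact htm) (by rw [em]; exact ht0) hτ
    rw [ez] at this
    exact this

end Pool.Agent.helper61.BM
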