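import Pool.Agent.helper61.BM.Use

set_option autoImplicit false

namespace Pool.Agent.helper61.BM

open Finset
open scoped Classical

theorem HAM (hSEG : SEG_stmt) (hDEG : DEG_stmt) : HAM_stmt := by
  intro V _ G m p hC hp hmz hab
  by_contra hcon
  have hN := hC.toNoc
  have hm := hN.hm
  -- not both
  have n1 : ∀ i, i ≤ m → G.Adj (p 0) (p (i + 1)) → ¬ G.Adj (p (m + 1)) (p i) := by
    intro i hi h1 h2
    rcases Nat.eq_or_lt_of_le hi with h | h
    · subst h
      exact hab h1
    · exact seg3 hSEG hN hp 0 i (m + 1) (m + 1) m (i + 1) (by omega) h2.symm hmz.symm h1.symm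
  have n2 : ∀ i, i + 2 ≤ m + 1 → G.Adj (p 0) (p (i + 2)) → ¬ G.Adj (p (m + 1)) (p i) := by
    intro i hi h1 h2
    rcases Nat.eq_or_lt_of_le hi with h | h
    · rw [h] at h1
      exact hab h1
    · exact seg3 hSEG hN hp 0 i (m + 1) (m + 1) m (i + 2) (by omega) h2.symm hmz.symm h1.symm
  -- degrees
  have d1 : dg G (p 0) = ((range (m + 1)).filter (fun i => G.Adj (p 0) (p (i + 1)))).card := by
    rw [hDEG V G m p hp (p 0)]
    symm
    refine card_bij (fun i _ => i + 1) ?_ ?_ ?_
    · intro i hi
      simp only [mem_filter, mem_range] at hi ⊢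
      exact ⟨by omega, hi.2⟩
    · intro i _ j _ hij
      simpa using hij
    · intro i hi
      simp only [mem_filter, mem_range] at hi
      have hi0 : i ≠ 0 := by
        rintro rfl
        exact G.irrefl hi.2
      refine ⟨i - 1, ?_, by omega⟩
      simp only [mem_filter, mem_range]
      rw [show i - 1 + 1 = i by omega]
      exact ⟨by omega, hi.2⟩
  have d2 : dg G (p (m + 1)) = ((range (m + 1)).filter (fun i => G.Adj (p (m + 1)) (p i))).card := by
    rw [hDEG V G m p hp (p (m + 1))]
    congr 1
    ext i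
    simp only [mem_filter, mem_range]
    constructor
    · rintro ⟨h1, h2⟩
      have : i ≠ m + 1 := by
        rintro rfl
        exact G.irrefl h2
      exact ⟨by omega, h2⟩
    · rintro ⟨h1, h2⟩
      exact ⟨by omega, h2⟩
  have hdisj : Disjoint ((range (m + 1)).filter (fun i => G.Adj (p 0) (p (i + 1))))
      ((range (m + 1)).filter (fun i => G.Adj (p (m + 1)) (p i))) := by
    rw [disjoint_left]
    intro i hi hi'
    simp only [mem_filter, mem_range] at hi hi'
    exact n1 i (by omega) hi.2 hi'.2
  have hsub : ((range (m + 1)).filter (fun i => G.Adj (p 0) (p (i + 1)))) ∪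
      ((range (m + 1)).filter (fun i => G.Adj (p (m + 1)) (p i))) ⊆ range (m + 1) := by
    intro i hi
    simp only [mem_union, mem_filter] at hi
    rcases hi with hi | hi <;> exact hi.1
  have hfull : ((range (m + 1)).filter (fun i => G.Adj (p 0) (p (i + 1)))) ∪
      ((range (m + 1)).filter (fun i => G.Adj (p (m + 1)) (p i))) = range (m + 1) := by
    refine eq_of_subset_of_card_le hsub ?_
    rw [card_union_of_disjoint hdisj, card_range]
    omega
  have full : ∀ i, i ≤ m → ¬ G.Adj (p (m + 1)) (p i) → G.Adj (p 0) (p (i + 1)) := by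
    intro i hi h
    have : i ∈ range (m + 1) := by simp; omega
    rw [← hfull] at this
    simp only [mem_union, mem_filter, mem_range] at this
    rcases this with h' | h'
    · exact h'.2
    · exact absurd h'.2 h
  have step : ∀ i, i < m → G.Adj (p (m + 1)) (p i) → G.Adj (p (m + 1)) (p (i + 1)) := by
    intro i hi h
    by_contra h'
    exact n2 i (by omega) (full (i + 1) (by omega) h') h
  have hex : ∃ i, G.Adj (p (m + 1)) (p i) := ⟨m, hmz.symm⟩
  obtain ⟨i0, hi0, hmin⟩ : ∃ i, G.Adj (p (m + 1)) (p i) ∧ ∀ j, j < i → ¬ G.Adj (p (m + 1)) (p j) :=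
    ⟨Nat.find hex, Nat.find_spec hex, fun j hj => Nat.find_min hex hj⟩
  have hi0m : i0 ≤ m := by
    by_contra h
    exact hmin m (by omega) hmz.symm
  have hi01 : 1 ≤ i0 := by
    rcases Nat.eq_zero_or_pos i0 with h | h
    · subst h
      exact absurd hi0.symm hab
    · exact h
  have hup : ∀ k, i0 + k ≤ m → G.Adj (p (m + 1)) (p (i0 + k)) := by
    intro k
    induction k with
    | zero => intro _; exact hi0
    | succ k ih =>
      intro h
      exact step (i0 + k) (by omega) (ih (by omega))
  obtain ⟨u, hu, v, hv, hvx, huv⟩ := hC.two (p i0) ((range i0).image p)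
    (by
      simp only [mem_image, mem_range, not_exists, not_and]
      intro k hk hk'
      have := hp.inj k i0 (by omega) (by omega) hk'
      omega)
    ⟨p 0, mem_image.2 ⟨0, by simp; omega, rfl⟩⟩
    ⟨p (m + 1), by
      simp only [mem_image, mem_range, not_exists, not_and]
      intro k hk hk'
      have := hp.inj k (m + 1) (by omega) (by omega) hk'
      omega, by
      intro h
      have := hp.inj (m + 1) i0 (by omega) (by omega) h
      omega⟩
  simp only [mem_image, mem_range] at hu
  obtain ⟨k, hk, rfl⟩ := hu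
  obtain ⟨l, hl, rfl⟩ := hp.sur v
  have hl1 : i0 ≤ l := by
    by_contra h
    exact hv (mem_image.2 ⟨l, by simp; omega, rfl⟩)
  have hl2 : i0 ≠ l := by
    rintro rfl
    exact hvx rfl
  have hl3 : l ≠ m + 1 := by
    rintro rfl
    exact hmin k hk huv.symm
  have b1 : G.Adj (p 0) (p (k + 1)) := full k (by omega) (hmin k hk)
  have b2 : G.Adj (p (m + 1)) (p (l - 1)) := by
    have := hup (l - 1 - i0) (by omega)
    rw [show i0 + (l - 1 - i0) = l - 1 by omega] at this
    exact this
  exact seg4 hSEG hN hp k 0 (k + 1) (l - 1) (m + 1) (m + 1) m l (by omega) b1 b2.symm hmz.symm huv.symm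

end Pool.Agent.helper61.BM
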