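import Pool.Agent.helper61.BM.Spec

set_option autoImplicit false

namespace Pool.Agent.helper61.BM

open Finset
open scoped Classical

theorem INS : INS_stmt := by
  intro V G m p k hp hkm h1 h2
  have v1 : ∀ i, i ≤ k → ins m p k i = p i := by
    intro i hi
    simp [ins, hi]
  have v2 : ins m p k (k + 1) = p (m + 1) := by
    simp [ins]
  have v3 : ∀ i, k + 1 < i → ins m p k i = p (i - 1) := by
    intro i hi
    have a1 : ¬ i ≤ k := by omega
    have a2 : ¬ i = k + 1 := by omega
    simp only [ins, a1, a2, if_false]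
  have hadj : ∀ i, i < m + 1 → G.Adj (ins m p k i) (ins m p k (i + 1)) := by
    intro i hi
    rcases lt_trichotomy i k with h | h | h
    · rw [v1 i (by omega), v1 (i + 1) (by omega)]
      exact hp.adj i (by omega)
    · subst h
      rw [v1 i le_rfl, v2]
      exact h1
    · rcases Nat.eq_or_lt_of_le (show k + 1 ≤ i by omega) with h' | h'
      · subst h'
        rw [v2, v3 (k + 1 + 1) (by omega)]
        exact h2
      · rw [v3 i h', v3 (i + 1) (by omega)]
        have := hp.adj (i - 1) (by omega)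
        have e : i - 1 + 1 = i + 1 - 1 := by omega
        rw [e] at this
        exact this
  refine ⟨⟨?_, ?_, fun i hi => hadj i (by omega)⟩, hadj m (by omega)⟩
  · intro i j hi hj hij
    have key : ∀ i, i ≤ m + 1 → ∃ i', i' ≤ m + 1 ∧ ins m p k i = p i' ∧
        ((i ≤ k ∧ i' = i) ∨ (i = k + 1 ∧ i' = m + 1) ∨ (k + 1 < i ∧ i' = i - 1)) := by
      intro i hi
      rcases lt_trichotomy i (k + 1) with h | h | h
      · exact ⟨i, hi, v1 i (by omega), Or.inl ⟨by omega, rfl⟩⟩
      · subst h
        exact ⟨m + 1, le_rfl, v2, Or.inr (Or.inl ⟨rfl, rfl⟩)⟩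
      · exact ⟨i - 1, by omega, v3 i h, Or.inr (Or.inr ⟨h, rfl⟩)⟩
    obtain ⟨i', hi', hi2, hi3⟩ := key i hi
    obtain ⟨j', hj', hj2, hj3⟩ := key j hj
    have h3 := hp.inj i' j' hi' hj' (by rw [← hi2, ← hj2, hij])
    omega
  · intro v
    obtain ⟨i, hi, rfl⟩ := hp.sur v
    by_cases h : i ≤ k
    · exact ⟨i, hi, v1 i h⟩
    · by_cases h' : i = m + 1
      · exact ⟨k + 1, by omega, by rw [v2, h']⟩
      · refine ⟨i + 1, by omega, ?_⟩
        rw [v3 (i + 1) (by omega)]
        rfl

end Pool.Agent.helper61.BM
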