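import Pool.Agent.helper61.BM.Use

set_option autoImplicit false

namespace Pool.Agent.helper61.BM

open Finset
open scoped Classical

theorem KND (hREV : REV_stmt) (hORE : ORE_stmt) : KND_stmt := by
  intro V _ G m hC a r hr ha0 ham ht0 htm
  have hN := hC.toNoc
  have hF := hr.toFr
  have hA : ∀ t, Tw G a t → G.Adj t (r 0) := fun t ht => ht.adj_of ha0 (fun h => ht0 (h ▸ ht))
  have hB : ∀ t, Tw G a t → G.Adj t (r m) := fun t ht => ht.adj_of ham (fun h => htm (h ▸ ht))
  have part1 : ∀ t, Tw G a t → ∃ k, 1 ≤ k ∧ k < m ∧ r k = t := by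
    intro t ht
    obtain ⟨k, hk, rfl⟩ := hF.sur t
    have k0 : k ≠ 0 := by
      rintro rfl
      exact ht0 ht
    have km : k ≠ m := by
      rintro rfl
      exact htm ht
    have kz : k ≠ m + 1 := by
      rintro rfl
      exact (hr.fullz hORE hN).1 (hA _ ht).symm (hB _ ht).symm
    exact ⟨k, by omega, by omega, rfl⟩
  refine ⟨part1, ?_⟩
  intro j hj htj hex
  obtain ⟨k, hk1, hkm, hk⟩ := part1 _ htj
  have hkj : k = j := hF.inj k j (by omega) (by omega) hk
  subst hkj
  obtain ⟨i, hi, hti, hmax⟩ : ∃ i, i < k ∧ Tw G a (r i) ∧ ∀ l, i < l → l < k → ¬ Tw G a (r l) := by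
    obtain ⟨i1, hi1, hti1⟩ := hex
    have hne : ((range k).filter (fun l => Tw G a (r l))).Nonempty := ⟨i1, by
      rw [mem_filter, mem_range]; exact ⟨hi1, hti1⟩⟩
    have hmem := Finset.max'_mem _ hne
    rw [mem_filter, mem_range] at hmem
    refine ⟨_, hmem.1, hmem.2, ?_⟩
    intro l hl1 hl2 hl3
    have := Finset.le_max' ((range k).filter (fun l => Tw G a (r l))) l (by
      rw [mem_filter, mem_range]; exact ⟨hl2, hl3⟩)
    omega
  obtain ⟨i', hi'1, hi'm, hi'⟩ := part1 _ hti
  have hi2 : i' = i := hF.inj i' i (by omega) (by omega) hi'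
  subst hi2
  have hBk : ¬ G.Adj (r m) (r (k - 1)) := by
    have := (hr.full hORE hN (show k - 1 < m by omega)).1
    rw [show k - 1 + 1 = k by omega] at this
    exact this (hA _ htj).symm
  have hik : i' ≠ k - 1 := by
    intro h
    rw [← h] at hBk
    exact hBk (hB _ hti).symm
  have hl : G.Adj (r (k - 1)) (r k) := by
    have := hF.adj (k - 1) (by omega)
    rw [show k - 1 + 1 = k by omega] at this
    exact this
  have hnt : ¬ Tw G a (r (k - 1)) := hmax (k - 1) (by omega) (by omega)
  have hna : r (k - 1) ≠ a := by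
    intro h
    exact hnt (h ▸ Tw.refl _)
  have hak : G.Adj a (r (k - 1)) := htj.adj_of' hl.symm hna
  have hl1 : G.Adj (r i') (r (k - 1)) := hti.adj_of hak (hF.ne (by omega) (by omega) (by omega))
  have hl2 : G.Adj (r (i' + 1)) (r k) := by
    have h1 : G.Adj (r i') (r (i' + 1)) := hF.adj i' (by omega)
    have h2 : ¬ Tw G a (r (i' + 1)) := hmax (i' + 1) (by omega) (by omega)
    have h3 : r (i' + 1) ≠ a := by
      intro h
      exact h2 (h ▸ Tw.refl _)
    have h4 : G.Adj a (r (i' + 1)) := hti.adj_of' h1 h3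
    exact (htj.adj_of h4 (hF.ne (by omega) (by omega) (by omega))).symm
  have hq := hREV V G m r (i' + 1) (k - 1) hF (by omega) (by omega)
    (fun _ => by
      rw [show i' + 1 - 1 = i' by omega]
      exact hl1)
    (fun _ => by
      rw [show k - 1 + 1 = k by omega]
      exact hl2)
  have e0 : rev r (i' + 1) (k - 1) 0 = r 0 := rev_out (by omega)
  have em : rev r (i' + 1) (k - 1) m = r m := rev_out (by omega)
  have ei : rev r (i' + 1) (k - 1) i' = r i' := rev_out (by omega)
  have ei1 : rev r (i' + 1) (k - 1) (i' + 1) = r (k - 1) := by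
    rw [rev_in (by omega)]
    congr 1
    omega
  have hq' : XP G m (rev r (i' + 1) (k - 1)) := ⟨hq, by rw [e0, em]; exact hr.na, by rw [e0, em]; exact hr.dd⟩
  have hA' : ¬ G.Adj (r 0) (r (k - 1)) := by
    have := (hq'.full hORE hN (show i' < m by omega)).1
    rw [e0, em, ei, ei1] at this
    intro h
    exact this h (hB _ hti).symm
  exact ⟨by omega, hA', hBk, hak, hnt⟩

end Pool.Agent.helper61.BM
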