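import Pool.Agent.helper61.BM.Use

set_option autoImplicit false

namespace Pool.Agent.helper61.BM

open Finset
open scoped Classical

theorem LAT (hSEG : SEG_stmt) (hORE : ORE_stmt) : LAT_stmt := by
  intro V _ G m p hC hp i hi hbi
  have hN := hC.toNoc
  have hF := hp.toFr
  have ha := (hp.toXP.full hORE hN hi).2 hbi
  refine ⟨?_, ?_⟩
  · intro j hj hbj
    have hj0 : j ≠ 0 := by
      rintro rfl
      exact hp.na hbj.symm
    refine ⟨by omega, ?_⟩
    intro h
    exact seg3 hSEG hN hF i j m (i + 1) 0 (j - 1) (by omega) hbj.symm ha.symm h.symm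
  · intro j hij hj hbj h
    exact seg3 hSEG hN hF i 0 (i + 1) j m (j + 1) (by omega) ha hbj.symm h.symm

end Pool.Agent.helper61.BM
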