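import Pool.Agent.helper61.BM.Use

set_option autoImplicit false

namespace Pool.Agent.helper61.BM

open Finset
open scoped Classical

theorem LAU_one (hREV : REV_stmt) (hORE : ORE_stmt) (hTBE : TBE_stmt) {V : Type} [Fintype V] {G : SimpleGraph V}
    {m : ℕ} {p : ℕ → V} (hC : Ctx G m) (hp : CP G m p) {i q t : ℕ} (hi : i < m) (hbi : ¬ G.Adj (p m) (p i))
    (hq : q < i) (hbq : G.Adj (p m) (p q)) (ht1 : 1 ≤ t) (htm : t ≤ m) (ht : Tw G (p 0) (p t)) :
    ¬ G.Adj (p i) (p (t - 1)) := by
  intro hadj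
  have hN := hC.toNoc
  have hF := hp.toFr
  have htq : t < q := (hTBE V G m p hC hp).2 t q htm (by omega) ht hbq
  have ha : G.Adj (p 0) (p (i + 1)) := (hp.toXP.full hORE hN hi).2 hbi
  have h1 := hREV V G m p 0 i hF (Nat.zero_le _) (by omega) (fun h => absurd h (lt_irrefl 0)) (fun _ => ha)
  have a0 : rev p 0 i 0 = p i := by
    rw [rev_in (by omega)]
    congr 1
    omega
  have a1 : rev p 0 i (i - t + 1) = p (t - 1) := by
    rw [rev_in (by omega)]
    congr 1
    omega
  have h2 := hREV V G m (rev p 0 i) 0 (i - t) h1 (Nat.zero_le _) (by omega) (fun h => absurd h (lt_irrefl 0))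
    (fun _ => by rw [a0, a1]; exact hadj)
  have b1 : ∀ k, k ≤ i - t → rev (rev p 0 i) 0 (i - t) k = p (t + k) := by
    intro k hk
    rw [rev_in (by omega), rev_in (by omega)]
    congr 1
    omega
  have b2 : ∀ k, i - t < k → k ≤ i → rev (rev p 0 i) 0 (i - t) k = p (i - k) := by
    intro k hk hk2
    rw [rev_out (by omega), rev_in (by omega)]
    congr 1
    omega
  have b3 : ∀ k, i < k → rev (rev p 0 i) 0 (i - t) k = p k := by
    intro k hk
    rw [rev_out (by omega), rev_out (by omega)]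
  have e0 : rev (rev p 0 i) 0 (i - t) 0 = p t := by
    rw [b1 0 (by omega)]
    rfl
  have em : rev (rev p 0 i) 0 (i - t) m = p m := b3 m hi
  have ez : rev (rev p 0 i) 0 (i - t) (m + 1) = p (m + 1) := b3 _ (by omega)
  have hne : p m ≠ p 0 := hF.ne (by omega) (by omega) (by omega)
  have hnb := ht.nonadj hne hp.na
  have hC2 : CP G m (rev (rev p 0 i) 0 (i - t)) := by
    refine ⟨⟨h2, ?_, ?_⟩, ?_⟩
    · rw [e0, em]
      exact hnb.2
    · rw [e0, em, ← ht.dg_eq]
      exact hp.dd
    · rw [e0, ez]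
      exact ht.adj_of hp.za (hF.ne (by omega) (by omega) (by omega))
  have := (hTBE V G m _ hC hC2).2 i (q - t) (by omega) (by omega)
    (by
      rw [e0, b2 i (by omega) le_rfl, Nat.sub_self]
      exact ht.symm)
    (by
      rw [em, b1 (q - t) (by omega), show t + (q - t) = q by omega]
      exact hbq)
  omega

theorem LAU (hREV : REV_stmt) (hORE : ORE_stmt) (hTBE : TBE_stmt) (hTPR : TPR_stmt) : LAU_stmt := by
  rintro V _ G m p hC hp i hi hbi ⟨q, hq, hbq⟩ t ht1 htm ht
  refine ⟨LAU_one hREV hORE hTBE hC hp hi hbi hq hbq ht1 htm ht, ?_⟩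
  have hN := hC.toNoc
  have hF := hp.toFr
  have htq : t < q := (hTBE V G m p hC hp).2 t q htm (by omega) ht hbq
  obtain ⟨ht2, h3, h4, h5⟩ := (hTPR V G m p hC hp).1 t ht1 htm ht
  have hp1 : G.Adj (p 0) (p 1) := hF.adj 0 (by omega)
  have h1 := hREV V G m p 1 (t - 1) hF (by omega) (by omega) (fun _ => h3)
    (fun _ => by
      rw [show t - 1 + 1 = t by omega]
      exact (ht.adj_of hp1 (hF.ne (by omega) (by omega) (by omega))).symm)
  have e0 : rev p 1 (t - 1) 0 = p 0 := rev_out (by omega)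
  have em : rev p 1 (t - 1) m = p m := rev_out (by omega)
  have ez : rev p 1 (t - 1) (m + 1) = p (m + 1) := rev_out (by omega)
  have ei : rev p 1 (t - 1) i = p i := rev_out (by omega)
  have eq : rev p 1 (t - 1) q = p q := rev_out (by omega)
  have et : rev p 1 (t - 1) t = p t := rev_out (by omega)
  have et1 : rev p 1 (t - 1) (t - 1) = p 1 := by
    rw [rev_in (by omega)]
    congr 1
    omega
  have hC2 : CP G m (rev p 1 (t - 1)) := by
    refine ⟨⟨h1, ?_, ?_⟩, ?_⟩
    · rw [e0, em]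
      exact hp.na
    · rw [e0, em]
      exact hp.dd
    · rw [e0, ez]
      exact hp.za
  have := LAU_one hREV hORE hTBE hC hC2 hi (by rw [em, ei]; exact hbi) hq (by rw [em, eq]; exact hbq) ht1 htm
    (by rw [e0, et]; exact ht)
  rw [ei, et1] at this
  exact this

end Pool.Agent.helper61.BM
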