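import Pool.Agent.helper61.BM.Use

set_option autoImplicit false

namespace Pool.Agent.helper61.BM

open Finset
open scoped Classical

theorem LIA (hTWO : TWO_stmt) : LIA_stmt := by
  intro V _ G m p hC hp y hay hty hx
  have hN := hC.toNoc
  obtain ⟨r, hr1, hr2, hr3, hr4⟩ : ∃ r, r ≠ y ∧ G.Adj (p 0) r ∧ ¬ Tw G (p 0) r ∧ ¬ G.Adj y r := by
    by_contra hcon
    push Not at hcon
    apply hty
    intro v
    constructor
    · rintro (rfl | h)
      · exact Or.inr hay.symm
      · by_cases h1 : v = y
        · exact Or.inl h1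
        · by_cases h2 : Tw G (p 0) v
          · right
            exact (h2.adj_of hay (fun h => h1 h.symm)).symm
          · exact Or.inr (hcon v h1 h h2)
    · rintro (rfl | h)
      · exact Or.inr hay
      · by_contra h1
        push Not at h1
        exact hx v (mem_NN.2 h1) h
  have h1 := hTWO V G m hC (p 0) y r hay hr2 hty hr3 (fun h => hr1 h.symm) hr4
  have hsub : NN G (p 0) ∪ ((NN G y).filter (fun v => G.Adj (p 0) v ∧ ¬ Tw G (p 0) v)) ⊆ NN G y := by
    intro v hv
    rw [mem_union, mem_filter] at hv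
    rcases hv with hv | hv
    · refine mem_NN.2 ⟨?_, hx v hv⟩
      rintro rfl
      exact (mem_NN.1 hv).2 hay
    · exact hv.1
  have hdis : Disjoint (NN G (p 0)) ((NN G y).filter (fun v => G.Adj (p 0) v ∧ ¬ Tw G (p 0) v)) := by
    rw [disjoint_left]
    intro v hv hv'
    exact (mem_NN.1 hv).2 (mem_filter.1 hv').2.1
  have hc := card_le_card hsub
  rw [card_union_of_disjoint hdis] at hc
  have e1 := hN.card_NN_eq (p 0)
  have e2 := hN.card_NN_eq y
  omega

end Pool.Agent.helper61.BM
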