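import Pool.Agent.helper61.BM.Use

set_option autoImplicit false

namespace Pool.Agent.helper61.BM

open Finset
open scoped Classical

theorem LIB (hSWP : SWP_stmt) (_hORE : ORE_stmt) (hZTW : ZTW_stmt) (hTBE : TBE_stmt) (hTPR : TPR_stmt) (hLAU : LAU_stmt)
    (hLSE : LSE_stmt) : LIB_stmt := by
  intro V _ G m p hC hp hτ i hi hbi hex
  have hN := hC.toNoc
  have hF := hp.toFr
  obtain ⟨E, hE1, hE2, hE3⟩ := hLSE V G m p hC hp i hi hbi hex
  obtain ⟨q, hq, hbq⟩ := hex
  have hT := (hTBE V G m p hC hp).2
  have hZ := hZTW V G m p hC hp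
  have hq0 : q ≠ 0 := by
    rintro rfl
    exact hp.na hbq.symm
  obtain ⟨w, hw1, hw2⟩ : ∃ w, w ∈ NN G (p i) ∧ w ∉ E := by
    by_cases hz : G.Adj (p i) (p (m + 1))
    · -- p 1
      obtain ⟨t0, ht0, hne⟩ : ∃ t ∈ TT G (p 0), t ≠ p 0 := by
        by_contra hcon
        push Not at hcon
        have : TT G (p 0) ⊆ {p 0} := by
          intro t ht
          exact mem_singleton.2 (hcon t ht)
        have := card_le_card this
        rw [card_singleton] at this
        omega
      have ht0' := mem_TT.1 ht0
      obtain ⟨t, ht, rfl⟩ := hF.sur t0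
      have ht1 : t ≠ m + 1 := by
        rintro rfl
        exact hZ.1 ht0'
      have ht2 : t ≠ 0 := by
        rintro rfl
        exact hne rfl
      have ht3 := ((hTPR V G m p hC hp).1 t (by omega) (by omega) ht0').1
      have hnadj := (hLAU V G m p hC hp i hi hbi ⟨q, hq, hbq⟩ t (by omega) (by omega) ht0').2
      refine ⟨p 1, mem_NN.2 ⟨hF.ne (by omega) (by omega) (by omega), hnadj⟩, ?_⟩
      intro hmem
      rcases hE3 _ hmem with ⟨j, hj, hbj, he⟩ | ⟨j, hj, hj2, hbj, he⟩ | ⟨t', ht', ht'm, htw, he⟩
      · have := hF.inj 1 (j - 1) (by omega) (by omega) he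
        have := hT t j (by omega) (by omega) ht0' hbj
        omega
      · have := hF.inj 1 (j + 1) (by omega) (by omega) he
        omega
      · have h2 := hF.inj 1 (t' - 1) (by omega) (by omega) he
        have h2' : t' = 2 := by omega
        subst h2'
        have hq2 : 2 < q := hT 2 q ht'm (by omega) htw hbq
        have hz2 : G.Adj (p 2) (p (m + 1)) := htw.adj_of hp.za (hF.ne (by omega) (by omega) (by omega))
        have hS := hSWP V G m p 1 hF (by omega) (by omega) hp.za hz2.symm
        have e0 : swp m p 1 0 = p 0 := swp_ne (by omega) (by omega)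
        have em : swp m p 1 m = p m := swp_ne (by omega) (by omega)
        have ez : swp m p 1 (m + 1) = p 1 := swp_z (by omega)
        have e1 : swp m p 1 1 = p (m + 1) := swp_k
        have e2 : swp m p 1 2 = p 2 := swp_ne (by omega) (by omega)
        have ei : swp m p 1 i = p i := swp_ne (by omega) (by omega)
        have eq : swp m p 1 q = p q := swp_ne (by omega) (by omega)
        have hC2 : CP G m (swp m p 1) := by
          refine ⟨⟨hS, ?_, ?_⟩, ?_⟩
          · rw [e0, em]
            exact hp.na
          · rw [e0, em]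
            exact hp.dd
          · rw [e0, ez]
            exact hF.adj 0 (by omega)
        have := (hLAU V G m _ hC hC2 i hi (by rw [em, ei]; exact hbi) ⟨q, hq, by rw [em, eq]; exact hbq⟩ 2 (by omega) ht'm
          (by rw [e0, e2]; exact htw)).1
        rw [ei, show (2 : ℕ) - 1 = 1 by omega, e1] at this
        exact this hz
    · refine ⟨p (m + 1), mem_NN.2 ⟨hF.ne (by omega) (by omega) (by omega), hz⟩, ?_⟩
      intro hmem
      rcases hE3 _ hmem with ⟨j, hj, hbj, he⟩ | ⟨j, hj, hj2, hbj, he⟩ | ⟨t', ht', ht'm, htw, he⟩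
      · have := hF.inj (m + 1) (j - 1) (by omega) (by omega) he
        omega
      · have := hF.inj (m + 1) (j + 1) (by omega) (by omega) he
        omega
      · have := hF.inj (m + 1) (t' - 1) (by omega) (by omega) he
        omega
  have hsub : insert w E ⊆ NN G (p i) := by
    intro v hv
    rcases mem_insert.1 hv with rfl | hv
    · exact hw1
    · exact hE1 hv
  have hc := card_le_card hsub
  rw [card_insert_of_notMem hw2] at hc
  have h1 := hN.card_NN_eq (p i)
  have h2 := hp.dd
  omega

end Pool.Agent.helper61.BM
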