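import Pool.Agent.helper61.BM.Use

set_option autoImplicit false

namespace Pool.Agent.helper61.BM

open Finset
open scoped Classical

theorem LIM (hORE : ORE_stmt) (hSUM : SUM_stmt) (_hZTW : ZTW_stmt) (hTBE : TBE_stmt) (hEAR : EAR_stmt) (hLIA : LIA_stmt)
    (hLIB : LIB_stmt) : LIM_stmt := by
  intro V _ G m p hC hp y hy hty
  have hN := hC.toNoc
  have hF := hp.toFr
  obtain ⟨h1, h2⟩ := mem_NN.1 hy
  have hpos : 0 < (TT G (p 0)).card := card_pos.2 ⟨p 0, mem_TT.2 (Tw.refl _)⟩
  rcases Nat.eq_or_lt_of_le (show 1 ≤ (TT G (p 0)).card by omega) with hτ | hτ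
  · have h3 : dg G y ≠ dg G (p 0) := fun h => hty ((hTBE V G m p hC hp).1 y hy h)
    have h4 := (hSUM V G m hC y (p m) h1 (fun h => h2 h.symm)).1
    have h5 := hp.dd
    omega
  · obtain ⟨i, hi, rfl⟩ := hF.sur y
    have hi0 : i ≠ 0 := by
      rintro rfl
      exact hty (Tw.refl _)
    have him : i ≠ m := by
      rintro rfl
      exact h1 rfl
    by_cases hiz : i = m + 1
    · subst hiz
      exact hLIA V G m p hC hp _ hp.za hty (hEAR V G m p hC hp).1
    · by_cases hex : ∃ q, q < i ∧ G.Adj (p m) (p q)
      · exact hLIB V G m p hC hp hτ i (by omega) h2 hex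
      · push Not at hex
        have ha : G.Adj (p 0) (p i) := by
          have := (hp.toXP.full hORE hN (show i - 1 < m by omega)).2 (hex (i - 1) (by omega))
          rw [show i - 1 + 1 = i by omega] at this
          exact this
        refine hLIA V G m p hC hp _ ha hty ((hEAR V G m p hC hp).2 i (by omega) ha h2 ?_)
        intro j hj hbj
        by_contra hji
        rcases Nat.eq_or_lt_of_le (show j ≤ i by omega) with h | h
        · subst h
          exact h2 hbj
        · exact hex j h hbj

end Pool.Agent.helper61.BM
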