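import Pool.Agent.helper61.BM.Use

set_option autoImplicit false

namespace Pool.Agent.helper61.BM

open Finset
open scoped Classical

theorem LM1 (hORE : ORE_stmt) (hZTW : ZTW_stmt) (hLIM : LIM_stmt) (hTOP : TOP_stmt) : LM1_stmt := by
  intro V _ G m f p hC hL hp w hw htw
  have hN := hC.toNoc
  have hF := hp.toFr
  have hcp : CP G m p := hp.toCP
  have hdd := hcp.dd
  have hzn := hcp.nbz hORE hN
  have hZ := (hZTW V G m p hC hcp).1
  obtain ⟨S, hS⟩ : ∃ S : Finset V, S = NN G (p m) \ TT G (p 0) := ⟨_, rfl⟩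
  have mS : ∀ v, v ∈ S ↔ v ∈ NN G (p m) ∧ ¬ Tw G (p 0) v := by
    intro v
    rw [hS, mem_sdiff, mem_TT]
  have hbne : p m ≠ p 0 := hF.ne (by omega) (by omega) (by have := hN.hm; omega)
  have hTsub : TT G (p 0) ⊆ NN G (p m) := by
    intro t ht
    have := (mem_TT.1 ht).nonadj hbne hcp.na
    exact mem_NN.2 ⟨fun h => this.1 h.symm, fun h => this.2 h.symm⟩
  have cS : S.card + (TT G (p 0)).card = dg G (p 0) := by
    have h1 := card_sdiff_add_card_eq_card hTsub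
    rw [← hS] at h1
    have h2 := hN.card_NN_eq (p m)
    omega
  have hpos : 0 < (TT G (p 0)).card := card_pos.2 ⟨p 0, mem_TT.2 (Tw.refl _)⟩
  have hne : S.Nonempty := ⟨w, (mS w).2 ⟨hw, htw⟩⟩
  obtain ⟨w0, hw0, hmax⟩ := exists_max_image S f hne
  have hle : f w ≤ f w0 := hmax w ((mS w).2 ⟨hw, htw⟩)
  obtain ⟨hw1, hw2⟩ := (mS w0).1 hw0
  have hw3 := mem_NN.1 hw1
  have hlim := hLIM V G m p hC hcp w0 hw1 hw2
  obtain ⟨t1, t2⟩ := hTOP V f hL.inj hL.pos S (f w0) hmax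
  obtain ⟨s1, s2⟩ := hTOP V f hL.inj hL.pos (NN G (p 0)) (f (p m)) hp.ta
  have hNa := hN.card_NN_eq (p 0)
  by_contra hcon
  have hfne : f w0 ≠ f (p m) := fun h => hw3.1 (hL.inj h)
  rcases Nat.lt_or_gt_of_ne hfne with h | h
  · have hz : p (m + 1) ∉ NN G (p 0) := fun h => (mem_NN.1 h).2 hcp.za
    have hzS : p (m + 1) ∈ S := (mS _).2 ⟨mem_NN.2 ⟨hF.ne (by omega) (by omega) (by omega), hzn⟩, hZ⟩
    have h5 := hmax _ hzS
    have h6 := s2 _ hz (by omega)
    exact hL.no w0 (p m) (fun h => hw3.2 h.symm) h (by omega) (by omega) (by omega) (by omega)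
  · have hb : p m ∉ S := by
      intro h
      exact (mem_NN.1 ((mS _).1 h).1).1 rfl
    have h6 := t2 _ hb (by omega)
    exact hL.no (p m) w0 hw3.2 h (by omega) (by omega) (by omega) (by omega)

end Pool.Agent.helper61.BM
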