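import Pool.Agent.helper61.BM.Use

set_option autoImplicit false

namespace Pool.Agent.helper61.BM

open Finset
open scoped Classical

theorem LM3 (_hORE : ORE_stmt) (hSUM : SUM_stmt) (hXCO : XCO_stmt) (hXDG : XDG_stmt) (_hTBE : TBE_stmt) (hEAR : EAR_stmt)
    (hLIM : LIM_stmt) (hC5E : C5E_stmt) (hC5L : C5L_stmt) (hTOP : TOP_stmt) (hLM2 : LM2_stmt) : LM3_stmt := by
  intro V _ G m f p hC hL hp
  have hN := hC.toNoc
  have hm := hN.hm
  have hF := hp.toFr
  have hcp : CP G m p := hp.toCP
  have hdd := hcp.dd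
  obtain ⟨hτ, w, haw, hbw, htw, hwmax, hfw, hdw⟩ := hLM2 V G m f p hC hL hp
  have hwb : w ≠ p m := by
    rintro rfl
    exact hcp.na haw
  have hwa : w ≠ p 0 := haw.ne'
  have hwN : w ∈ NN G (p m) := mem_NN.2 ⟨hwb, hbw⟩
  have hlw := hLIM V G m p hC hcp w hwN htw
  have hTOP' := hTOP V f hL.inj hL.pos
  have hNw := hN.card_NN_eq w
  have hν : (CC G (p 0) (p m)).card ≤ dg G (p m) := by
    refine card_le_card ?_
    intro v hv
    rw [mem_filter]
    exact ⟨mem_univ _, (mem_CC.1 hv).2⟩
  obtain ⟨y0, hy0, hymax⟩ := exists_max_image (NN G w) f ⟨p m, mem_NN.2 ⟨fun h => hwb h.symm, fun h => hbw h.symm⟩⟩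
  have hy1 := mem_NN.1 hy0
  have hfy := (hTOP' (NN G w) (f y0) hymax).1
  have hfne : f w ≠ f y0 := fun h => hy1.1 (hL.inj h).symm
  have hsum : dg G w + dg G y0 = m + 1 := by
    have h1 := (hSUM V G m hC w y0 (fun h => hy1.1 h.symm) hy1.2).1
    by_contra hcon
    rcases Nat.lt_or_gt_of_ne hfne with h | h
    · exact hL.no w y0 hy1.2 h (by omega) (by omega) (by omega) (by omega)
    · exact hL.no y0 w (fun h => hy1.2 h.symm) h (by omega) (by omega) (by omega) (by omega)
  rcases hXCO V G m hC y0 w hy1.1 (fun h => hy1.2 h.symm) (by omega) with ⟨r, hr, hr0, hrm⟩ | ⟨r, hr, hr0, hrm⟩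
  · -- (I)
    exfalso
    have hyN : y0 ∉ NN G (p 0) := by
      intro h
      have := hXDG V G m p hC hcp y0 h
      omega
    have hya : y0 ≠ p 0 := by
      rintro rfl
      exact hy1.2 haw.symm
    have hay : G.Adj (p 0) y0 := by
      by_contra h
      exact hyN (mem_NN.2 ⟨hya, h⟩)
    have hty : ¬ Tw G (p 0) y0 := by
      intro h
      exact hy1.2 (h.adj_of haw (fun h => hy1.1 h.symm)).symm
    have hay' : G.Adj (p 0) (r 0) := by rw [hr0]; exact hay
    have hty' : ¬ Tw G (p 0) (r 0) := by rw [hr0]; exact hty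
    have claim : dg G (p m) + (TT G (p 0)).card ≤ (NN G w \ TT G y0).card + 1 := by
      have early : (∀ x ∈ NN G (p 0), ¬ G.Adj w x) →
          dg G (p m) + (TT G (p 0)).card ≤ (NN G w \ TT G y0).card + 1 := by
        intro h
        have := hC5E V G m p hC hcp r hr.toXP (by rw [hrm]; exact haw) (by rw [hrm]; exact htw)
          (by rw [hrm]; exact h) hay' hty'
        rw [hrm, hr0] at this
        exact this
      obtain ⟨i, hi, hiw⟩ := hF.sur w
      by_cases hiz : i = m + 1
      · subst hiz
        apply early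
        rw [← hiw]
        exact (hEAR V G m p hC hcp).1
      · have him : i ≠ m := by
          rintro rfl
          exact hwb hiw.symm
        by_cases hex : ∃ q, q < i ∧ G.Adj (p m) (p q)
        · have := hC5L V G m p hC hcp hτ i (by omega) (by rw [hiw]; exact haw) (by rw [hiw]; exact hbw) hex r hr
            (by rw [hiw]; exact hrm) hay' hty'
          rw [hiw, hr0] at this
          exact this
        · push Not at hex
          apply early
          rw [← hiw]
          refine (hEAR V G m p hC hcp).2 i (by omega) (by rw [hiw]; exact haw) (by rw [hiw]; exact hbw) ?_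
          intro j hj hbj
          by_contra hji
          rcases Nat.eq_or_lt_of_le (show j ≤ i by omega) with h | h
          · subst h
            rw [hiw] at hbj
            exact hbw hbj
          · exact hex j h hbj
    obtain ⟨S, hS⟩ : ∃ S : Finset V, S = NN G w \ TT G y0 := ⟨_, rfl⟩
    have mS : ∀ v, v ∈ S ↔ v ∈ NN G w ∧ ¬ Tw G y0 v := by
      intro v
      rw [hS, mem_sdiff, mem_TT]
    rw [← hS] at claim
    have hTsub : TT G y0 ⊆ NN G w := by
      intro t ht
      have := (mem_TT.1 ht).nonadj (b := w) (fun h => hy1.1 h.symm) (fun h => hy1.2 h.symm)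
      exact mem_NN.2 ⟨fun h => this.1 h.symm, fun h => this.2 h.symm⟩
    have cS : S.card + (TT G y0).card = dg G y0 := by
      have h1 := card_sdiff_add_card_eq_card hTsub
      rw [← hS] at h1
      omega
    have hpos : 0 < (TT G y0).card := card_pos.2 ⟨y0, mem_TT.2 (Tw.refl _)⟩
    have hne : S.Nonempty := by
      rw [← card_pos]
      omega
    obtain ⟨v, hv, hvmax⟩ := exists_max_image S f hne
    obtain ⟨v1, v2⟩ := (mS v).1 hv
    have v3 := mem_NN.1 v1
    have hlv := hLIM V G m r hC hr v (by rw [hrm]; exact v1) (by rw [hr0]; exact v2)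
    rw [hr0] at hlv
    obtain ⟨t1, t2⟩ := hTOP' S (f v) hvmax
    have hvw : f v ≠ f w := fun h => v3.1 (hL.inj h)
    rcases Nat.lt_or_gt_of_ne hvw with h | h
    · exact hL.no v w (fun h => v3.2 h.symm) h (by omega) (by omega) (by omega) (by omega)
    · have hwS : w ∉ S := by
        intro h
        exact (mem_NN.1 ((mS _).1 h).1).1 rfl
      have := t2 w hwS (by omega)
      exact hL.no w v v3.2 h (by omega) (by omega) (by omega) (by omega)
  · -- (II)
    have hpos : 0 < (TT G w).card := card_pos.2 ⟨w, mem_TT.2 (Tw.refl _)⟩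
    refine ⟨r, ⟨hr, ?_, ?_⟩, ?_⟩
    · rw [hr0, hrm]
      exact hymax
    · rw [hr0, hrm]
      intro v hv
      have hv' := mem_NN.1 hv
      by_contra hcon
      have hvt : ¬ Tw G w v := by
        intro h
        have h1 : ¬ Tw G (p 0) v := fun h' => htw (h'.trans h.symm)
        have h2 := h.nonadj (b := p m) (fun h => hwb h.symm) (fun h => hbw h.symm)
        have := hwmax v h1 (fun hh => h2.2 hh.2.symm)
        omega
      have hlv := hLIM V G m r hC hr v (by rw [hrm]; exact hv) (by rw [hr0]; exact hvt)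
      rw [hr0] at hlv
      have hvy : f v ≠ f y0 := fun h => hv'.1 (hL.inj h)
      rcases Nat.lt_or_gt_of_ne hvy with h | h
      · have := (hTOP' (NN G w) (f y0) hymax).2 w (fun h => (mem_NN.1 h).1 rfl) (by omega)
        exact hL.no v y0 (fun h => hv'.2 h.symm) h (by omega) (by omega) (by omega) (by omega)
      · exact hL.no y0 v hv'.2 h (by omega) (by omega) (by omega) (by omega)
    · rw [hr0]
      have h1 := hp.tb w hwN
      have h2 : f w ≠ f (p 0) := fun h => hwa (hL.inj h)
      omega

end Pool.Agent.helper61.BM
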