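import Pool.Agent.helper61.BM.Use

set_option autoImplicit false

namespace Pool.Agent.helper61.BM

open Finset
open scoped Classical

theorem LMX (hSUM : SUM_stmt) (hXCO : XCO_stmt) (hTOP : TOP_stmt) : LMX_stmt := by
  intro V _ G m f hC hL
  have hN := hC.toNoc
  have hm := hN.hm
  obtain ⟨P, hP⟩ : ∃ P : Finset (V × V), P = (univ : Finset (V × V)).filter (fun x => x.1 ≠ x.2 ∧ ¬ G.Adj x.1 x.2) :=
    ⟨_, rfl⟩
  have mP : ∀ x : V × V, x ∈ P ↔ x.1 ≠ x.2 ∧ ¬ G.Adj x.1 x.2 := by
    intro x
    rw [hP, mem_filter]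
    simp
  have hne : P.Nonempty := by
    by_contra hcon
    rw [not_nonempty_iff_eq_empty] at hcon
    have hadj : ∀ u v : V, u ≠ v → G.Adj u v := by
      intro u v huv
      by_contra h
      have : (u, v) ∈ P := (mP _).2 ⟨huv, h⟩
      rw [hcon] at this
      simp at this
    have hnd : (univ : Finset V).toList.Nodup := nodup_toList _
    have hlen : (univ : Finset V).toList.length = m + 2 := by
      rw [length_toList, card_univ, hN.card]
    have hch : (univ : Finset V).toList.IsChain G.Adj := by
      refine List.Pairwise.isChain ?_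
      exact hnd.imp (fun h => hadj _ _ h)
    have := hN.noc (univ : Finset V).toList ⟨hnd, hch, by
      intro x hx y hy
      rcases hl : (univ : Finset V).toList with _ | ⟨a, l⟩
      · rw [hl] at hlen
        simp at hlen
      · rw [hl] at hx hy hnd hlen
        simp only [List.head?_cons, Option.mem_some_iff] at hx
        subst hx
        have hlne : l ≠ [] := by
          rintro rfl
          simp at hlen
        have hy' : y ∈ l := by
          rw [List.getLast?_cons, Option.mem_some_iff] at hy
          rw [← hy]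
          rw [List.getLast?_eq_getLast_of_ne_nil hlne]
          exact List.getLast_mem hlne
        apply hadj
        rintro rfl
        exact (List.nodup_cons.1 hnd).1 hy'⟩
    omega
  obtain ⟨⟨u, v⟩, huv, hmax⟩ := exists_max_image P (fun x => f x.1 + f x.2) hne
  obtain ⟨h1, h2⟩ := (mP _).1 huv
  have ta : ∀ x ∈ NN G u, f x ≤ f v := by
    intro x hx
    have hx' := mem_NN.1 hx
    have := hmax (u, x) ((mP _).2 ⟨fun h => hx'.1 h.symm, hx'.2⟩)
    simp only at this
    omega
  have tb : ∀ x ∈ NN G v, f x ≤ f u := by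
    intro x hx
    have hx' := mem_NN.1 hx
    have := hmax (x, v) ((mP _).2 ⟨hx'.1, fun h => hx'.2 h.symm⟩)
    simp only at this
    omega
  have c1 := (hTOP V f hL.inj hL.pos (NN G u) (f v) ta).1
  have c2 := (hTOP V f hL.inj hL.pos (NN G v) (f u) tb).1
  have e1 := hN.card_NN_eq u
  have e2 := hN.card_NN_eq v
  have hs := (hSUM V G m hC u v h1 h2).1
  have hd : dg G u + dg G v = m + 1 := by
    by_contra hcon
    have hne' : f u ≠ f v := fun h => h1 (hL.inj h)
    rcases Nat.lt_or_gt_of_ne hne' with h | h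
    · exact hL.no u v h2 h (by omega) (by omega) (by omega) (by omega)
    · exact hL.no v u (fun h' => h2 h'.symm) h (by omega) (by omega) (by omega) (by omega)
  rcases hXCO V G m hC u v h1 h2 hd with ⟨p, hp, rfl, rfl⟩ | ⟨p, hp, rfl, rfl⟩
  · exact ⟨p, ⟨hp, ta, tb⟩⟩
  · exact ⟨p, ⟨hp, tb, ta⟩⟩

end Pool.Agent.helper61.BM
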