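import Pool.Agent.helper61.BM.Use

set_option autoImplicit false

namespace Pool.Agent.helper61.BM

open Finset
open scoped Classical

theorem LSE (_hORE : ORE_stmt) (_hZTW : ZTW_stmt) (hTBE : TBE_stmt) (hLAT : LAT_stmt) (hLAU : LAU_stmt) : LSE_stmt := by
  intro V _ G m p hC hp i hi hbi hex
  have hN := hC.toNoc
  have hF := hp.toFr
  obtain ⟨q, hq, hbq⟩ := hex
  have hT := (hTBE V G m p hC hp).2
  have hZ := _hZTW V G m p hC hp
  obtain ⟨hL1, hL2⟩ := hLAT V G m p hC hp i hi hbi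
  have hb0 : ¬ G.Adj (p m) (p 0) := fun h => hp.na h.symm
  have hbm : ¬ G.Adj (p m) (p m) := G.irrefl
  have hbz := hp.nbz _hORE hN
  obtain ⟨J1, hJ1⟩ : ∃ J : Finset ℕ, J = (range i).filter (fun j => G.Adj (p m) (p j)) := ⟨_, rfl⟩
  obtain ⟨J2, hJ2⟩ : ∃ J : Finset ℕ, J = (range m).filter (fun j => i < j ∧ G.Adj (p m) (p j)) := ⟨_, rfl⟩
  obtain ⟨J3, hJ3⟩ : ∃ J : Finset ℕ, J = (range (m + 1)).filter (fun t => 1 ≤ t ∧ Tw G (p 0) (p t)) := ⟨_, rfl⟩
  have m1 : ∀ j, j ∈ J1 ↔ j < i ∧ G.Adj (p m) (p j) := by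
    intro j
    rw [hJ1, mem_filter, mem_range]
  have m2 : ∀ j, j ∈ J2 ↔ j < m ∧ i < j ∧ G.Adj (p m) (p j) := by
    intro j
    rw [hJ2, mem_filter, mem_range]
  have m3 : ∀ j, j ∈ J3 ↔ j < m + 1 ∧ 1 ≤ j ∧ Tw G (p 0) (p j) := by
    intro j
    rw [hJ3, mem_filter, mem_range]
  have cb : dg G (p m) ≤ J1.card + J2.card := by
    have hsub : (univ : Finset V).filter (fun w => G.Adj (p m) w) ⊆ (J1 ∪ J2).image p := by
      intro w hw
      simp only [mem_filter, mem_univ, true_and] at hw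
      obtain ⟨j, hj, rfl⟩ := hF.sur w
      have n1 : j ≠ m := by
        rintro rfl
        exact hbm hw
      have n2 : j ≠ m + 1 := by
        rintro rfl
        exact hbz hw
      have n3 : j ≠ i := by
        rintro rfl
        exact hbi hw
      rw [mem_image]
      refine ⟨j, ?_, rfl⟩
      rw [mem_union, m1, m2]
      rcases Nat.lt_or_gt_of_ne n3 with h | h
      · exact Or.inl ⟨h, hw⟩
      · exact Or.inr ⟨by omega, h, hw⟩
    calc dg G (p m) ≤ ((J1 ∪ J2).image p).card := card_le_card hsub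
      _ ≤ (J1 ∪ J2).card := card_image_le
      _ ≤ J1.card + J2.card := card_union_le _ _
  have ct : (TT G (p 0)).card ≤ J3.card + 1 := by
    have hsub : TT G (p 0) ⊆ insert (p 0) (J3.image p) := by
      intro w hw
      have hw' := mem_TT.1 hw
      obtain ⟨j, hj, rfl⟩ := hF.sur w
      have n2 : j ≠ m + 1 := by
        rintro rfl
        exact hZ.1 hw'
      rw [mem_insert, mem_image]
      rcases Nat.eq_zero_or_pos j with h | h
      · left
        rw [h]
      · right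
        exact ⟨j, (m3 j).2 ⟨by omega, h, hw'⟩, rfl⟩
    calc (TT G (p 0)).card ≤ (insert (p 0) (J3.image p)).card := card_le_card hsub
      _ ≤ (J3.image p).card + 1 := card_insert_le _ _
      _ ≤ J3.card + 1 := Nat.add_le_add_right card_image_le 1
  have p1 : ∀ j ∈ J1, 1 ≤ j := by
    intro j hj
    rw [m1] at hj
    exact (hL1 j hj.1 hj.2).1
  have p3 : ∀ t ∈ J3, ∀ j, j ≤ m → G.Adj (p m) (p j) → t < j := by
    intro t ht j hj hbj
    rw [m3] at ht
    exact hT t j (by omega) hj ht.2.2 hbj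
  obtain ⟨I, hI⟩ : ∃ I : Finset ℕ, I = J1.image (fun j => j - 1) ∪ J2.image (fun j => j + 1) ∪ J3.image (fun j => j - 1) :=
    ⟨_, rfl⟩
  have mI : ∀ x, x ∈ I ↔ (∃ j ∈ J1, j - 1 = x) ∨ (∃ j ∈ J2, j + 1 = x) ∨ (∃ j ∈ J3, j - 1 = x) := by
    intro x
    rw [hI, mem_union, mem_union, mem_image, mem_image, mem_image]
    exact or_assoc
  have cI : I.card = J1.card + J2.card + J3.card := by
    rw [hI, card_union_of_disjoint, card_union_of_disjoint, card_image_of_injOn, card_image_of_injOn, card_image_of_injOn]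
    · intro x hx y hy hxy
      have hx' := (m3 x).1 hx
      have hy' := (m3 y).1 hy
      have : x - 1 = y - 1 := hxy
      omega
    · intro x hx y hy hxy
      have : x + 1 = y + 1 := hxy
      omega
    · intro x hx y hy hxy
      have hx' := p1 x hx
      have hy' := p1 y hy
      have : x - 1 = y - 1 := hxy
      omega
    · rw [disjoint_left]
      intro x hx hx'
      rw [mem_image] at hx hx'
      obtain ⟨j, hj, h1⟩ := hx
      obtain ⟨j', hj', h2⟩ := hx'
      rw [m1] at hj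
      rw [m2] at hj'
      omega
    · rw [disjoint_left]
      intro x hx hx'
      rw [mem_union, mem_image, mem_image] at hx
      rw [mem_image] at hx'
      obtain ⟨t, ht, h2⟩ := hx'
      have ht1 := (m3 t).1 ht
      have ht2 := p3 t ht
      rcases hx with ⟨j, hj, h1⟩ | ⟨j, hj, h1⟩
      · have hj1 := p1 j hj
        rw [m1] at hj
        have := ht2 j (by omega) hj.2
        omega
      · rw [m2] at hj
        have := ht2 q (by omega) hbq
        omega
  have bI : ∀ x ∈ I, x ≤ m := by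
    intro x hx
    rw [mI] at hx
    rcases hx with ⟨j, hj, rfl⟩ | ⟨j, hj, rfl⟩ | ⟨j, hj, rfl⟩
    · rw [m1] at hj
      omega
    · rw [m2] at hj
      omega
    · rw [m3] at hj
      omega
  refine ⟨I.image p, ?_, ?_, ?_⟩
  · intro v hv
    rw [mem_image] at hv
    obtain ⟨x, hx, rfl⟩ := hv
    rw [mI] at hx
    rw [mem_NN]
    rcases hx with ⟨j, hj, rfl⟩ | ⟨j, hj, rfl⟩ | ⟨j, hj, rfl⟩
    · have hj1 := p1 j hj
      rw [m1] at hj
      exact ⟨hF.ne (by omega) (by omega) (by omega), (hL1 j hj.1 hj.2).2⟩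
    · rw [m2] at hj
      exact ⟨hF.ne (by omega) (by omega) (by omega), hL2 j hj.2.1 hj.1 hj.2.2⟩
    · have h3 := p3 j hj q (by omega) hbq
      rw [m3] at hj
      exact ⟨hF.ne (by omega) (by omega) (by omega),
        (hLAU V G m p hC hp i hi hbi ⟨q, hq, hbq⟩ j hj.2.1 (by omega) hj.2.2).1⟩
  · rw [card_image_of_injOn, cI]
    · omega
    · intro x hx y hy hxy
      have hx' := bI x hx
      have hy' := bI y hy
      exact hF.inj x y (by omega) (by omega) hxy
  · intro v hv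
    rw [mem_image] at hv
    obtain ⟨x, hx, rfl⟩ := hv
    rw [mI] at hx
    rcases hx with ⟨j, hj, rfl⟩ | ⟨j, hj, rfl⟩ | ⟨j, hj, rfl⟩
    · rw [m1] at hj
      exact Or.inl ⟨j, hj.1, hj.2, rfl⟩
    · rw [m2] at hj
      exact Or.inr (Or.inl ⟨j, hj.2.1, hj.1, hj.2.2, rfl⟩)
    · rw [m3] at hj
      exact Or.inr (Or.inr ⟨j, hj.2.1, by omega, hj.2.2, rfl⟩)

end Pool.Agent.helper61.BM
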