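import Pool.Agent.helper61.BM.Spec

set_option autoImplicit false

namespace Pool.Agent.helper61.BM

open Finset
open scoped Classical

theorem MXG (hTWC : TWC_stmt) (hSAT : SAT_stmt) : MXG_stmt := by
  intro V _ G m f hN hconn hL
  obtain ⟨G', hle, hmax⟩ := (Set.toFinite {H : SimpleGraph V | Noc H m}).exists_le_maximal (show G ∈ {H : SimpleGraph V | Noc H m} from hN)
  have hN' : Noc G' m := hmax.1
  have hdg : ∀ v, dg G v ≤ dg G' v := by
    intro v
    refine card_le_card ?_
    intro w hw
    simp only [mem_filter, mem_univ, true_and] at hw ⊢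
    exact hle hw
  refine ⟨G', ⟨hN', ?_, ?_⟩, ⟨hL.inj, hL.pos, hL.le, ?_⟩⟩
  · intro u v huv hna
    refine hSAT V G' m hN' u v huv hna ?_
    by_contra hcon
    push Not at hcon
    have hmem : G' ⊔ SimpleGraph.edge u v ∈ {H : SimpleGraph V | Noc H m} :=
      ⟨hN'.hm, hN'.card, fun l hl => by
        have := hcon l hl
        omega⟩
    have h1 := hmax.2 hmem le_sup_left
    apply hna
    apply h1
    rw [SimpleGraph.sup_adj]
    right
    rw [SimpleGraph.edge_adj]
    exact ⟨Or.inl ⟨rfl, rfl⟩, huv⟩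
  · intro x A hx hA hy
    obtain ⟨u, hu, v, hv, hvx, huv⟩ := hTWC V G x (hconn x) A hx hA hy
    exact ⟨u, hu, v, hv, hvx, hle huv⟩
  · intro u v huv h1 h2 h3 h4 h5
    have := hdg u
    have := hdg v
    exact hL.no u v (fun h => huv (hle h)) h1 h2 (by omega) (by omega) (by omega)

end Pool.Agent.helper61.BM
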