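import Pool.Agent.helper61.BM.Spec

set_option autoImplicit false

namespace Pool.Agent.helper61.BM

open Finset
open scoped Classical

theorem ORE (hSEG : SEG_stmt) (hDEG : DEG_stmt) : ORE_stmt := by
  intro V _ G m p hN hp hab
  have hm := hN.hm
  -- not both
  have n1 : ∀ i, i < m → G.Adj (p 0) (p (i + 1)) → ¬ G.Adj (p m) (p i) := by
    intro i hi h1 h2
    have := hSEG V G m p hN hp [(0, i), (m, i + 1)] (by simp)
      ⟨by
        intro s hs
        simp only [List.mem_cons, List.not_mem_nil, or_false] at hs
        rcases hs with rfl | rfl <;> simp <;> omega,
       by
        simp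
        omega⟩
      (by simpa using h2.symm)
      (by
        intro s hs t ht
        simp at hs ht
        subst hs ht
        exact h1.symm)
    simp only [len, List.map_cons, List.map_nil, List.sum_cons, List.sum_nil] at this
    omega
  have n2 : G.Adj (p 0) (p (m + 1)) → ¬ G.Adj (p m) (p (m + 1)) := by
    intro h1 h2
    have := hSEG V G m p hN hp [(0, m), (m + 1, m + 1)] (by simp)
      ⟨by
        intro s hs
        simp only [List.mem_cons, List.not_mem_nil, or_false] at hs
        rcases hs with rfl | rfl <;> simp,
       by simp⟩
      (by simpa using h2)
      (by
        intro s hs t ht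
        simp at hs ht
        subst hs ht
        exact h1.symm)
    simp only [len, List.map_cons, List.map_nil, List.sum_cons, List.sum_nil] at this
    omega
  -- degrees
  have d1 : dg G (p 0) = ((range m).filter (fun i => G.Adj (p 0) (p (i + 1)))).card +
      (if G.Adj (p 0) (p (m + 1)) then 1 else 0) := by
    rw [hDEG V G m p hp (p 0)]
    have e1 : (range (m + 2)).filter (fun i => G.Adj (p 0) (p i)) =
        ((range m).filter (fun i => G.Adj (p 0) (p (i + 1)))).image (· + 1) ∪
        (if G.Adj (p 0) (p (m + 1)) then {m + 1} else ∅) := by
      ext i
      simp only [mem_filter, mem_range, mem_union, mem_image]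
      constructor
      · rintro ⟨h1, h2⟩
        by_cases hi : i = m + 1
        · subst hi
          right
          rw [if_pos h2]
          simp
        · left
          have hi0 : i ≠ 0 := by
            rintro rfl
            exact G.irrefl h2
          refine ⟨i - 1, ⟨by omega, ?_⟩, by omega⟩
          rw [show i - 1 + 1 = i by omega]
          exact h2
      · rintro (⟨j, ⟨h1, h2⟩, rfl⟩ | h)
        · exact ⟨by omega, h2⟩
        · split_ifs at h with hh
          · simp at h
            subst h
            exact ⟨by omega, hh⟩
          · simp at h
    rw [e1, card_union_of_disjoint, card_image_of_injective _ (add_left_injective 1)]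
    · split_ifs <;> simp
    · rw [disjoint_left]
      intro i hi hi'
      simp only [mem_image, mem_filter, mem_range] at hi
      obtain ⟨j, ⟨hj, _⟩, rfl⟩ := hi
      split_ifs at hi' with hh
      · simp at hi'
        omega
      · simp at hi'
  have d2 : dg G (p m) = ((range m).filter (fun i => G.Adj (p m) (p i))).card +
      (if G.Adj (p m) (p (m + 1)) then 1 else 0) := by
    rw [hDEG V G m p hp (p m)]
    have e1 : (range (m + 2)).filter (fun i => G.Adj (p m) (p i)) =
        ((range m).filter (fun i => G.Adj (p m) (p i))) ∪
        (if G.Adj (p m) (p (m + 1)) then {m + 1} else ∅) := by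
      ext i
      simp only [mem_filter, mem_range, mem_union]
      constructor
      · rintro ⟨h1, h2⟩
        by_cases hi : i = m + 1
        · subst hi
          right
          rw [if_pos h2]
          simp
        · left
          have hi0 : i ≠ m := by
            rintro rfl
            exact G.irrefl h2
          exact ⟨by omega, h2⟩
      · rintro (⟨h1, h2⟩ | h)
        · exact ⟨by omega, h2⟩
        · split_ifs at h with hh
          · simp at h
            subst h
            exact ⟨by omega, hh⟩
          · simp at h
    rw [e1, card_union_of_disjoint]
    · split_ifs <;> simp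
    · rw [disjoint_left]
      intro i hi hi'
      simp only [mem_filter, mem_range] at hi
      split_ifs at hi' with hh
      · simp at hi'
        omega
      · simp at hi'
  have hdisj : Disjoint ((range m).filter (fun i => G.Adj (p 0) (p (i + 1))))
      ((range m).filter (fun i => G.Adj (p m) (p i))) := by
    rw [disjoint_left]
    intro i hi hi'
    simp only [mem_filter, mem_range] at hi hi'
    exact n1 i hi.1 hi.2 hi'.2
  have hsub : ((range m).filter (fun i => G.Adj (p 0) (p (i + 1)))) ∪
      ((range m).filter (fun i => G.Adj (p m) (p i))) ⊆ range m := by
    intro i hi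
    simp only [mem_union, mem_filter] at hi
    rcases hi with hi | hi <;> exact hi.1
  have hc := card_le_card hsub
  rw [card_union_of_disjoint hdisj, card_range] at hc
  have hz : (if G.Adj (p 0) (p (m + 1)) then 1 else 0) + (if G.Adj (p m) (p (m + 1)) then 1 else 0) ≤ 1 := by
    by_cases h1 : G.Adj (p 0) (p (m + 1))
    · have := n2 h1
      simp [h1, this]
    · rw [if_neg h1]
      split_ifs <;> omega
  refine ⟨by omega, ?_⟩
  intro heq
  constructor
  · have hfull : ((range m).filter (fun i => G.Adj (p 0) (p (i + 1)))) ∪
      ((range m).filter (fun i => G.Adj (p m) (p i))) = range m := by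
      refine eq_of_subset_of_card_le hsub ?_
      rw [card_union_of_disjoint hdisj, card_range]
      omega
    intro i hi
    constructor
    · exact n1 i hi
    · intro h
      have : i ∈ range m := by simpa using hi
      rw [← hfull] at this
      simp only [mem_union, mem_filter, mem_range] at this
      rcases this with h' | h'
      · exact h'.2
      · exact absurd h'.2 h
  · constructor
    · exact n2
    · intro h
      by_contra h'
      rw [if_neg h'] at d1
      rw [if_neg h] at d2
      omega

end Pool.Agent.helper61.BM
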