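import Pool.Agent.helper61.BM.Spec

set_option autoImplicit false

namespace Pool.Agent.helper61.BM

open Finset
open scoped Classical

theorem REV : REV_stmt := by
  intro V G m p s e hp hse hem h1 h2
  have hval : ∀ k, k ≤ m + 1 → ∃ k', k' ≤ m + 1 ∧ rev p s e k = p k' ∧ (k' = if s ≤ k ∧ k ≤ e then s + e - k else k) := by
    intro k hk
    by_cases h : s ≤ k ∧ k ≤ e
    · exact ⟨s + e - k, by omega, by simp [rev, h], by simp [h]⟩
    · exact ⟨k, hk, by simp [rev, h], by simp [h]⟩
  refine ⟨?_, ?_, ?_⟩
  · intro i j hi hj hij
    obtain ⟨i', hi', hi2, hi3⟩ := hval i hi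
    obtain ⟨j', hj', hj2, hj3⟩ := hval j hj
    have h3 := hp.inj i' j' hi' hj' (by rw [← hi2, ← hj2, hij])
    split_ifs at hi3 hj3 <;> omega
  · intro v
    obtain ⟨i, hi, rfl⟩ := hp.sur v
    by_cases h : s ≤ i ∧ i ≤ e
    · refine ⟨s + e - i, by omega, ?_⟩
      have : s ≤ s + e - i ∧ s + e - i ≤ e := by omega
      simp only [rev, this, and_self, if_true]
      congr 1
      omega
    · exact ⟨i, hi, by simp [rev, h]⟩
  · intro i hi
    by_cases ha : s ≤ i ∧ i ≤ e
    · by_cases hb : s ≤ i + 1 ∧ i + 1 ≤ e
      · have e1 : rev p s e i = p (s + e - i) := by simp [rev, ha]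
        have e2 : rev p s e (i + 1) = p (s + e - (i + 1)) := by simp only [rev, hb, and_self, if_true]
        rw [e1, e2]
        have := hp.adj (s + e - (i + 1)) (by omega)
        have e3 : s + e - (i + 1) + 1 = s + e - i := by omega
        rw [e3] at this
        exact this.symm
      · have hie : i = e := by omega
        subst hie
        have e1 : rev p s i i = p s := by
          simp only [rev, hse, le_refl, and_self, if_true]
          congr 1
          omega
        have e2 : rev p s i (i + 1) = p (i + 1) := by
          simp [rev]
        rw [e1, e2]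
        exact h2 hi
    · by_cases hb : s ≤ i + 1 ∧ i + 1 ≤ e
      · have his : i + 1 = s := by omega
        subst his
        have e1 : rev p (i + 1) e i = p i := by simp [rev]
        have e2 : rev p (i + 1) e (i + 1) = p e := by
          simp only [rev, hse, le_refl, and_self, if_true]
          congr 1
          omega
        rw [e1, e2]
        exact h1 (by omega)
      · have e1 : rev p s e i = p i := by simp [rev, ha]
        have e2 : rev p s e (i + 1) = p (i + 1) := by simp only [rev, hb, if_false]
        rw [e1, e2]
        exact hp.adj i hi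

end Pool.Agent.helper61.BM
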