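import Pool.Agent.helper61.BM.Lst

set_option autoImplicit false

namespace Pool.Agent.helper61.BM

open Finset
open scoped Classical

theorem SAT : SAT_stmt := by
  intro V _ G m hN u v huv hna hex
  obtain ⟨l, hl, hlm⟩ := hex
  have hm := hN.hm
  have hpos : 0 < l.length := by omega
  obtain ⟨hnd, hadj⟩ := (clo_iff (G ⊔ SimpleGraph.edge u v) l hpos).1 hl
  have hlen : l.length ≤ m + 2 := by
    have := hnd.length_le_card
    rw [hN.card] at this
    exact this
  obtain ⟨k, hk⟩ : ∃ k, k = l.length := ⟨_, rfl⟩
  obtain ⟨c, hc⟩ : ∃ c : ℕ → V, c = cyc l hpos := ⟨_, rfl⟩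
  have cadd : ∀ j, c (j + k) = c j := by
    intro j
    rw [hc, hk]
    exact cyc_add l hpos j
  have cinj : ∀ i j, c i = c j → i % k = j % k := by
    intro i j h
    rw [hc] at h
    rw [hk]
    exact cyc_inj hpos hnd h
  have cadj : ∀ j, (G ⊔ SimpleGraph.edge u v).Adj (c j) (c (j + 1)) := by
    intro j
    rw [hc]
    exact hadj j
  have hsplit : ∀ j, G.Adj (c j) (c (j + 1)) ∨ (c j = u ∧ c (j + 1) = v) ∨ (c j = v ∧ c (j + 1) = u) := by
    intro j
    have := cadj j
    rw [SimpleGraph.sup_adj, SimpleGraph.edge_adj] at this
    tauto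
  -- a missing step
  obtain ⟨i, hi⟩ : ∃ i, ¬ G.Adj (c i) (c (i + 1)) := by
    by_contra hcon
    push Not at hcon
    have : Clo G l := (clo_iff G l hpos).2 ⟨hnd, fun j => by rw [← hc]; exact hcon j⟩
    have := hN.noc l this
    omega
  -- the path
  obtain ⟨q, q0, q1, qinj, qadj⟩ : ∃ q : ℕ → V, q 0 = u ∧ q (k - 1) = v ∧
      (∀ i j, i < k → j < k → q i = q j → i = j) ∧ (∀ j, j + 1 < k → G.Adj (q j) (q (j + 1))) := by
    have step : ∀ q : ℕ → V, q 0 = u → q (k - 1) = v → (∀ i j, i < k → j < k → q i = q j → i = j) →
        (∀ j, j + 1 < k → G.Adj (q j) (q (j + 1)) ∨ (q j = u ∧ q (j + 1) = v) ∨ (q j = v ∧ q (j + 1) = u)) →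
        (∀ j, j + 1 < k → G.Adj (q j) (q (j + 1))) := by
      intro q h0 h1 h2 h3 j hj
      rcases h3 j hj with h | ⟨h, h'⟩ | ⟨h, h'⟩
      · exact h
      · have e1 := h2 j 0 (by omega) (by omega) (h.trans h0.symm)
        have e2 := h2 (j + 1) (k - 1) hj (by omega) (h'.trans h1.symm)
        omega
      · have e1 := h2 j (k - 1) (by omega) (by omega) (h.trans h1.symm)
        omega
    have modlem : ∀ a b j : ℕ, a < k → b < k → (j + a) % k = (j + b) % k → a = b := by
      intro a b j ha hb h
      have h1 : (j + a) ≡ (j + b) [MOD k] := h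
      have h2 := Nat.ModEq.add_left_cancel' j h1
      have h3 : a % k = b % k := h2
      rw [Nat.mod_eq_of_lt ha, Nat.mod_eq_of_lt hb] at h3
      exact h3
    rcases hsplit i with h | ⟨h, h'⟩ | ⟨h, h'⟩
    · exact absurd h hi
    · -- c i = u, c (i + 1) = v: reversed
      have hq0 : c (i + k - 0) = u := by
        rw [Nat.sub_zero, cadd]
        exact h
      have hq1 : c (i + k - (k - 1)) = v := by
        rw [show i + k - (k - 1) = i + 1 by omega]
        exact h'
      have hqi : ∀ a b, a < k → b < k → c (i + k - a) = c (i + k - b) → a = b := by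
        intro a b ha hb hab
        have h1 := cinj _ _ hab
        have h2 := modlem (k - 1 - a) (k - 1 - b) (i + 1) (by omega) (by omega) (by
          rw [show i + 1 + (k - 1 - a) = i + k - a by omega, show i + 1 + (k - 1 - b) = i + k - b by omega]
          exact h1)
        omega
      refine ⟨fun j => c (i + k - j), hq0, hq1, hqi, step _ hq0 hq1 hqi ?_⟩
      intro j hj
      show G.Adj (c (i + k - j)) (c (i + k - (j + 1))) ∨ _
      have := hsplit (i + k - (j + 1))
      rw [show i + k - (j + 1) + 1 = i + k - j by omega] at this
      rcases this with h1 | ⟨h1, h2⟩ | ⟨h1, h2⟩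
      · exact Or.inl h1.symm
      · exact Or.inr (Or.inr ⟨h2, h1⟩)
      · exact Or.inr (Or.inl ⟨h2, h1⟩)
    · have hq0 : c (i + 1 + 0) = u := h'
      have hq1 : c (i + 1 + (k - 1)) = v := by
        rw [show i + 1 + (k - 1) = i + k by omega, cadd]
        exact h
      have hqi : ∀ a b, a < k → b < k → c (i + 1 + a) = c (i + 1 + b) → a = b := by
        intro a b ha hb hab
        exact modlem a b (i + 1) ha hb (cinj _ _ hab)
      refine ⟨fun j => c (i + 1 + j), hq0, hq1, hqi, step _ hq0 hq1 hqi ?_⟩
      intro j hj
      exact hsplit (i + 1 + j)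
  rcases Nat.eq_or_lt_of_le (show m + 1 ≤ k by omega) with h | h
  · -- k = m + 1
    have hsub : ((range (m + 1)).image q).card < (univ : Finset V).card := by
      rw [card_univ, hN.card]
      have := card_image_le (s := range (m + 1)) (f := q)
      rw [card_range] at this
      omega
    obtain ⟨z, _, hz⟩ := exists_mem_notMem_of_card_lt_card hsub
    have hz' : ∀ i, i ≤ m → q i ≠ z := by
      intro i hi h
      exact hz (mem_image.2 ⟨i, by rw [mem_range]; omega, h⟩)
    have e1 : ∀ i, i ≤ m → (if i = m + 1 then z else q i) = q i := by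
      intro i hi
      have : i ≠ m + 1 := by omega
      simp only [this, if_false]
    have e2 : (if m + 1 = m + 1 then z else q (m + 1)) = z := by simp
    refine ⟨fun i => if i = m + 1 then z else q i, ⟨?_, ?_, ?_⟩, ?_, Or.inl ?_⟩
    · intro i j hi hj hij
      by_cases hi' : i = m + 1
      · by_cases hj' : j = m + 1
        · omega
        · rw [if_pos hi', if_neg hj'] at hij
          exact absurd hij.symm (hz' j (by omega))
      · by_cases hj' : j = m + 1
        · rw [if_neg hi', if_pos hj'] at hij
          exact absurd hij (hz' i (by omega))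
        · rw [if_neg hi', if_neg hj'] at hij
          exact qinj i j (by omega) (by omega) hij
    · intro w
      by_contra hcon
      push Not at hcon
      have hw1 : ∀ i, i ≤ m → q i ≠ w := by
        intro i hi h
        have := hcon i (by omega)
        rw [e1 i hi] at this
        exact this h
      have hw2 : z ≠ w := by
        have := hcon (m + 1) le_rfl
        rw [e2] at this
        exact this
      have hc1 : ((range (m + 1)).image q).card = m + 1 := by
        rw [card_image_of_injOn, card_range]
        intro i hi j hj hij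
        rw [mem_coe, mem_range] at hi hj
        exact qinj i j (by omega) (by omega) hij
      have hc2 : (insert w (insert z ((range (m + 1)).image q))).card = m + 3 := by
        rw [card_insert_of_notMem, card_insert_of_notMem, hc1]
        · exact hz
        · intro hmem
          rcases mem_insert.1 hmem with h | h
          · exact hw2 h.symm
          · obtain ⟨i, hi, hi'⟩ := mem_image.1 h
            rw [mem_range] at hi
            exact hw1 i (by omega) hi'
      have hc3 := card_le_univ (insert w (insert z ((range (m + 1)).image q)))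
      rw [hc2, hN.card] at hc3
      omega
    · intro i hi
      rw [e1 i (by omega), e1 (i + 1) (by omega)]
      exact qadj i (by omega)
    · simp only
      rw [e1 0 (by omega)]
      exact q0
    · simp only
      rw [e1 m le_rfl]
      rw [show k - 1 = m by omega] at q1
      exact q1
  · -- k = m + 2
    have hk2 : k = m + 2 := by omega
    refine ⟨q, ⟨?_, ?_, ?_⟩, q0, Or.inr ⟨qadj m (by omega), ?_⟩⟩
    · intro i j hi hj hij
      exact qinj i j (by omega) (by omega) hij
    · intro w
      by_contra hcon
      push Not at hcon
      have hc1 : ((range (m + 2)).image q).card = m + 2 := by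
        rw [card_image_of_injOn, card_range]
        intro i hi j hj hij
        rw [mem_coe, mem_range] at hi hj
        exact qinj i j (by omega) (by omega) hij
      have hc2 : (insert w ((range (m + 2)).image q)).card = m + 3 := by
        rw [card_insert_of_notMem, hc1]
        intro h
        obtain ⟨i, hi, hi'⟩ := mem_image.1 h
        rw [mem_range] at hi
        exact hcon i (by omega) hi'
      have hc3 := card_le_univ (insert w ((range (m + 2)).image q))
      rw [hc2, hN.card] at hc3
      omega
    · intro i hi
      exact qadj i (by omega)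
    · rw [show k - 1 = m + 1 by omega] at q1
      exact q1

end Pool.Agent.helper61.BM
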