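import Pool.Agent.helper61.BM.Spec

set_option autoImplicit false

namespace Pool.Agent.helper61.BM

open Finset
open scoped Classical

theorem SUM (hORE : ORE_stmt) (hHAM : HAM_stmt) : SUM_stmt := by
  intro V _ G m hC u v huv hna
  obtain ⟨p, hp, rfl, h | ⟨h1, h2⟩⟩ := hC.sat u v huv hna
  · subst h
    refine ⟨(hORE V G m p hC.toNoc hp hna).1, fun h => ⟨p, ⟨hp, hna, h⟩, rfl, rfl⟩⟩
  · subst h2
    have := hHAM V G m p hC hp h1 hna
    exact ⟨by omega, fun h => by omega⟩

end Pool.Agent.helper61.BM
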