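import Pool.Agent.helper61.BM.Spec

set_option autoImplicit false

namespace Pool.Agent.helper61.BM

open Finset
open scoped Classical

theorem SWP : SWP_stmt := by
  intro V G m p k hp hk hkm h1 h2
  refine ⟨?_, ?_, ?_⟩
  · intro i j hi hj hij
    have key : ∀ i, i ≤ m + 1 → ∃ i', i' ≤ m + 1 ∧ swp m p k i = p i' ∧
        (i' = if i = k then m + 1 else if i = m + 1 then k else i) := by
      intro i hi
      by_cases h : i = k
      · exact ⟨m + 1, le_rfl, by simp [swp, h], by simp [h]⟩
      · by_cases h' : i = m + 1
        · have h3 : ¬ m + 1 = k := by omega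
          exact ⟨k, by omega, by simp [swp, h', h3], by simp [h', h3]⟩
        · exact ⟨i, hi, by simp [swp, h, h'], by simp [h, h']⟩
    obtain ⟨i', hi', hi2, hi3⟩ := key i hi
    obtain ⟨j', hj', hj2, hj3⟩ := key j hj
    have h3 := hp.inj i' j' hi' hj' (by rw [← hi2, ← hj2, hij])
    split_ifs at hi3 hj3 <;> omega
  · intro v
    obtain ⟨i, hi, rfl⟩ := hp.sur v
    by_cases h : i = k
    · refine ⟨m + 1, le_rfl, ?_⟩
      have : m + 1 ≠ k := by omega
      simp [swp, this, h]
    · by_cases h' : i = m + 1
      · exact ⟨k, by omega, by simp [swp, h']⟩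
      · exact ⟨i, hi, by simp [swp, h, h']⟩
  · intro i hi
    by_cases h : i = k
    · subst h
      have e1 : swp m p i i = p (m + 1) := by simp [swp]
      have e2 : swp m p i (i + 1) = p (i + 1) := by
        have : i + 1 ≠ m + 1 := by omega
        simp only [swp, Nat.succ_ne_self, this, if_false]
      rw [e1, e2]
      exact h2
    · by_cases h' : i + 1 = k
      · subst h'
        have e1 : swp m p (i + 1) i = p i := by
          have : i ≠ m + 1 := by omega
          simp [swp, this]
        have e2 : swp m p (i + 1) (i + 1) = p (m + 1) := by simp [swp]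
        rw [e1, e2]
        simpa using h1
      · have e1 : swp m p k i = p i := by
          have : i ≠ m + 1 := by omega
          simp [swp, this, h]
        have e2 : swp m p k (i + 1) = p (i + 1) := by
          have : i + 1 ≠ m + 1 := by omega
          simp only [swp, h', this, if_false]
        rw [e1, e2]
        exact hp.adj i hi

end Pool.Agent.helper61.BM
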