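import Pool.Agent.helper61.BM.Use

set_option autoImplicit false

namespace Pool.Agent.helper61.BM

open Finset
open scoped Classical

theorem TBE_core (hSEG : SEG_stmt) (hREV : REV_stmt) (hORE : ORE_stmt) {V : Type} [Fintype V] {G : SimpleGraph V}
    {m : ℕ} {p : ℕ → V} (hC : Ctx G m) (hp : CP G m p) {k : ℕ} (hk1 : 1 ≤ k) (hk : k < m)
    (hb : ¬ G.Adj (p m) (p k)) (hd : dg G (p k) = dg G (p 0)) :
    (∀ j, j ≤ m → G.Adj (p m) (p j) → k < j) ∧ Tw G (p 0) (p k) := by
  have hN := hC.toNoc
  have hF := hp.toFr
  have full : ∀ i, i < m → (G.Adj (p 0) (p (i + 1)) ↔ ¬ G.Adj (p m) (p i)) := fun i hi => hp.toXP.full hORE hN hi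
  have hbz : ¬ G.Adj (p m) (p (m + 1)) := hp.nbz hORE hN
  have hak : G.Adj (p 0) (p (k + 1)) := (full k hk).2 hb
  have hq := hREV V G m p 0 k hF (Nat.zero_le _) (by omega) (fun h => absurd h (lt_irrefl 0)) (fun _ => hak)
  have q0 : rev p 0 k 0 = p k := by
    rw [rev_in (by omega)]
    congr 1
    omega
  have qm : rev p 0 k m = p m := rev_out (by omega)
  have qz : rev p 0 k (m + 1) = p (m + 1) := rev_out (by omega)
  have hq' : XP G m (rev p 0 k) := ⟨hq, by rw [q0, qm]; exact fun h => hb h.symm, by
    rw [q0, qm, hd]; exact hp.dd⟩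
  have hxz : G.Adj (p k) (p (m + 1)) := by
    have := hq'.fullz hORE hN
    rw [q0, qm, qz] at this
    exact this.2 hbz
  have fq : ∀ i, i < m → (G.Adj (p k) (rev p 0 k (i + 1)) ↔ ¬ G.Adj (p m) (rev p 0 k i)) := by
    intro i hi
    have := hq'.full hORE hN hi
    rw [q0, qm] at this
    exact this
  have f1 : ∀ j, j < k → (G.Adj (p k) (p j) ↔ ¬ G.Adj (p m) (p (j + 1))) := by
    intro j hj
    have := fq (k - j - 1) (by omega)
    rw [rev_in (by omega), rev_in (by omega)] at this
    rw [show 0 + k - (k - j - 1 + 1) = j by omega, show 0 + k - (k - j - 1) = j + 1 by omega] at this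
    exact this
  have f2 : G.Adj (p k) (p (k + 1)) := hF.adj k hk
  have f3 : ∀ i, k < i → i < m → (G.Adj (p k) (p (i + 1)) ↔ ¬ G.Adj (p m) (p i)) := by
    intro i hi him
    have := fq i him
    rw [rev_out (by omega), rev_out (by omega)] at this
    exact this
  have claim : ∀ j, j ≤ m → G.Adj (p m) (p j) → k < j := by
    by_contra hcon
    push Not at hcon
    obtain ⟨j1, hj1, hj2, hj3⟩ := hcon
    have hex : ∃ j, G.Adj (p m) (p j) := ⟨j1, hj2⟩
    obtain ⟨j, hj, hmin⟩ : ∃ i, G.Adj (p m) (p i) ∧ ∀ j, j < i → ¬ G.Adj (p m) (p j) :=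
      ⟨Nat.find hex, Nat.find_spec hex, fun j hj => Nat.find_min hex hj⟩
    have hjj1 : j ≤ j1 := by
      by_contra h
      exact hmin j1 (by omega) hj2
    have hj0 : j ≠ 0 := by
      rintro rfl
      exact hp.na hj.symm
    have hjk : j ≠ k := by
      rintro rfl
      exact hb hj
    rcases le_or_gt j 2 with h | h
    · exact seg4 hSEG hN hF (m + 1) (m + 1) k j m (k + 1) 0 0 (by omega) hxz.symm hj.symm hak.symm hp.za
    · have h1 : G.Adj (p 0) (p (j - 1)) := by
        have := (full (j - 2) (by omega)).2 (hmin (j - 2) (by omega))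
        rw [show j - 2 + 1 = j - 1 by omega] at this
        exact this
      have h2 : G.Adj (p k) (p 1) := (f1 1 (by omega)).2 (hmin 2 (by omega))
      exact seg4 hSEG hN hF k j m (k + 1) 0 0 (j - 1) 1 (by omega) hj.symm hak.symm h1 h2.symm
  refine ⟨claim, ?_⟩
  have nb : ∀ j, j ≤ k → ¬ G.Adj (p m) (p j) := by
    intro j hj h
    have := claim j (by omega) h
    omega
  intro v
  obtain ⟨l, hl, rfl⟩ := hF.sur v
  rcases Nat.eq_or_lt_of_le hl with h | h
  · subst h
    exact ⟨fun _ => Or.inr hxz, fun _ => Or.inr hp.za⟩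
  · rcases Nat.eq_zero_or_pos l with h0 | h0
    · subst h0
      exact ⟨fun _ => Or.inr ((f1 0 (by omega)).2 (nb 1 (by omega))), fun _ => Or.inl rfl⟩
    · have ha : G.Adj (p 0) (p l) ↔ ¬ G.Adj (p m) (p (l - 1)) := by
        have := full (l - 1) (by omega)
        rw [show l - 1 + 1 = l by omega] at this
        exact this
      rcases lt_trichotomy l k with h1 | h1 | h1
      · exact ⟨fun _ => Or.inr ((f1 l (by omega)).2 (nb (l + 1) (by omega))),
          fun _ => Or.inr (ha.2 (nb (l - 1) (by omega)))⟩
      · subst h1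
        exact ⟨fun _ => Or.inl rfl, fun _ => Or.inr (ha.2 (nb (l - 1) (by omega)))⟩
      · rcases Nat.eq_or_lt_of_le (show k + 1 ≤ l by omega) with h2 | h2
        · subst h2
          exact ⟨fun _ => Or.inr f2, fun _ => Or.inr hak⟩
        · have h3 := f3 (l - 1) (by omega) (by omega)
          rw [show l - 1 + 1 = l by omega] at h3
          have n1 : p l ≠ p 0 := hF.ne (by omega) (by omega) (by omega)
          have n2 : p l ≠ p k := hF.ne (by omega) (by omega) (by omega)
          simp only [n1, n2, false_or]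
          rw [ha, h3]

theorem TBE (hSEG : SEG_stmt) (hREV : REV_stmt) (hORE : ORE_stmt) (_hZTW : ZTW_stmt) (hXZZ : XZZ_stmt) : TBE_stmt := by
  intro V _ G m p hC hp
  have hN := hC.toNoc
  have hF := hp.toFr
  constructor
  · intro x hx hd
    obtain ⟨h1, h2⟩ := mem_NN.1 hx
    obtain ⟨l, hl, rfl⟩ := hF.sur x
    rcases Nat.eq_zero_or_pos l with h0 | h0
    · subst h0
      exact Tw.refl _
    · have hlm : l ≠ m := by
        rintro rfl
        exact h1 rfl
      rcases Nat.eq_or_lt_of_le hl with h | h
      · subst h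
        -- z
        have hz : ∀ v ∈ NN G (p 0), ¬ G.Adj (p (m + 1)) v := by
          intro v hv
          obtain ⟨k, hk, rfl, hk2⟩ := hp.nna hORE hN hv
          exact (hXZZ V G m p hC hp k hk hk2).1
        have hsub : (univ : Finset V).filter (fun w => G.Adj (p (m + 1)) w) ⊆ (univ \ NN G (p 0)).erase (p (m + 1)) := by
          intro v hv
          simp only [mem_filter, mem_univ, true_and] at hv
          simp only [mem_erase, mem_sdiff, mem_univ, true_and]
          exact ⟨hv.ne', fun h => hz v h hv⟩
        have hzn : p (m + 1) ∈ univ \ NN G (p 0) := by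
          simp only [mem_sdiff, mem_univ, true_and]
          intro h
          exact (mem_NN.1 h).2 hp.za
        have hc : ((univ \ NN G (p 0)).erase (p (m + 1))).card = dg G (p 0) := by
          rw [card_erase_of_mem hzn, card_sdiff_of_subset (subset_univ _), card_univ, hN.card]
          have := hN.card_NN_eq (p 0)
          omega
        have heq := eq_of_subset_of_card_le hsub (by
          rw [hc, ← hd]
          exact le_rfl)
        intro v
        have hv : G.Adj (p (m + 1)) v ↔ v ≠ p (m + 1) ∧ v ∉ NN G (p 0) := by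
          have : v ∈ (univ : Finset V).filter (fun w => G.Adj (p (m + 1)) w) ↔
            v ∈ (univ \ NN G (p 0)).erase (p (m + 1)) := by rw [heq]
          simpa only [mem_filter, mem_univ, true_and, mem_erase, mem_sdiff] using this
        have hv2 : v ∉ NN G (p 0) ↔ (v = p 0 ∨ G.Adj (p 0) v) := by
          rw [mem_NN]
          tauto
        rw [hv, ← hv2]
        constructor
        · intro h
          by_cases h' : v = p (m + 1)
          · exact Or.inl h'
          · exact Or.inr ⟨h', h⟩
        · rintro (rfl | h)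
          · simpa only [mem_sdiff, mem_univ, true_and] using hzn
          · exact h.2
      · exact (TBE_core hSEG hREV hORE hC hp h0 (by omega) h2 hd).2
  · intro i j hi hj ht hb
    rcases Nat.eq_zero_or_pos i with h0 | h0
    · subst h0
      rcases Nat.eq_zero_or_pos j with h1 | h1
      · subst h1
        exact absurd hb.symm hp.na
      · exact h1
    · have hne : p m ≠ p 0 := hF.ne (by omega) (by omega) (by omega)
      have hnb := ht.nonadj hne hp.na
      have him : i ≠ m := by
        rintro rfl
        exact hnb.1 rfl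
      exact (TBE_core hSEG hREV hORE hC hp h0 (by omega) (fun h => hnb.2 h.symm) ht.dg_eq.symm).1 j hj hb

end Pool.Agent.helper61.BM
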