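import Pool.Agent.helper61.BM.Spec

set_option autoImplicit false

namespace Pool.Agent.helper61.BM

open Finset
open scoped Classical

theorem TOP : TOP_stmt := by
  intro V _ f hf hpos
  have key : ∀ (S : Finset V) (k : ℕ), (∀ u ∈ S, f u ≤ k) → S.card ≤ k := by
    intro S k hS
    have h1 : S.image f ⊆ Icc 1 k := by
      intro x hx
      obtain ⟨u, hu, rfl⟩ := mem_image.1 hx
      exact mem_Icc.2 ⟨hpos u, hS u hu⟩
    have h2 := card_le_card h1
    rw [card_image_of_injective _ hf, Nat.card_Icc] at h2
    omega
  intro S k hS
  refine ⟨key S k hS, ?_⟩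
  intro x hx hxk
  have := key (insert x S) k (by
    intro u hu
    rcases mem_insert.1 hu with rfl | hu
    · exact hxk
    · exact hS u hu)
  rw [card_insert_of_notMem hx] at this
  exact this

end Pool.Agent.helper61.BM
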