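import Pool.Agent.helper61.BM.Use

set_option autoImplicit false

namespace Pool.Agent.helper61.BM

open Finset
open scoped Classical

theorem TPR (hORE : ORE_stmt) (hZTW : ZTW_stmt) (hTBE : TBE_stmt) : TPR_stmt := by
  intro V _ G m p hC hp
  have hN := hC.toNoc
  have hF := hp.toFr
  have hz := hZTW V G m p hC hp
  have hb := (hTBE V G m p hC hp).2
  have part1 : ∀ t, 1 ≤ t → t ≤ m → Tw G (p 0) (p t) → 2 ≤ t ∧ G.Adj (p 0) (p (t - 1)) ∧ ¬ G.Adj (p m) (p (t - 1)) ∧
    ¬ Tw G (p 0) (p (t - 1)) := by
    intro t h1 h2 ht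
    have ht1 : t ≠ 1 := by
      rintro rfl
      exact hz.2 0 (by omega) (Tw.refl _) ht
    have h3 : ∀ j, j ≤ t → ¬ G.Adj (p m) (p j) := by
      intro j hj h
      have := hb t j h2 (by omega) ht h
      omega
    refine ⟨by omega, ?_, h3 (t - 1) (by omega), ?_⟩
    · have := (hp.toXP.full hORE hN (show t - 2 < m by omega)).2 (h3 (t - 2) (by omega))
      rw [show t - 2 + 1 = t - 1 by omega] at this
      exact this
    · intro h
      apply hz.2 (t - 1) (by omega) h
      rw [show t - 1 + 1 = t by omega]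
      exact ht
  refine ⟨part1, ?_⟩
  have e1 : TT G (p 0) = ((range (m + 1)).filter (fun t => Tw G (p 0) (p t))).image p := by
    ext v
    simp only [mem_TT, mem_image, mem_filter, mem_range]
    constructor
    · intro h
      obtain ⟨i, hi, rfl⟩ := hF.sur v
      have : i ≠ m + 1 := by
        rintro rfl
        exact hz.1 h
      exact ⟨i, ⟨by omega, h⟩, rfl⟩
    · rintro ⟨i, ⟨_, h⟩, rfl⟩
      exact h
  have c1 : (TT G (p 0)).card = ((range (m + 1)).filter (fun t => Tw G (p 0) (p t))).card := by
    rw [e1, card_image_of_injOn]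
    intro i hi j hj hij
    simp only [coe_filter, mem_range, Set.mem_setOf_eq] at hi hj
    exact hF.inj i j (by omega) (by omega) hij
  have h0 : 0 ∈ (range (m + 1)).filter (fun t => Tw G (p 0) (p t)) := by
    simp only [mem_filter, mem_range]
    exact ⟨by omega, Tw.refl _⟩
  have hsub : insert (p (m + 1)) ((((range (m + 1)).filter (fun t => Tw G (p 0) (p t))).erase 0).image (fun t => p (t - 1)))
      ⊆ WW G (p 0) (p m) := by
    intro v hv
    rw [mem_insert, mem_image] at hv
    rcases hv with rfl | ⟨t, ht, rfl⟩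
    · exact mem_WW.2 ⟨hp.za, hp.nbz hORE hN, hz.1⟩
    · simp only [mem_erase, mem_filter, mem_range] at ht
      obtain ⟨_, h2, h3, h4⟩ := part1 t (by omega) (by omega) ht.2.2
      exact mem_WW.2 ⟨h2, h3, h4⟩
  have hc := card_le_card hsub
  rw [card_insert_of_notMem, card_image_of_injOn, card_erase_of_mem h0, ← c1] at hc
  · have : 0 < (TT G (p 0)).card := card_pos.2 ⟨p 0, mem_TT.2 (Tw.refl _)⟩
    omega
  · intro i hi j hj hij
    simp only [coe_erase, coe_filter, mem_range, Set.mem_diff, Set.mem_setOf_eq, Set.mem_singleton_iff] at hi hj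
    have := hF.inj (i - 1) (j - 1) (by omega) (by omega) hij
    omega
  · intro h
    rw [mem_image] at h
    obtain ⟨t, ht, h2⟩ := h
    simp only [mem_erase, mem_filter, mem_range] at ht
    have := hF.inj (t - 1) (m + 1) (by omega) (by omega) h2
    omega

end Pool.Agent.helper61.BM
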