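import Pool.Agent.helper61.BM.Spec

set_option autoImplicit false

namespace Pool.Agent.helper61.BM

open Finset
open scoped Classical

theorem TWC_walk {V : Type} {G : SimpleGraph V} {x : V} {A : Finset V}
    (h : ∀ u ∈ A, ∀ v, v ∉ A → v ≠ x → ¬ G.Adj u v) :
    ∀ {u v : {w : V | w ≠ x}} (_ : (G.induce {w : V | w ≠ x}).Walk u v), (u : V) ∈ A → (v : V) ∈ A := by
  intro u v w
  induction w with
  | nil => exact id
  | @cons a b c hab _ ih =>
    intro ha
    apply ih
    by_contra hb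
    exact h a ha b hb b.2 hab

theorem TWC : TWC_stmt := by
  intro V _ G x hG A hx hA hy
  obtain ⟨a, ha⟩ := hA
  obtain ⟨y, hyA, hyx⟩ := hy
  by_contra hcon
  push Not at hcon
  have hax : a ≠ x := by
    rintro rfl
    exact hx ha
  obtain ⟨w⟩ := hG.preconnected ⟨a, hax⟩ ⟨y, hyx⟩
  exact hyA (TWC_walk hcon w ha)

end Pool.Agent.helper61.BM
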