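import Pool.Agent.helper61.BM.Use

set_option autoImplicit false

namespace Pool.Agent.helper61.BM

open Finset
open scoped Classical

theorem TWO (hSEG : SEG_stmt) : TWO_stmt := by
  intro V _ G m hC a y r hay har hty htr hyr hnyr
  have hN := hC.toNoc
  have hm := hN.hm
  obtain ⟨p, hF, rfl, hcase⟩ := hC.sat y r hyr hnyr
  have key : ∀ k, k ≤ m + 1 → Tw G a (p k) → k ≤ m ∧ ¬ G.Adj (p 0) (p (k + 1)) ∧ G.Adj (p k) (p (k + 1)) := by
    intro k hk ht
    have h1 : G.Adj (p k) (p 0) := ht.adj_of hay (fun h => hty (h ▸ ht))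
    have h2 : G.Adj (p k) r := ht.adj_of har (fun h => htr (h ▸ ht))
    have hk0 : k ≠ 0 := by
      rintro rfl
      exact hty ht
    rcases hcase with h | ⟨h, h'⟩
    · subst h
      have hkm : k ≠ m := by
        rintro rfl
        exact htr ht
      have hkz : k ≠ m + 1 := by
        rintro rfl
        exact seg2 hSEG hN hF 0 m (m + 1) (m + 1) (by omega) h2.symm h1
      refine ⟨by omega, ?_, hF.adj k (by omega)⟩
      intro h3
      exact seg2 hSEG hN hF 0 k m (k + 1) (by omega) h2 h3.symm
    · subst h'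
      have hkz : k ≠ m + 1 := by
        rintro rfl
        exact htr ht
      rcases Nat.eq_or_lt_of_le (show k ≤ m by omega) with h4 | h4
      · subst h4
        exact ⟨le_rfl, hnyr, h⟩
      · refine ⟨by omega, ?_, hF.adj k h4⟩
        intro h3
        exact seg3 hSEG hN hF 0 k (m + 1) (m + 1) m (k + 1) (by omega) h2 h.symm h3.symm
  have hidx : ∀ v : V, ∃ i, i ≤ m + 1 ∧ p i = v := hF.sur
  refine card_le_card_of_injOn (fun t => p (Classical.choose (hidx t) + 1)) ?_ ?_
  · intro t ht
    have ht' : Tw G a t := mem_TT.1 ht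
    have hs := Classical.choose_spec (hidx t)
    obtain ⟨k1, k2, k3⟩ := key _ hs.1 (by rw [hs.2]; exact ht')
    simp only [coe_filter, Set.mem_setOf_eq, mem_NN]
    rw [hs.2] at k3
    have hne : p (Classical.choose (hidx t) + 1) ≠ p 0 := hF.ne (by omega) (by omega) (by omega)
    have hna : p (Classical.choose (hidx t) + 1) ≠ a := by
      intro h
      rw [h] at k2
      exact k2 hay.symm
    refine ⟨⟨hne, k2⟩, ht'.adj_of' k3 hna, ?_⟩
    intro h
    exact k2 (h.adj_of hay hne.symm).symm
  · intro t ht t' ht' h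
    have hs := Classical.choose_spec (hidx t)
    have hs' := Classical.choose_spec (hidx t')
    obtain ⟨k1, _⟩ := key _ hs.1 (by rw [hs.2]; exact mem_TT.1 ht)
    obtain ⟨k1', _⟩ := key _ hs'.1 (by rw [hs'.2]; exact mem_TT.1 ht')
    have := hF.inj _ _ (by omega) (by omega) h
    rw [← hs.2, ← hs'.2]
    congr 1
    omega

end Pool.Agent.helper61.BM
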