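import Pool.Agent.helper61.BM.Lst

set_option autoImplicit false

namespace Pool.Agent.helper61.BM

open Finset
open scoped Classical

theorem WLK_walk {W : Type} (Γ : SimpleGraph W) (N : ℕ) (s : ℕ → W)
    (hadj : ∀ i, i + 1 < N → Γ.Adj (s i) (s (i + 1))) :
    ∀ n, n < N → ∃ p : Γ.Walk (s 0) (s n), p.support = (List.range (n + 1)).map s ∧
      p.edges = (List.range n).map (fun i => s(s i, s (i + 1))) ∧ p.length = n := by
  intro n
  induction n with
  | zero =>
    intro _
    exact ⟨SimpleGraph.Walk.nil, rfl, rfl, rfl⟩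
  | succ n ih =>
    intro hn
    obtain ⟨p, hp1, hp2, hp3⟩ := ih (by omega)
    refine ⟨p.concat (hadj n hn), ?_, ?_, ?_⟩
    · rw [SimpleGraph.Walk.support_concat, hp1, List.range_succ (n := n + 1), List.map_append]
      simp
    · rw [SimpleGraph.Walk.edges_concat, hp2, List.range_succ (n := n), List.map_append]
      simp
    · rw [SimpleGraph.Walk.length_concat, hp3]

theorem WLK : WLK_stmt := by
  intro V G l hl h3
  have hpos : 0 < l.length := by omega
  obtain ⟨hnd, hadj⟩ := (clo_iff G l hpos).1 hl
  obtain ⟨p, hp1, hp2, hp3⟩ := WLK_walk G l.length (cyc l hpos) (fun i _ => hadj i) (l.length - 1) (by omega)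
  have hinj : ∀ i j, i < l.length → j < l.length → cyc l hpos i = cyc l hpos j → i = j := by
    intro i j hi hj h
    have := cyc_inj hpos hnd h
    rw [Nat.mod_eq_of_lt hi, Nat.mod_eq_of_lt hj] at this
    exact this
  have hlast : G.Adj (cyc l hpos (l.length - 1)) (cyc l hpos 0) := by
    have := hadj (l.length - 1)
    rw [show l.length - 1 + 1 = 0 + l.length by omega, cyc_add] at this
    exact this
  have hpath : p.IsPath := by
    rw [SimpleGraph.Walk.isPath_def, hp1]
    refine List.Nodup.map_on ?_ List.nodup_range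
    intro x hx y hy hxy
    rw [List.mem_range] at hx hy
    exact hinj x y (by omega) (by omega) hxy
  refine ⟨_, SimpleGraph.Walk.cons hlast p, ?_, ?_⟩
  · rw [SimpleGraph.Walk.cons_isCycle_iff]
    refine ⟨hpath, ?_⟩
    rw [hp2, List.mem_map]
    rintro ⟨i, hi, he⟩
    rw [List.mem_range] at hi
    rcases Sym2.eq_iff.1 he with ⟨h1, h2⟩ | ⟨h1, h2⟩
    · have := hinj i (l.length - 1) (by omega) (by omega) h1
      omega
    · have h3 := hinj i 0 (by omega) (by omega) h1
      have h4 := hinj (i + 1) (l.length - 1) (by omega) (by omega) h2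
      omega
  · rw [SimpleGraph.Walk.length_cons, hp3]
    omega

end Pool.Agent.helper61.BM
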