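import Pool.Agent.helper61.BM.Spec

set_option autoImplicit false

namespace Pool.Agent.helper61.BM

open Finset
open scoped Classical

theorem XCO (hORE : ORE_stmt) (hREV : REV_stmt) (hSUM : SUM_stmt) : XCO_stmt := by
  intro V _ G m hC u v huv hna hd
  obtain ⟨p, hp, rfl, rfl⟩ := (hSUM V G m hC u v huv hna).2 hd
  have hf := ((hORE V G m p hC.toNoc hp.toFr hp.na).2 hp.dd).2
  by_cases hz : G.Adj (p 0) (p (m + 1))
  · exact Or.inl ⟨p, ⟨hp, hz⟩, rfl, rfl⟩
  · right
    have hz' : G.Adj (p m) (p (m + 1)) := by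
      by_contra h
      exact hz (hf.2 h)
    have hq := hREV V G m p 0 m hp.toFr (Nat.zero_le _) le_rfl (fun h => absurd h (lt_irrefl 0))
      (fun h => absurd h (lt_irrefl m))
    have e0 : rev p 0 m 0 = p m := by simp [rev]
    have em : rev p 0 m m = p 0 := by simp [rev]
    have ez : rev p 0 m (m + 1) = p (m + 1) := by simp [rev]
    refine ⟨rev p 0 m, ⟨⟨hq, ?_, ?_⟩, ?_⟩, e0, em⟩
    · rw [e0, em]
      exact fun h => hna h.symm
    · rw [e0, em, add_comm]
      exact hd
    · rw [e0, ez]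
      exact hz'

end Pool.Agent.helper61.BM
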