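import Pool.Agent.helper61.BM.Use

set_option autoImplicit false

namespace Pool.Agent.helper61.BM

open Finset
open scoped Classical

theorem XDG (hREV : REV_stmt) (hORE : ORE_stmt) : XDG_stmt := by
  intro V _ G m p hC hp x hx
  have hF := hp.toFr
  obtain ⟨h1, h2⟩ := mem_NN.1 hx
  obtain ⟨k, hk, rfl⟩ := hF.sur x
  have hk0 : k ≠ 0 := by
    rintro rfl
    exact h1 rfl
  have hkm : k ≠ m + 1 := by
    rintro rfl
    exact h2 hp.za
  have hfull := ((hORE V G m p hC.toNoc hF hp.na).2 hp.dd).1
  rcases Nat.eq_or_lt_of_le (show k ≤ m by omega) with h | h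
  · rw [h]
  · have hl : G.Adj (p m) (p (k - 1)) := by
      by_contra hh
      have := (hfull (k - 1) (by omega)).2 hh
      rw [show k - 1 + 1 = k by omega] at this
      exact h2 this
    have hq := hREV V G m p k m hF (by omega) le_rfl (fun _ => hl.symm) (fun h => absurd h (lt_irrefl m))
    have e0 : rev p k m 0 = p 0 := by
      have : ¬ (k ≤ 0 ∧ 0 ≤ m) := by omega
      simp only [rev, this, if_false]
    have em : rev p k m m = p k := by
      have : k ≤ m ∧ m ≤ m := by omega
      simp only [rev, this, and_self, if_true]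
      congr 1
      omega
    have := (hORE V G m _ hC.toNoc hq (by rw [e0, em]; exact h2)).1
    rw [e0, em] at this
    have := hp.dd
    omega

end Pool.Agent.helper61.BM
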