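import Pool.Agent.helper61.BM.Use

set_option autoImplicit false

namespace Pool.Agent.helper61.BM

open Finset
open scoped Classical

theorem XZZ (hSEG : SEG_stmt) : XZZ_stmt := by
  intro V _ G m p hC hp i hi hb
  have hF := hp.toFr
  refine ⟨?_, ?_⟩
  · intro h
    exact seg3 hSEG hC.toNoc hF (m + 1) (m + 1) 0 i m (i + 1) (by omega) hp.za.symm hb.symm h.symm
  · intro hi2 h
    exact seg3 hSEG hC.toNoc hF (m + 1) (m + 1) 0 i m (i + 2) (by omega) hp.za.symm hb.symm h.symm

end Pool.Agent.helper61.BM
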