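import Pool.Agent.helper61.BM.Use

set_option autoImplicit false

namespace Pool.Agent.helper61.BM

open Finset
open scoped Classical

theorem ZTW (hHAM : HAM_stmt) (hINS : INS_stmt) : ZTW_stmt := by
  intro V _ G m p hC hp
  have hm := hC.hm
  have hF := hp.toFr
  have key : ∀ k, k < m → G.Adj (p k) (p (m + 1)) → G.Adj (p (m + 1)) (p (k + 1)) → False := by
    intro k hk h1 h2
    obtain ⟨h3, h4⟩ := hINS V G m p k hF hk h1 h2
    have e0 : ins m p k 0 = p 0 := by simp [ins]
    have e1 : ins m p k (m + 1) = p m := by
      have a1 : ¬ m + 1 ≤ k := by omega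
      have a2 : ¬ m = k := by omega
      simp [ins, a1, a2]
    have := hHAM V G m _ hC h3 h4 (by rw [e0, e1]; exact hp.na)
    rw [e0, e1] at this
    have := hp.dd
    omega
  have hne : ∀ i, i ≤ m → p (m + 1) ≠ p i := by
    intro i hi h
    have := hF.inj (m + 1) i (by omega) (by omega) h
    omega
  constructor
  · intro ht
    exact key 0 (by omega) hp.za (ht.adj_of (hF.adj 0 (by omega)) (fun h => hne (0 + 1) (by omega) h.symm))
  · intro i hi h1 h2
    refine key i hi ?_ (h2.adj_of hp.za (hne (i + 1) (by omega))).symm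
    exact h1.adj_of hp.za (hne i (by omega))

end Pool.Agent.helper61.BM
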