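import Pool.Agent.helper61.BM.SEG
import Pool.Agent.helper61.BM.REV
import Pool.Agent.helper61.BM.SWP
import Pool.Agent.helper61.BM.INS
import Pool.Agent.helper61.BM.DEG
import Pool.Agent.helper61.BM.ORE
import Pool.Agent.helper61.BM.HAM
import Pool.Agent.helper61.BM.SUM
import Pool.Agent.helper61.BM.XCO
import Pool.Agent.helper61.BM.ZTW
import Pool.Agent.helper61.BM.XDG
import Pool.Agent.helper61.BM.XZZ
import Pool.Agent.helper61.BM.TBE
import Pool.Agent.helper61.BM.TPR
import Pool.Agent.helper61.BM.EAR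
import Pool.Agent.helper61.BM.LAT
import Pool.Agent.helper61.BM.LAU
import Pool.Agent.helper61.BM.TWO
import Pool.Agent.helper61.BM.LIA
import Pool.Agent.helper61.BM.LSE
import Pool.Agent.helper61.BM.LIB
import Pool.Agent.helper61.BM.LIM
import Pool.Agent.helper61.BM.KND
import Pool.Agent.helper61.BM.GLL
import Pool.Agent.helper61.BM.C5E
import Pool.Agent.helper61.BM.C5L
import Pool.Agent.helper61.BM.TOP
import Pool.Agent.helper61.BM.LMX
import Pool.Agent.helper61.BM.LM1
import Pool.Agent.helper61.BM.LM2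
import Pool.Agent.helper61.BM.LM3
import Pool.Agent.helper61.BM.FIN
import Pool.Agent.helper61.BM.TWC
import Pool.Agent.helper61.BM.SAT
import Pool.Agent.helper61.BM.MXG
import Pool.Agent.helper61.BM.WLK
import Pool.Agent.helper61.BM.ASM

/-!
# MP_143341_co, the case `c = n - 1`: assembly
-/

set_option autoImplicit false

namespace Pool.Agent.helper61.BM

theorem pREV : REV_stmt := REV
theorem pSEG : SEG_stmt := SEG
theorem pORE : ORE_stmt := ORE SEG DEG
theorem pHAM : HAM_stmt := HAM SEG DEG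
theorem pSUM : SUM_stmt := SUM pORE pHAM
theorem pXCO : XCO_stmt := XCO pORE REV pSUM
theorem pZTW : ZTW_stmt := ZTW pHAM INS
theorem pXDG : XDG_stmt := XDG REV pORE
theorem pXZZ : XZZ_stmt := XZZ SEG
theorem pTBE : TBE_stmt := TBE SEG REV pORE pZTW pXZZ
theorem pTPR : TPR_stmt := TPR pORE pZTW pTBE
theorem pEAR : EAR_stmt := EAR SEG pORE pXZZ
theorem pLAT : LAT_stmt := LAT SEG pORE
theorem pLAU : LAU_stmt := LAU REV pORE pTBE pTPR
theorem pTWO : TWO_stmt := TWO SEG
theorem pLIA : LIA_stmt := LIA pTWO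
theorem pLSE : LSE_stmt := LSE pORE pZTW pTBE pLAT pLAU
theorem pLIB : LIB_stmt := LIB SWP pORE pZTW pTBE pTPR pLAU pLSE
theorem pLIM : LIM_stmt := LIM pORE pSUM pZTW pTBE pEAR pLIA pLIB
theorem pKND : KND_stmt := KND REV pORE
theorem pGLL : GLL_stmt := GLL REV pORE pXZZ pKND
theorem pC5E : C5E_stmt := C5E pKND
theorem pC5L : C5L_stmt := C5L REV pORE pTBE pTPR pEAR pLSE pKND pGLL
theorem pLMX : LMX_stmt := LMX pSUM pXCO TOP
theorem pLM1 : LM1_stmt := LM1 pORE pZTW pLIM TOP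
theorem pLM2 : LM2_stmt := LM2 pTPR pLIM TOP pLM1
theorem pLM3 : LM3_stmt := LM3 pORE pSUM pXCO pXDG pTBE pEAR pLIM pC5E pC5L TOP pLM2
theorem pFIN : FIN_stmt := FIN pLMX pLM3
theorem pMXG : MXG_stmt := MXG TWC SAT
theorem pASM : ASM_stmt := ASM pFIN pMXG WLK

end Pool.Agent.helper61.BM
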