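import Mathlib

/-!
# MP_143341_co (Bermond's degree pair condition), the case `c = n - 1`: definitions

`n = m + 2`. A FRAME is an enumeration `p 0, …, p m, p (m+1)` of the vertices such that `p 0, …, p m` is a path;
`p (m+1)` is the missing vertex. Standard names: `a = p 0`, `b = p m`, `z = p (m+1)`.
-/

set_option autoImplicit false

namespace Pool.Agent.helper61.BM

open Finset
open scoped Classical

variable {V : Type}

/-- closed path: a list of different vertices, consecutive ones (cyclically) adjacent -/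
def Clo (G : SimpleGraph V) (l : List V) : Prop :=
  l.Nodup ∧ l.IsChain G.Adj ∧ ∀ x ∈ l.head?, ∀ y ∈ l.getLast?, G.Adj y x

/-- `n = m + 2` and every closed path has at most `m = n - 2` vertices -/
structure Noc [Fintype V] (G : SimpleGraph V) (m : ℕ) : Prop where
  hm : 2 ≤ m
  card : Fintype.card V = m + 2
  noc : ∀ l : List V, Clo G l → l.length ≤ m

/-- frame -/
structure Fr (G : SimpleGraph V) (m : ℕ) (p : ℕ → V) : Prop where
  inj : ∀ i j, i ≤ m + 1 → j ≤ m + 1 → p i = p j → i = j
  sur : ∀ v, ∃ i, i ≤ m + 1 ∧ p i = v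
  adj : ∀ i, i < m → G.Adj (p i) (p (i + 1))

/-- edge maximal graph without long cycles -/
structure Ctx [Fintype V] (G : SimpleGraph V) (m : ℕ) : Prop extends Noc G m where
  sat : ∀ u v, u ≠ v → ¬ G.Adj u v → ∃ p, Fr G m p ∧ p 0 = u ∧
    (p m = v ∨ (G.Adj (p m) (p (m + 1)) ∧ p (m + 1) = v))
  two : ∀ (x : V) (A : Finset V), x ∉ A → A.Nonempty → (∃ y, y ∉ A ∧ y ≠ x) →
    ∃ u ∈ A, ∃ v, v ∉ A ∧ v ≠ x ∧ G.Adj u v

/-- degree -/
noncomputable def dg [Fintype V] (G : SimpleGraph V) (v : V) : ℕ :=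
  ((univ : Finset V).filter (fun w => G.Adj v w)).card

/-- frame whose ends are an X-pair -/
structure XP [Fintype V] (G : SimpleGraph V) (m : ℕ) (p : ℕ → V) : Prop extends Fr G m p where
  na : ¬ G.Adj (p 0) (p m)
  dd : dg G (p 0) + dg G (p m) = m + 1

/-- core frame: the missing vertex is adjacent to the first end -/
structure CP [Fintype V] (G : SimpleGraph V) (m : ℕ) (p : ℕ → V) : Prop extends XP G m p where
  za : G.Adj (p 0) (p (m + 1))

/-- closed twins -/
def Tw (G : SimpleGraph V) (a t : V) : Prop := ∀ v, (v = a ∨ G.Adj a v) ↔ (v = t ∨ G.Adj t v)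

/-- nonneighbours -/
noncomputable def NN [Fintype V] (G : SimpleGraph V) (v : V) : Finset V :=
  (univ : Finset V).filter (fun w => w ≠ v ∧ ¬ G.Adj v w)

/-- the class of twins -/
noncomputable def TT [Fintype V] (G : SimpleGraph V) (a : V) : Finset V :=
  (univ : Finset V).filter (fun t => Tw G a t)

/-- common neighbours -/
noncomputable def CC [Fintype V] (G : SimpleGraph V) (a b : V) : Finset V :=
  (univ : Finset V).filter (fun v => G.Adj a v ∧ G.Adj b v)

/-- neighbours of `a`, not of `b`, not twins of `a` -/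
noncomputable def WW [Fintype V] (G : SimpleGraph V) (a b : V) : Finset V :=
  (univ : Finset V).filter (fun v => G.Adj a v ∧ ¬ G.Adj b v ∧ ¬ Tw G a v)

/-- `p a, …, p b` (ascending or descending) -/
def sg (p : ℕ → V) (a b : ℕ) : List V :=
  if a ≤ b then (List.range' a (b + 1 - a)).map p else ((List.range' b (a + 1 - b)).map p).reverse

/-- concatenation of segments -/
def cat (p : ℕ → V) (S : List (ℕ × ℕ)) : List V := (S.map (fun s => sg p s.1 s.2)).flatten

/-- number of vertices of a list of segments -/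
def len (S : List (ℕ × ℕ)) : ℕ := (S.map (fun s => max s.1 s.2 - min s.1 s.2 + 1)).sum

/-- segments of the path `0, …, m` or the single point `m + 1`, pairwise disjoint -/
structure Seg (m : ℕ) (S : List (ℕ × ℕ)) : Prop where
  bd : ∀ s ∈ S, (s.1 ≤ m ∧ s.2 ≤ m) ∨ (s.1 = m + 1 ∧ s.2 = m + 1)
  dj : S.Pairwise (fun s t => max s.1 s.2 < min t.1 t.2 ∨ max t.1 t.2 < min s.1 s.2)

/-- reverse the part `s, …, e` -/
def rev (p : ℕ → V) (s e : ℕ) (k : ℕ) : V := if s ≤ k ∧ k ≤ e then p (s + e - k) else p k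

/-- exchange `p k` and the missing vertex -/
def swp (m : ℕ) (p : ℕ → V) (k : ℕ) (i : ℕ) : V :=
  if i = k then p (m + 1) else if i = m + 1 then p k else p i

/-- insert the missing vertex after `p k` -/
def ins (m : ℕ) (p : ℕ → V) (k : ℕ) (i : ℕ) : V :=
  if i ≤ k then p i else if i = k + 1 then p (m + 1) else p (i - 1)

/-- labels without an obstructing pair for `c = n - 1 = m + 1` -/
structure Lab [Fintype V] (G : SimpleGraph V) (m : ℕ) (f : V → ℕ) : Prop where
  inj : Function.Injective f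
  pos : ∀ v, 1 ≤ f v
  le : ∀ v, f v ≤ m + 2
  no : ∀ u v, ¬ G.Adj u v → f u < f v → m + 1 ≤ f u + f v → dg G u ≤ f u → dg G v + 1 ≤ f v →
    dg G u + dg G v ≤ m → False

/-- locally maximal core frame -/
structure LM [Fintype V] (G : SimpleGraph V) (m : ℕ) (f : V → ℕ) (p : ℕ → V) : Prop
    extends CP G m p where
  ta : ∀ u ∈ NN G (p 0), f u ≤ f (p m)
  tb : ∀ u ∈ NN G (p m), f u ≤ f (p 0)

end Pool.Agent.helper61.BM
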