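import Pool.Agent.helper61.BM.Use

set_option autoImplicit false

namespace Pool.Agent.helper61.BM

open Finset
open scoped Classical

theorem EAR (hSEG : SEG_stmt) (hORE : ORE_stmt) (hXZZ : XZZ_stmt) : EAR_stmt := by
  intro V _ G m p hC hp
  have hN := hC.toNoc
  have hF := hp.toFr
  refine ⟨?_, ?_⟩
  · intro x hx
    obtain ⟨j, hj, rfl, hj2⟩ := hp.nna hORE hN hx
    exact (hXZZ V G m p hC hp j hj hj2).1
  · intro i hi _ hbi hlt x hx
    obtain ⟨j, hj, rfl, hj2⟩ := hp.nna hORE hN hx
    have hij := hlt j (by omega) hj2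
    have ha := (hp.toXP.full hORE hN hi).2 hbi
    intro h
    exact seg3 hSEG hN hF i 0 (i + 1) j m (j + 1) (by omega) ha hj2.symm h.symm

end Pool.Agent.helper61.BM
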