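import Pool.Agent.helper61.BM.Use

set_option autoImplicit false

namespace Pool.Agent.helper61.BM

open Finset
open scoped Classical

theorem LM2 (hTPR : TPR_stmt) (hLIM : LIM_stmt) (hTOP : TOP_stmt) (hLM1 : LM1_stmt) : LM2_stmt := by
  intro V _ G m f p hC hL hp
  have hN := hC.toNoc
  have hF := hp.toFr
  have hcp : CP G m p := hp.toCP
  have hdd := hcp.dd
  have hWW := (hTPR V G m p hC hcp).2
  have hbne : p m ≠ p 0 := hF.ne (by omega) (by omega) (by have := hN.hm; omega)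
  have hpos : 0 < (TT G (p 0)).card := card_pos.2 ⟨p 0, mem_TT.2 (Tw.refl _)⟩
  have hTn : ∀ t, Tw G (p 0) t → t ∈ NN G (p m) := by
    intro t ht
    have := ht.nonadj hbne hcp.na
    exact mem_NN.2 ⟨fun h => this.1 h.symm, fun h => this.2 h.symm⟩
  obtain ⟨s1, s2⟩ := hTOP V f hL.inj hL.pos (NN G (p 0)) (f (p m)) hp.ta
  have hNa := hN.card_NN_eq (p 0)
  have hNb := hN.card_NN_eq (p m)
  have hWne : (WW G (p 0) (p m)).Nonempty := by
    rw [← card_pos]
    omega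
  have hWS : ∀ v ∈ WW G (p 0) (p m), v ∈ NN G (p m) ∧ ¬ Tw G (p 0) v := by
    intro v hv
    obtain ⟨h1, h2, h3⟩ := mem_WW.1 hv
    refine ⟨mem_NN.2 ⟨?_, h2⟩, h3⟩
    rintro rfl
    exact hcp.na h1
  -- bound for the label of b
  have hfb : f (p m) + 1 ≤ dg G (p m) + (TT G (p 0)).card := by
    obtain ⟨S, hS⟩ : ∃ S : Finset V, S = NN G (p m) \ TT G (p 0) := ⟨_, rfl⟩
    have mS : ∀ v, v ∈ S ↔ v ∈ NN G (p m) ∧ ¬ Tw G (p 0) v := by
      intro v
      rw [hS, mem_sdiff, mem_TT]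
    have hTsub : TT G (p 0) ⊆ NN G (p m) := fun t ht => hTn t (mem_TT.1 ht)
    have cS : S.card + (TT G (p 0)).card = dg G (p 0) := by
      have h1 := card_sdiff_add_card_eq_card hTsub
      rw [← hS] at h1
      omega
    have hne : S.Nonempty := by
      obtain ⟨v, hv⟩ := hWne
      exact ⟨v, (mS v).2 (hWS v hv)⟩
    obtain ⟨w0, hw0, hmax⟩ := exists_max_image S f hne
    obtain ⟨hw1, hw2⟩ := (mS w0).1 hw0
    have t1 := (hTOP V f hL.inj hL.pos S (f w0) hmax).1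
    have := hLM1 V G m f p hC hL hp w0 hw1 hw2
    omega
  obtain ⟨Ω, hΩ⟩ : ∃ S : Finset V, S = (univ : Finset V).filter
      (fun v => ¬ Tw G (p 0) v ∧ ¬ (G.Adj (p 0) v ∧ G.Adj (p m) v)) := ⟨_, rfl⟩
  have mΩ : ∀ v, v ∈ Ω ↔ ¬ Tw G (p 0) v ∧ ¬ (G.Adj (p 0) v ∧ G.Adj (p m) v) := by
    intro v
    rw [hΩ, mem_filter]
    simp
  have cΩ : Ω.card + (TT G (p 0)).card + (CC G (p 0) (p m)).card = m + 2 := by
    have h1 : Ω ∪ TT G (p 0) ∪ CC G (p 0) (p m) = univ := by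
      ext v
      simp only [mem_union, mΩ, mem_TT, mem_CC, mem_univ, iff_true]
      tauto
    have d1 : Disjoint Ω (TT G (p 0)) := by
      rw [disjoint_left]
      intro v hv hv'
      exact ((mΩ v).1 hv).1 (mem_TT.1 hv')
    have d2 : Disjoint (Ω ∪ TT G (p 0)) (CC G (p 0) (p m)) := by
      rw [disjoint_left]
      intro v hv hv'
      have hc := mem_CC.1 hv'
      rcases mem_union.1 hv with h | h
      · exact ((mΩ v).1 h).2 hc
      · exact (mem_NN.1 (hTn v (mem_TT.1 h))).2 hc.2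
    rw [← hN.card, ← card_univ, ← h1, card_union_of_disjoint d2, card_union_of_disjoint d1]
  have hΩne : Ω.Nonempty := by
    obtain ⟨v, hv⟩ := hWne
    obtain ⟨h1, h2, h3⟩ := mem_WW.1 hv
    exact ⟨v, (mΩ v).2 ⟨h3, fun h => h2 h.2⟩⟩
  obtain ⟨w, hw, hmax⟩ := exists_max_image Ω f hΩne
  have t1 := (hTOP V f hL.inj hL.pos Ω (f w) hmax).1
  obtain ⟨w1, w2⟩ := (mΩ w).1 hw
  have hΩbig : dg G (p m) + (TT G (p 0)).card ≤ Ω.card := by
    have hsub : NN G (p 0) ∪ WW G (p 0) (p m) ⊆ Ω := by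
      intro v hv
      rw [mΩ]
      rcases mem_union.1 hv with h | h
      · have h' := mem_NN.1 h
        refine ⟨?_, fun hh => h'.2 hh.1⟩
        intro ht
        exact h'.2 (ht.adj h'.1)
      · obtain ⟨h1, h2, h3⟩ := mem_WW.1 h
        exact ⟨h3, fun hh => h2 hh.2⟩
    have hdis : Disjoint (NN G (p 0)) (WW G (p 0) (p m)) := by
      rw [disjoint_left]
      intro v hv hv'
      exact (mem_NN.1 hv).2 (mem_WW.1 hv').1
    have := card_le_card hsub
    rw [card_union_of_disjoint hdis] at this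
    omega
  have hwNa : w ∉ NN G (p 0) := by
    intro h
    have := hp.ta w h
    omega
  have hwa : w ≠ p 0 := by
    rintro rfl
    exact w1 (Tw.refl _)
  have haw : G.Adj (p 0) w := by
    by_contra h
    exact hwNa (mem_NN.2 ⟨hwa, h⟩)
  have hbw : ¬ G.Adj (p m) w := fun h => w2 ⟨haw, h⟩
  have hwb : w ≠ p m := by
    rintro rfl
    exact hcp.na haw
  have hwN : w ∈ NN G (p m) := mem_NN.2 ⟨hwb, hbw⟩
  have h1 := hLM1 V G m f p hC hL hp w hwN w1
  have h2 := hLIM V G m p hC hcp w hwN w1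
  have hν : (CC G (p 0) (p m)).card ≤ dg G (p m) := by
    refine card_le_card ?_
    intro v hv
    rw [mem_filter]
    exact ⟨mem_univ _, (mem_CC.1 hv).2⟩
  refine ⟨by omega, w, haw, hbw, w1, ?_, by omega, by omega⟩
  intro v hv1 hv2
  exact hmax v ((mΩ v).2 ⟨hv1, hv2⟩)

end Pool.Agent.helper61.BM
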