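import Pool.Agent.helper61.BM.Spec

/-!
# Project bm2: closed paths as cyclic functions
-/

set_option autoImplicit false

namespace Pool.Agent.helper61.BM

open Finset
open scoped Classical

section

variable {V : Type}

/-- the cyclic function of a list -/
def cyc (l : List V) (hl : 0 < l.length) (j : ℕ) : V := l[j % l.length]'(Nat.mod_lt _ hl)

theorem cyc_add (l : List V) (hl : 0 < l.length) (j : ℕ) : cyc l hl (j + l.length) = cyc l hl j := by
  simp only [cyc, Nat.add_mod_right]

theorem cyc_lt (l : List V) (hl : 0 < l.length) {j : ℕ} (hj : j < l.length) : cyc l hl j = l[j] := by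
  simp only [cyc, Nat.mod_eq_of_lt hj]

theorem cyc_inj {l : List V} (hl : 0 < l.length) (hnd : l.Nodup) {i j : ℕ} (h : cyc l hl i = cyc l hl j) :
    i % l.length = j % l.length := by
  simp only [cyc] at h
  exact (List.Nodup.getElem_inj_iff hnd).1 h

theorem clo_iff (H : SimpleGraph V) (l : List V) (hl : 0 < l.length) :
    Clo H l ↔ l.Nodup ∧ ∀ j, H.Adj (cyc l hl j) (cyc l hl (j + 1)) := by
  constructor
  · rintro ⟨h1, h2, h3⟩
    refine ⟨h1, ?_⟩
    intro j
    have hr : j % l.length < l.length := Nat.mod_lt _ hl
    by_cases h : j % l.length + 1 < l.length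
    · have e : (j + 1) % l.length = j % l.length + 1 := by
        rw [Nat.add_mod, Nat.mod_eq_of_lt (show 1 < l.length by omega), Nat.mod_eq_of_lt h]
      have := h2.getElem _ h
      simp only [cyc, e]
      exact this
    · have e0 : j % l.length = l.length - 1 := by omega
      have e : (j + 1) % l.length = 0 := by
        rcases Nat.eq_or_lt_of_le (show 1 ≤ l.length by omega) with h1 | h1
        · rw [← h1, Nat.mod_one]
        · rw [Nat.add_mod, Nat.mod_eq_of_lt h1, e0, show l.length - 1 + 1 = l.length by omega, Nat.mod_self]
      have := h3 (l[0]) (by rw [List.head?_eq_getElem?]; simp) (l[l.length - 1]) (by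
        rw [List.getLast?_eq_getElem?]; simp)
      simp only [cyc, e, e0]
      exact this
  · rintro ⟨h1, h2⟩
    refine ⟨h1, ?_, ?_⟩
    · rw [List.isChain_iff_getElem]
      intro i hi
      have := h2 i
      rw [cyc_lt l hl (by omega), cyc_lt l hl hi] at this
      exact this
    · intro x hx y hy
      rw [List.head?_eq_getElem?] at hx
      rw [List.getLast?_eq_getElem?] at hy
      have h3 := h2 (l.length - 1)
      have e : cyc l hl (l.length - 1 + 1) = l[0] := by
        rw [show l.length - 1 + 1 = 0 + l.length by omega, cyc_add, cyc_lt l hl hl]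
      rw [e, cyc_lt l hl (by omega)] at h3
      rw [List.getElem?_eq_getElem hl, Option.mem_some_iff] at hx
      rw [List.getElem?_eq_getElem (show l.length - 1 < l.length by omega), Option.mem_some_iff] at hy
      rw [← hx, ← hy]
      exact h3

end

end Pool.Agent.helper61.BM
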