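import Pool.Agent.helper61.BM.Spec

set_option autoImplicit false

namespace Pool.Agent.helper61.BM

open Finset
open scoped Classical

section

variable {V : Type} {G : SimpleGraph V} {m : ℕ} {p : ℕ → V}

theorem SEG_up (a b : ℕ) (h : a ≤ b) : sg p a b = (List.range' a (b + 1 - a)).map p := by
  simp [sg, h]

theorem SEG_dn (a b : ℕ) (h : b < a) : sg p a b = ((List.range' b (a + 1 - b)).map p).reverse := by
  simp [sg, Nat.not_le.2 h]

theorem SEG_mem {a b : ℕ} {x : V} :
    x ∈ sg p a b ↔ ∃ i, min a b ≤ i ∧ i ≤ max a b ∧ p i = x := by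
  rcases le_or_gt a b with h | h
  · rw [SEG_up a b h]
    simp only [List.mem_map, List.mem_range'_1]
    constructor
    · rintro ⟨i, ⟨h1, h2⟩, rfl⟩
      exact ⟨i, by omega, by omega, rfl⟩
    · rintro ⟨i, h1, h2, rfl⟩
      exact ⟨i, ⟨by omega, by omega⟩, rfl⟩
  · rw [SEG_dn a b h]
    simp only [List.mem_reverse, List.mem_map, List.mem_range'_1]
    constructor
    · rintro ⟨i, ⟨h1, h2⟩, rfl⟩
      exact ⟨i, by omega, by omega, rfl⟩
    · rintro ⟨i, h1, h2, rfl⟩
      exact ⟨i, ⟨by omega, by omega⟩, rfl⟩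

theorem SEG_length (a b : ℕ) : (sg p a b).length = max a b - min a b + 1 := by
  rcases le_or_gt a b with h | h
  · rw [SEG_up a b h]
    simp
    omega
  · rw [SEG_dn a b h]
    simp
    omega

theorem SEG_chain_up (hadj : ∀ i, i < m → G.Adj (p i) (p (i + 1))) :
    ∀ (k a : ℕ), a + k ≤ m + 1 → ((List.range' a k).map p).IsChain G.Adj := by
  intro k
  induction k with
  | zero => intro a _; simp
  | succ k ih =>
    intro a h
    rcases k with _ | k
    · simp
    · have h2 := ih (a + 1) (by omega)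
      rw [List.range'_succ, List.map_cons]
      rw [List.range'_succ, List.map_cons] at h2 ⊢
      rw [List.isChain_cons_cons]
      exact ⟨hadj a (by omega), h2⟩

theorem SEG_nodup_up (hinj : ∀ i j, i ≤ m + 1 → j ≤ m + 1 → p i = p j → i = j) (a k : ℕ)
    (h : a + k ≤ m + 2) : ((List.range' a k).map p).Nodup := by
  refine List.Nodup.map_on ?_ (List.nodup_range')
  intro x hx y hy hxy
  rw [List.mem_range'_1] at hx hy
  exact hinj x y (by omega) (by omega) hxy

theorem SEG_bd {s : ℕ × ℕ} (h : (s.1 ≤ m ∧ s.2 ≤ m) ∨ (s.1 = m + 1 ∧ s.2 = m + 1)) :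
    max s.1 s.2 ≤ m + 1 := by omega

theorem SEG_ends (a b : ℕ) : (sg p a b).head? = some (p a) ∧ (sg p a b).getLast? = some (p b) := by
  rcases le_or_gt a b with h | h
  · rw [SEG_up a b h]
    have e : b + 1 - a = (b - a) + 1 := by omega
    constructor
    · rw [e, List.range'_succ]
      simp
    · rw [e, List.range'_concat]
      simp
      congr 1
      omega
  · rw [SEG_dn a b h]
    have e : a + 1 - b = (a - b) + 1 := by omega
    constructor
    · rw [e, List.range'_concat]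
      simp
      congr 1
      omega
    · rw [e, List.range'_succ]
      simp

theorem SEG_chain (hp : Fr G m p) {s : ℕ × ℕ} (h : (s.1 ≤ m ∧ s.2 ≤ m) ∨ (s.1 = m + 1 ∧ s.2 = m + 1)) :
    (sg p s.1 s.2).IsChain G.Adj := by
  rcases h with ⟨h1, h2⟩ | ⟨h1, h2⟩
  · rcases le_or_gt s.1 s.2 with h | h
    · rw [SEG_up _ _ h]
      exact SEG_chain_up hp.adj _ _ (by omega)
    · rw [SEG_dn _ _ h]
      rw [List.isChain_reverse]
      refine (SEG_chain_up (G := G) (m := m) (p := p) hp.adj (s.1 + 1 - s.2) s.2 (by omega)).imp ?_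
      intro x y hxy
      exact hxy.symm
  · rw [h1, h2, SEG_up _ _ le_rfl]
    simp

theorem SEG_nodup (hp : Fr G m p) {s : ℕ × ℕ} (h : (s.1 ≤ m ∧ s.2 ≤ m) ∨ (s.1 = m + 1 ∧ s.2 = m + 1)) :
    (sg p s.1 s.2).Nodup := by
  have hb := SEG_bd h
  rcases le_or_gt s.1 s.2 with h | h
  · rw [SEG_up _ _ h]
    exact SEG_nodup_up hp.inj _ _ (by omega)
  · rw [SEG_dn _ _ h, List.nodup_reverse]
    exact SEG_nodup_up hp.inj _ _ (by omega)

theorem SEG_cat_length (S : List (ℕ × ℕ)) : (cat p S).length = len S := by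
  induction S with
  | nil => simp [cat, len]
  | cons s S ih =>
    have h1 : cat p (s :: S) = sg p s.1 s.2 ++ cat p S := by simp [cat]
    have h2 : len (s :: S) = (max s.1 s.2 - min s.1 s.2 + 1) + len S := by simp [len]
    rw [h1, h2, List.length_append, ih, SEG_length]

theorem SEG_cat_mem {S : List (ℕ × ℕ)} {x : V} :
    x ∈ cat p S ↔ ∃ s ∈ S, x ∈ sg p s.1 s.2 := by
  simp only [cat, List.mem_flatten, List.mem_map]
  constructor
  · rintro ⟨l, ⟨s, hs, rfl⟩, hx⟩
    exact ⟨s, hs, hx⟩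
  · rintro ⟨s, hs, hx⟩
    exact ⟨_, ⟨s, hs, rfl⟩, hx⟩

theorem SEG_cat_nodup (hp : Fr G m p) (S : List (ℕ × ℕ)) (hS : Seg m S) : (cat p S).Nodup := by
  induction S with
  | nil => simp [cat]
  | cons s S ih =>
    have h1 : cat p (s :: S) = sg p s.1 s.2 ++ cat p S := by simp [cat]
    have hdj := List.pairwise_cons.1 hS.dj
    have hb := hS.bd s (by simp)
    rw [h1, List.nodup_append']
    refine ⟨SEG_nodup hp hb, ih ⟨fun t ht => hS.bd t (by simp [ht]), hdj.2⟩, ?_⟩
    intro x hx hx'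
    obtain ⟨t, ht, hxt⟩ := SEG_cat_mem.1 hx'
    obtain ⟨i, hi1, hi2, hi3⟩ := SEG_mem.1 hx
    obtain ⟨j, hj1, hj2, hj3⟩ := SEG_mem.1 hxt
    have hbt := SEG_bd (hS.bd t (by simp [ht]))
    have hbs := SEG_bd hb
    have := hp.inj i j (by omega) (by omega) (hi3.trans hj3.symm)
    have h3 := hdj.1 t ht
    omega

theorem SEG_cat_head (s : ℕ × ℕ) (S : List (ℕ × ℕ)) : (cat p (s :: S)).head? = some (p s.1) := by
  have h1 : cat p (s :: S) = sg p s.1 s.2 ++ cat p S := by simp [cat]
  rw [h1, List.head?_append, (SEG_ends s.1 s.2).1]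
  simp

theorem SEG_cat_last (S : List (ℕ × ℕ)) : ∀ t ∈ S.getLast?, (cat p S).getLast? = some (p t.2) := by
  induction S with
  | nil => intro t ht; simp at ht
  | cons s S ih =>
    intro t ht
    have h1 : cat p (s :: S) = sg p s.1 s.2 ++ cat p S := by simp [cat]
    rcases S with _ | ⟨u, S⟩
    · simp at ht
      subst ht
      rw [h1]
      simp [cat, (SEG_ends s.1 s.2).2]
    · rw [List.getLast?_cons_cons] at ht
      rw [h1, List.getLast?_append, ih t ht]
      simp

theorem SEG_cat_chain (hp : Fr G m p) (S : List (ℕ × ℕ)) (hS : ∀ s ∈ S, (s.1 ≤ m ∧ s.2 ≤ m) ∨ (s.1 = m + 1 ∧ s.2 = m + 1))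
    (hc : S.IsChain (fun s t => G.Adj (p s.2) (p t.1))) : (cat p S).IsChain G.Adj := by
  induction S with
  | nil => simp [cat]
  | cons s S ih =>
    have h1 : cat p (s :: S) = sg p s.1 s.2 ++ cat p S := by simp [cat]
    rcases S with _ | ⟨u, S⟩
    · rw [h1]
      simpa [cat] using SEG_chain hp (hS s (by simp))
    · rw [List.isChain_cons_cons] at hc
      rw [h1, List.isChain_append]
      refine ⟨SEG_chain hp (hS s (by simp)), ih (fun t ht => hS t (by simp [ht])) hc.2, ?_⟩
      intro x hx y hy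
      rw [(SEG_ends s.1 s.2).2] at hx
      rw [SEG_cat_head] at hy
      simp at hx hy
      subst hx hy
      exact hc.1

end

theorem SEG : SEG_stmt := by
  intro V _ G m p hN hp S hne hS hc hl
  rw [← SEG_cat_length (p := p) S]
  refine hN.noc _ ⟨SEG_cat_nodup hp S hS, SEG_cat_chain hp S hS.bd hc, ?_⟩
  intro x hx y hy
  rcases S with _ | ⟨s, S⟩
  · exact absurd rfl hne
  · rw [SEG_cat_head] at hx
    have hg : (s :: S).getLast? = some ((s :: S).getLast hne) := List.getLast?_eq_getLast_of_ne_nil hne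
    have h2 := SEG_cat_last (p := p) (s :: S) _ hg
    rw [h2] at hy
    simp at hx hy
    subst hx hy
    exact hl s (by simp) _ hg

end Pool.Agent.helper61.BM
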