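import Pool.Agent.helper61.BM.Defs

/-!
# Project bm2 (MP_143341_co): Bermond's degree pair condition for `c = n - 1`, rows

THEOREM. Let `G` be 2-connected on `n ≥ 4` vertices with any enumeration, `c = n - 1`, without obstructing pair. Then `G` has a cycle
of length at least `n - 1`.

`n = m + 2`, so closed paths of `≥ m + 1` vertices are forbidden (`Noc`). `a = p 0`, `b = p m`, `z = p (m+1)` for a frame `p`;
`τ = #(TT a)`, `ν = #(CC a b)`, `β = dg b`. `#(NN v) = m + 1 - dg v` (see `card_NN` below). For an X-pair frame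
(`XP`) ORE gives FULLNESS: for `i < m` exactly one of `a ~ p_(i+1)`, `b ~ p_i`; and exactly one of `a ~ z`, `b ~ z`. If `Tw a t`
and `v ≠ a, t` then `v ~ a` iff `v ~ t` (`Tw.adj_iff`).

CYCLES AND PATHS. A cycle is given to row SEG as a list of segments of indices, for instance `[(i, j), (m, i+1), (0, j-1)]`, for
the closed path `p_i .. p_j, p_m .. p_(i+1), p_0 .. p_(j-1)`; the links are the adjacencies between consecutive segments and
from the last to the first. New frames are made by REV (reverse a part; a rotation is `rev p 0 i`), SWP, INS.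
WORDS: `[(i,j), ..]: len` in the proofs below means: apply SEG to this list; it has `len` vertices, contradiction if `len ≥ m + 1`.

RULES. Row `bm2:XX`: file `Pool/Agent/<seat>/BM/XX.lean`, `import Pool.Agent.helper61.BM.Spec`, `namespace Pool.Agent.helper61.BM`,
`open Finset`, `open scoped Classical` (as here), theorem `XX (hYY : YY_stmt) ... : XX_stmt` with the hypotheses named after `From`
in this order (leave out those which you do not need ONLY if you tell helper61; unused ones may stay with an underscore); auxiliary lemmas with prefix `XX_`. No `convert`, no `congr!`, no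
`native_decide`, no double quotes.
-/

set_option autoImplicit false

namespace Pool.Agent.helper61.BM

open Finset
open scoped Classical

/-! ### Basic facts (proved here) -/

section basic

variable {V : Type} {G : SimpleGraph V}

theorem Tw.refl (a : V) : Tw G a a := fun _ => Iff.rfl

theorem Tw.symm {a t : V} (h : Tw G a t) : Tw G t a := fun v => (h v).symm

theorem Tw.trans {a t s : V} (h : Tw G a t) (h' : Tw G t s) : Tw G a s := fun v => (h v).trans (h' v)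

theorem Tw.adj {a t : V} (h : Tw G a t) (hne : t ≠ a) : G.Adj a t := by
  rcases (h t).2 (Or.inl rfl) with h1 | h1
  · exact absurd h1 hne
  · exact h1

theorem Tw.adj_iff {a t v : V} (h : Tw G a t) (h1 : v ≠ a) (h2 : v ≠ t) :
    G.Adj a v ↔ G.Adj t v := by
  have := h v
  simp only [h1, h2, false_or] at this
  exact this

theorem Tw.adj_of {a t v : V} (h : Tw G a t) (h1 : G.Adj a v) (h2 : v ≠ t) : G.Adj t v :=
  (h.adj_iff h1.ne' h2).1 h1

variable [Fintype V]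

theorem mem_NN {u v : V} : u ∈ NN G v ↔ u ≠ v ∧ ¬ G.Adj v u := by simp [NN]

theorem mem_TT {a t : V} : t ∈ TT G a ↔ Tw G a t := by simp [TT]

theorem mem_CC {a b v : V} : v ∈ CC G a b ↔ G.Adj a v ∧ G.Adj b v := by simp [CC]

theorem mem_WW {a b v : V} : v ∈ WW G a b ↔ G.Adj a v ∧ ¬ G.Adj b v ∧ ¬ Tw G a v := by simp [WW]

theorem card_NN (v : V) : (NN G v).card + dg G v + 1 = Fintype.card V := by
  have h1 : (NN G v) ∪ ((univ : Finset V).filter (fun w => G.Adj v w)) ∪ {v} = univ := by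
    ext w
    simp only [NN, mem_union, mem_filter, mem_univ, true_and, mem_singleton, iff_true]
    tauto
  have h2 : Disjoint (NN G v) ((univ : Finset V).filter (fun w => G.Adj v w)) := by
    rw [disjoint_left]
    intro w hw
    simp only [NN, mem_filter, mem_univ, true_and] at hw ⊢
    exact hw.2
  have h3 : Disjoint ((NN G v) ∪ ((univ : Finset V).filter (fun w => G.Adj v w))) {v} := by
    rw [disjoint_left]
    intro w hw
    simp only [NN, mem_union, mem_filter, mem_univ, true_and, mem_singleton] at hw ⊢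
    rintro rfl
    simp at hw
  rw [← card_univ, ← h1, card_union_of_disjoint h3, card_union_of_disjoint h2, card_singleton]
  rfl

theorem Tw.dg_eq {a t : V} (h : Tw G a t) : dg G a = dg G t := by
  have h1 : ∀ v : V, dg G v + 1 = ((univ : Finset V).filter (fun w => w = v ∨ G.Adj v w)).card := by
    intro v
    have e : (univ : Finset V).filter (fun w => w = v ∨ G.Adj v w) =
        insert v ((univ : Finset V).filter (fun w => G.Adj v w)) := by
      ext w; simp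
    rw [e, card_insert_of_notMem (by simp)]
    rfl
  have h2 : (univ : Finset V).filter (fun w => w = a ∨ G.Adj a w) =
      (univ : Finset V).filter (fun w => w = t ∨ G.Adj t w) := by
    ext w
    simp only [mem_filter, mem_univ, true_and]
    exact h w
  have h3 := h1 a
  have h4 := h1 t
  rw [h2] at h3
  omega

end basic

/-! ### Segments and frames -/

/-- **SEG** (short-medium). `cat p S` is a closed path: `sg p a b` is a chain from `p a` to `p b` with `max - min + 1` different vertices (consecutive indices in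
`0 .. m` are adjacent, a single point otherwise), different segments have no common vertex (`Fr.inj`). Induction on `S`. -/
def SEG_stmt : Prop := ∀ (V : Type) [Fintype V] (G : SimpleGraph V) (m : ℕ) (p : ℕ → V), Noc G m → Fr G m p →
  ∀ S : List (ℕ × ℕ), S ≠ [] → Seg m S → S.IsChain (fun s t => G.Adj (p s.2) (p t.1)) →
  (∀ s ∈ S.head?, ∀ t ∈ S.getLast?, G.Adj (p t.2) (p s.1)) → len S ≤ m

/-- **REV** (short). -/
def REV_stmt : Prop := ∀ (V : Type) (G : SimpleGraph V) (m : ℕ) (p : ℕ → V) (s e : ℕ), Fr G m p → s ≤ e → e ≤ m →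
  (0 < s → G.Adj (p (s - 1)) (p e)) → (e < m → G.Adj (p s) (p (e + 1))) → Fr G m (rev p s e)

/-- **SWP** (short). -/
def SWP_stmt : Prop := ∀ (V : Type) (G : SimpleGraph V) (m : ℕ) (p : ℕ → V) (k : ℕ), Fr G m p → 0 < k → k < m →
  G.Adj (p (k - 1)) (p (m + 1)) → G.Adj (p (m + 1)) (p (k + 1)) → Fr G m (swp m p k)

/-- **INS** (short). A Hamiltonian path. -/
def INS_stmt : Prop := ∀ (V : Type) (G : SimpleGraph V) (m : ℕ) (p : ℕ → V) (k : ℕ), Fr G m p → k < m →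
  G.Adj (p k) (p (m + 1)) → G.Adj (p (m + 1)) (p (k + 1)) → Fr G m (ins m p k) ∧ G.Adj (ins m p k m) (ins m p k (m + 1))

/-- **DEG** (short). `i ↦ p i` is a bijection from `range (m+2)` to `V`. -/
def DEG_stmt : Prop := ∀ (V : Type) [Fintype V] (G : SimpleGraph V) (m : ℕ) (p : ℕ → V), Fr G m p → ∀ v : V,
  dg G v = ((range (m + 2)).filter (fun i => G.Adj v (p i))).card

/-- **ORE** (short-medium, from SEG, DEG). For `i < m` not both `a ~ p_(i+1)` and `b ~ p_i`: `[(0,i),(m,i+1)]: m+1`. Not both `a ~ z`, `b ~ z`: `[(0,m),(m+1,m+1)]: m+2`. `N(a) ⊆ {p_(i+1) : i < m} ∪ {z}`,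
`N(b) ⊆ {p_i : i < m} ∪ {z}`; so `dg a + dg b ≤ m + 1`, and in the case of equality exactly one holds every time. -/
def ORE_stmt : Prop := ∀ (V : Type) [Fintype V] (G : SimpleGraph V) (m : ℕ) (p : ℕ → V), Noc G m → Fr G m p →
  ¬ G.Adj (p 0) (p m) → dg G (p 0) + dg G (p m) ≤ m + 1 ∧ (dg G (p 0) + dg G (p m) = m + 1 →
    (∀ i, i < m → (G.Adj (p 0) (p (i + 1)) ↔ ¬ G.Adj (p m) (p i))) ∧
    (G.Adj (p 0) (p (m + 1)) ↔ ¬ G.Adj (p m) (p (m + 1))))

/-- **HAM** (medium, from SEG, DEG). Here `b = p (m+1)` and `p_0 .. p_(m+1)` is a Hamiltonian path (in SEG write a segment `i .. m+1` as `(i,m),(m+1,m+1)`). Suppose `dg a + dg b ≥ m + 1`. For `i ≤ m` not both `a ~ p_(i+1)`, `b ~ p_i`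
(`[(0,i),(m+1,m+1),(m,i+1)]: m+2`, for `i = m` it is nonadjacency of `a`, `b`), so exactly one of them for every `i ≤ m`. For `i + 2 ≤ m + 1` not both `a ~ p_(i+2)`, `b ~ p_i` (`[(0,i),(m+1,m+1),(m,i+2)]: m+1`, for `i + 2 = m + 1` again
nonadjacency). So `b ~ p_i`, `i < m` gives `a ≁ p_(i+2)`, so `b ~ p_(i+1)`. Let `i₀` be the least index with `b ~ p_(i₀)` (`b ~ p_m`): `b ~ p_i` iff `i₀ ≤ i ≤ m`, `a ~ p_i` iff `1 ≤ i ≤ i₀`, `i₀ ≥ 1`. `two` for `x = p_(i₀)`,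
`A = {p_0 .. p_(i₀-1)}`: an edge `p_k ~ p_l`, `k < i₀ < l ≤ m + 1`, and `l ≤ m` as `b ≁ p_k`. `[(k,0),(k+1,l-1),(m+1,m+1),(m,l)]: m+2`. -/
def HAM_stmt : Prop := ∀ (V : Type) [Fintype V] (G : SimpleGraph V) (m : ℕ) (p : ℕ → V), Ctx G m → Fr G m p →
  G.Adj (p m) (p (m + 1)) → ¬ G.Adj (p 0) (p (m + 1)) → dg G (p 0) + dg G (p (m + 1)) ≤ m

/-- **SUM** (short, from ORE, HAM). `Ctx.sat`. -/
def SUM_stmt : Prop := ∀ (V : Type) [Fintype V] (G : SimpleGraph V) (m : ℕ), Ctx G m → ∀ u v : V, u ≠ v → ¬ G.Adj u v →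
  dg G u + dg G v ≤ m + 1 ∧ (dg G u + dg G v = m + 1 → ∃ p, XP G m p ∧ p 0 = u ∧ p m = v)

/-- **XCO** (short, from ORE, REV, SUM). If `z ~ u` take `p`, otherwise `z ~ v` and take `rev p 0 m`. -/
def XCO_stmt : Prop := ∀ (V : Type) [Fintype V] (G : SimpleGraph V) (m : ℕ), Ctx G m → ∀ u v : V, u ≠ v → ¬ G.Adj u v →
  dg G u + dg G v = m + 1 → (∃ p, CP G m p ∧ p 0 = u ∧ p m = v) ∨ (∃ p, CP G m p ∧ p 0 = v ∧ p m = u)

/-! ### Structure of a core frame -/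

/-- **ZTW** (short, from HAM, INS). `p_i`, `p_(i+1)` twins of `a` (or `i = 0` and `z` a twin: `z ~ a`, `z ~ p_1`): `z ~ p_i`, `z ~ p_(i+1)` (if `z` is not one of them), `ins m p i` is a Hamiltonian path from `a` to `b`, HAM contradicts `dd`. For the first claim: `Tw a z` gives `z ~ p_1` as
`a ~ p_1` (`m ≥ 2`). -/
def ZTW_stmt : Prop := ∀ (V : Type) [Fintype V] (G : SimpleGraph V) (m : ℕ) (p : ℕ → V), Ctx G m → CP G m p →
  ¬ Tw G (p 0) (p (m + 1)) ∧ ∀ i, i < m → Tw G (p 0) (p i) → ¬ Tw G (p 0) (p (i + 1))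

/-- **XDG** (short, from REV, ORE). `x = p_k`, `1 ≤ k ≤ m` (`z ~ a`), `b ~ p_(k-1)` by fullness (or `k = m`: `x = b`); frame `rev p k m` from `a` to `x`, ORE. -/
def XDG_stmt : Prop := ∀ (V : Type) [Fintype V] (G : SimpleGraph V) (m : ℕ) (p : ℕ → V), Ctx G m → CP G m p →
  ∀ x ∈ NN G (p 0), dg G x ≤ dg G (p m)

/-- **XZZ** (short, from SEG). `[(m+1,m+1),(0,i),(m,i+1)]: m+2` and `[(m+1,m+1),(0,i),(m,i+2)]: m+1`. -/
def XZZ_stmt : Prop := ∀ (V : Type) [Fintype V] (G : SimpleGraph V) (m : ℕ) (p : ℕ → V), Ctx G m → CP G m p →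
  ∀ i, i < m → G.Adj (p m) (p i) → ¬ G.Adj (p (m + 1)) (p (i + 1)) ∧ (i + 2 ≤ m → ¬ G.Adj (p (m + 1)) (p (i + 2)))

/-- **TBE** (medium, from SEG, REV, ORE, ZTW, XZZ). Let `x ∈ NN b`, `dg x = dg a`. `x = z`: by fullness and XZZ `z ≁ NN a`, so `N(z) ⊆ V \ NN a \ {z}`, which has `dg a` elements, equality, `Tw a z`, against ZTW. `x = a` clear. `x = p_k`, `1 ≤ k < m`: `a ~ p_(k+1)`. `q = rev p 0 k` is an X-pair
frame (`q_i = p_(k-i)` for `i ≤ k`): `z ~ x`; for `j < k`: `x ~ p_j` iff `b ≁ p_(j+1)`; `x ~ p_(k+1)`; for `i > k`, `i < m`: `x ~ p_(i+1)` iff `b ≁ p_i` iff `a ~ p_(i+1)`. CLAIM: `k < j` for all `j ≤ m` with `b ~ p_j`. Otherwise let `j` be the least index with `b ~ p_j`, `1 ≤ j < k`.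
`j ≤ 2`: `[(m+1,m+1),(k,j),(m,k+1),(0,0)]: m+3-j`. `j ≥ 3`: `a ~ p_(j-1)` (`b ≁ p_(j-2)`), `x ~ p_1` (`b ≁ p_2`): `[(k,j),(m,k+1),(0,0),(j-1,1)]: m+1`. By the claim `x` and `a` have the same closed neighbourhood (indices `< k`, `k`, `> k`, `z`). The second part of the statement
is the claim for twins `p_i` (`i = 0`: `b ≁ a`; `i ≥ 1`: a twin is in `NN b` and has the same degree). -/
def TBE_stmt : Prop := ∀ (V : Type) [Fintype V] (G : SimpleGraph V) (m : ℕ) (p : ℕ → V), Ctx G m → CP G m p →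
  (∀ x ∈ NN G (p m), dg G x = dg G (p 0) → Tw G (p 0) x) ∧
  (∀ i j, i ≤ m → j ≤ m → Tw G (p 0) (p i) → G.Adj (p m) (p j) → i < j)

/-- **TPR** (short, from ORE, ZTW, TBE). `t ≠ 1` by ZTW (`p_0` is a twin); `b ≁ p_(t-1)`, `p_(t-2)` by TBE, so `a ~ p_(t-1)` (fullness); ZTW. `z ∈ WW` (ZTW; `z ~ a`, `z ≁ b`) and `t ↦ p_(t-1)` is an injection of the twins `≠ a` (they are on the path: ZTW) to `WW \ {z}`. -/
def TPR_stmt : Prop := ∀ (V : Type) [Fintype V] (G : SimpleGraph V) (m : ℕ) (p : ℕ → V), Ctx G m → CP G m p →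
  (∀ t, 1 ≤ t → t ≤ m → Tw G (p 0) (p t) → 2 ≤ t ∧ G.Adj (p 0) (p (t - 1)) ∧ ¬ G.Adj (p m) (p (t - 1)) ∧
    ¬ Tw G (p 0) (p (t - 1))) ∧ (TT G (p 0)).card ≤ (WW G (p 0) (p m)).card

/-- **EAR** (short, from SEG, ORE, XZZ). `x ∈ NN a`: `x = p_(j+1)`, `b ~ p_j` (fullness; `x = b`: nonadjacency), `j < m`. First part: XZZ. Second: `i < j`, `a ~ p_(i+1)` (fullness), `[(i,0),(i+1,j),(m,j+1)]: m+1`. -/
def EAR_stmt : Prop := ∀ (V : Type) [Fintype V] (G : SimpleGraph V) (m : ℕ) (p : ℕ → V), Ctx G m → CP G m p →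
  (∀ x ∈ NN G (p 0), ¬ G.Adj (p (m + 1)) x) ∧
  (∀ i, i < m → G.Adj (p 0) (p i) → ¬ G.Adj (p m) (p i) → (∀ j, j ≤ m → G.Adj (p m) (p j) → i < j) →
    ∀ x ∈ NN G (p 0), ¬ G.Adj (p i) x)

/-- **LAT** (short, from SEG, ORE). `a ~ p_(i+1)` (fullness). `[(i,j),(m,i+1),(0,j-1)]: m+1` and `[(i,0),(i+1,j),(m,j+1)]: m+1`. -/
def LAT_stmt : Prop := ∀ (V : Type) [Fintype V] (G : SimpleGraph V) (m : ℕ) (p : ℕ → V), Ctx G m → CP G m p →
  ∀ i, i < m → ¬ G.Adj (p m) (p i) →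
    (∀ j, j < i → G.Adj (p m) (p j) → 1 ≤ j ∧ ¬ G.Adj (p i) (p (j - 1))) ∧
    (∀ j, i < j → j < m → G.Adj (p m) (p j) → ¬ G.Adj (p i) (p (j + 1)))

/-- **LAU** (medium, from REV, ORE, TBE, TPR). (1) Suppose `p_i ~ p_(t-1)`. `t < q < i` (TBE). `q₁ = rev p 0 i` (`a ~ p_(i+1)`), `q₁ = p_i .. p_t, p_(t-1) .. p_0, p_(i+1) ..`; `q₂ = rev q₁ 0 (i-t)` (link `q₁ 0 = p_i ~ p_(t-1) = q₁ (i-t+1)`) is `p_t .. p_i, p_(t-1) .. p_0, p_(i+1) .. p_m`.
It is a core frame of the twin `p_t` (same degree, `≁ b`, `~ z`) with `p_q` before the twin `p_0`: TBE for `q₂` (twins of `p_t` are the twins of `a`). (2) `p_i ~ p_1`: let `t₁` be the least `t ≥ 1` with `p_t` a twin; `rev p 1 (t₁-1)` (`p_0 ~ p_(t₁-1)` by TPR, `p_1 ~ p_(t₁)` as `p_1 ~ a`, `t₁ ≥ 2`) is a core frame, in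
it `p_1` is just before `p_(t₁)`: (1). -/
def LAU_stmt : Prop := ∀ (V : Type) [Fintype V] (G : SimpleGraph V) (m : ℕ) (p : ℕ → V), Ctx G m → CP G m p →
  ∀ i, i < m → ¬ G.Adj (p m) (p i) → (∃ q, q < i ∧ G.Adj (p m) (p q)) →
  ∀ t, 1 ≤ t → t ≤ m → Tw G (p 0) (p t) → ¬ G.Adj (p i) (p (t - 1)) ∧ ¬ G.Adj (p i) (p 1)

/-! ### The degree lemma -/

/-- **TWO** (medium, from SEG). `sat` for `y, r`: a frame with `p 0 = y`. Twins `t` of `a` are adjacent to `y` and `r`. Case `p m = r`: `t ≠ p (m+1)` (`[(0,m),(m+1,m+1)]: m+2`), so `t = p_k`, `1 ≤ k < m`; `y ≁ p_(k+1)` (`[(0,k),(m,k+1)]: m+1`, `t ~ r`). Case `r = p (m+1)`,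
Hamiltonian: `t = p_k`, `1 ≤ k ≤ m`, `y ≁ p_(k+1)` (`[(0,k),(m+1,m+1),(m,k+1)]: m+2`; `k = m`: given). `p_(k+1)` is adjacent to the twin `t`, not a twin (twins are adjacent to `y`), so it is adjacent to `a`. `t ↦ p_(k+1)` is injective. -/
def TWO_stmt : Prop := ∀ (V : Type) [Fintype V] (G : SimpleGraph V) (m : ℕ), Ctx G m → ∀ a y r : V, G.Adj a y → G.Adj a r →
  ¬ Tw G a y → ¬ Tw G a r → y ≠ r → ¬ G.Adj y r →
  (TT G a).card ≤ ((NN G y).filter (fun v => G.Adj a v ∧ ¬ Tw G a v)).card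

/-- **LIA** (short, from TWO). There is `r ≠ y` with `a ~ r`, `¬ Tw a r`, `y ≁ r`: otherwise `Tw a y` (`y` is adjacent to all neighbours `≠ y` of `a` which are not twins, to the twins, and to no element of `NN a`). TWO gives `τ` nonneighbours of `y` in `N(a)`, `NN a` (`m + 1 - dg a` vertices) are
also nonneighbours: `m + 1 - dg y ≥ τ + m + 1 - dg a`. -/
def LIA_stmt : Prop := ∀ (V : Type) [Fintype V] (G : SimpleGraph V) (m : ℕ) (p : ℕ → V), Ctx G m → CP G m p →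
  ∀ y : V, G.Adj (p 0) y → ¬ Tw G (p 0) y → (∀ x ∈ NN G (p 0), ¬ G.Adj y x) →
  dg G y + (TT G (p 0)).card ≤ dg G (p 0)

/-- **LSE** (medium, from ORE, ZTW, TBE, LAT, LAU). `E` = the `p_(j-1)` (`j < i`, `b ~ p_j`), the `p_(j+1)` (`i < j < m`, `b ~ p_j`) (together `dg b` vertices as `b ≁ p_i`, `z`, `b`; the indices are `≤ i - 2`... resp. `≥ i + 2`) and the `p_(t-1)`, `1 ≤ t`, `p_t` a twin (`τ - 1` vertices: all twins are on the path, ZTW). They
are nonneighbours (LAT, LAU). Different: `t < j` for all `j` with `b ~ p_j` (TBE), so `t - 1 < j - 1`; `j - 1 ≠ i`, `t - 1 ≠ i` (`t < q < i`). -/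
def LSE_stmt : Prop := ∀ (V : Type) [Fintype V] (G : SimpleGraph V) (m : ℕ) (p : ℕ → V), Ctx G m → CP G m p →
  ∀ i, i < m → ¬ G.Adj (p m) (p i) → (∃ q, q < i ∧ G.Adj (p m) (p q)) →
  ∃ E : Finset V, E ⊆ NN G (p i) ∧ dg G (p m) + (TT G (p 0)).card ≤ E.card + 1 ∧ ∀ v ∈ E,
    (∃ j, j < i ∧ G.Adj (p m) (p j) ∧ v = p (j - 1)) ∨
    (∃ j, i < j ∧ j < m ∧ G.Adj (p m) (p j) ∧ v = p (j + 1)) ∨
    (∃ t, 1 ≤ t ∧ t ≤ m ∧ Tw G (p 0) (p t) ∧ v = p (t - 1))

/-- **LIB** (medium, from SWP, ORE, ZTW, TBE, TPR, LAU, LSE). `E` from LSE, plus one more nonneighbour `∉ E`: `z` if `p_i ≁ z` (`z` is not on the path). If `p_i ~ z`: take `p_1` (LAU; there is a twin `p_t`, `t ≥ 2`, on the path as `τ ≥ 2`). `p_1 ∉ E`: `p_1 = p_(j-1)`: `j = 2`, but `t < j`; `p_1 = p_(j+1)`: `j = 0`, no;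
`p_1 = p_(t'-1)`: `p_2` is a twin; then `swp m p 1` is a core frame (`z ~ p_0, p_2`; its missing vertex is `p_1`, `p_1 ~ a`, `p_1 ≁ b` by TPR), `p_i` is still late and LAU for `t = 2` gives `p_i ≁ z`, contradiction. So `dg b + τ ≤ #NN (p_i) = m + 1 - dg (p_i)`. -/
def LIB_stmt : Prop := ∀ (V : Type) [Fintype V] (G : SimpleGraph V) (m : ℕ) (p : ℕ → V), Ctx G m → CP G m p →
  2 ≤ (TT G (p 0)).card → ∀ i, i < m → ¬ G.Adj (p m) (p i) → (∃ q, q < i ∧ G.Adj (p m) (p q)) →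
  dg G (p i) + (TT G (p 0)).card ≤ dg G (p 0)

/-- **LIM** (short-medium, from ORE, SUM, ZTW, TBE, EAR, LIA, LIB). `τ = 1`: `dg y ≠ dg a` (TBE), `dg y + dg b ≤ m + 1 = dg a + dg b` (SUM). `τ ≥ 2`: `y = z`: LIA with EAR. `y = p_i`, `1 ≤ i < m` (`i = 0` is a twin). If some `q < i` has `b ~ p_q`: LIB. Otherwise `a ~ p_i` by fullness (`b ≁ p_(i-1)`; `i ≥ 1`) and LIA with EAR
(`b ~ p_j`, `j ≤ m` gives `i < j`, as `b ≁ p_i`). -/
def LIM_stmt : Prop := ∀ (V : Type) [Fintype V] (G : SimpleGraph V) (m : ℕ) (p : ℕ → V), Ctx G m → CP G m p →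
  ∀ y ∈ NN G (p m), ¬ Tw G (p 0) y → dg G y + (TT G (p 0)).card ≤ dg G (p 0)

/-! ### Twins of `a` on other frames -/

/-- **KND** (medium, from REV, ORE). `A = r 0`, `B = r m`. A twin `t` of `a` is adjacent to `A` and `B`, so it is not `r (m+1)` (fullness), not `A`, `B`: first part. Second: let `i` be the greatest twin index `< j` (`1 ≤ j < m` by the first part). `A ~ r_j` gives `B ≁ r_(j-1)`, so `i ≠ j - 1` (`B ~ r_i`).
`q = rev r (i+1) (j-1)`: links `r_i ~ r_(j-1)` (`r_(j-1) ~ r_j`, `r_i`, `r_j` twins), `r_(i+1) ~ r_j`. It is an X-pair frame with the same ends; `B ~ q_i = r_i` gives `A ≁ q_(i+1) = r_(j-1)`. `r_(j-1)` is not a twin and adjacent to the twin `r_j`, so `a ~ r_(j-1)`. -/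
def KND_stmt : Prop := ∀ (V : Type) [Fintype V] (G : SimpleGraph V) (m : ℕ), Ctx G m → ∀ (a : V) (r : ℕ → V), XP G m r →
  G.Adj a (r 0) → G.Adj a (r m) → ¬ Tw G a (r 0) → ¬ Tw G a (r m) →
  (∀ t, Tw G a t → ∃ k, 1 ≤ k ∧ k < m ∧ r k = t) ∧
  (∀ j, j ≤ m → Tw G a (r j) → (∃ i, i < j ∧ Tw G a (r i)) →
    2 ≤ j ∧ ¬ G.Adj (r 0) (r (j - 1)) ∧ ¬ G.Adj (r m) (r (j - 1)) ∧ G.Adj a (r (j - 1)) ∧ ¬ Tw G a (r (j - 1)))

/-- **GLL** (short-medium, from REV, ORE, XZZ, KND). `z' = r (m+1)`. By symmetry (`rev r 0 m`) let `z' ~ r 0`, a core frame. Two twins are on the path (KND), let `r_j` be the later one: `r 0 ≁ r_(j-1)`, so `r m ~ r_(j-2)` (fullness), so `z' ≁ r_j` (XZZ). `z'` is not a twin (KND), so `z' ≁ a`. -/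
def GLL_stmt : Prop := ∀ (V : Type) [Fintype V] (G : SimpleGraph V) (m : ℕ), Ctx G m → ∀ (a : V) (r : ℕ → V), XP G m r →
  G.Adj a (r 0) → G.Adj a (r m) → ¬ Tw G a (r 0) → ¬ Tw G a (r m) → 2 ≤ (TT G a).card → ¬ G.Adj a (r (m + 1))

/-- **C5E** (medium, from KND). `NN a` (`dg b` vertices) `⊆ NN w`, and no twin of `r 0` is in `NN a` (`a ∈ N[r 0]`, so `a` is in its closed neighbourhood). The `r_(j-1)` for the twins `r_j` of `a` except the first one on `r` (`τ - 1` vertices, KND): in `NN w`, adjacent to `a` (so not in `NN a`), not in the closed neighbourhood of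
`r 0` (index `≥ 1`), so not twins of `r 0`. -/
def C5E_stmt : Prop := ∀ (V : Type) [Fintype V] (G : SimpleGraph V) (m : ℕ) (p : ℕ → V), Ctx G m → CP G m p →
  ∀ r : ℕ → V, XP G m r → G.Adj (p 0) (r m) → ¬ Tw G (p 0) (r m) → (∀ x ∈ NN G (p 0), ¬ G.Adj (r m) x) →
  G.Adj (p 0) (r 0) → ¬ Tw G (p 0) (r 0) →
  dg G (p m) + (TT G (p 0)).card ≤ (NN G (r m) \ TT G (r 0)).card + 1

/-- **C5L** (medium, from REV, ORE, TBE, TPR, EAR, LSE, KND, GLL). `E` from LSE; no `v ∈ E` is a twin of `r 0`: suppose `Tw (r 0) v`. Then `v = a ∨ a ~ v` and `v` is not a twin of `a`, so `a ~ v`. (1) `v = p_(j-1)`, `b ~ p_j`, `j < i`: `q = rev (rev p 0 i) (i-j+1) m` (links `a ~ p_(i+1)`, `p_j ~ b`) is a frame from `p_i` to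
`p_(j-1) = v`, missing `z`; it is an X-pair frame (`v ≁ p_i` as `E ⊆ NN`, `dg v = dg (r 0)`, `r m = p_i`); GLL: `a ≁ z`, contradiction. (2) `v = p_(j+1)`, `b ~ p_j`: `a ≁ v` (fullness). (3) `v = p_(t-1)`, `p_t` a twin of `a`: `a ~ v`, `b ≁ v` (TPR) and all `j` with `b ~ p_j` are `> t` (TBE): EAR: `v ≁ NN a`. `z' = r (m+1)` is adjacent to
`r 0`, `z' ≁ a` (GLL), `z' ≠ a` (KND), so `z' ∈ NN a`, `z' ≠ v`, and `v ~ z'` as `Tw (r 0) v`: contradiction. -/
def C5L_stmt : Prop := ∀ (V : Type) [Fintype V] (G : SimpleGraph V) (m : ℕ) (p : ℕ → V), Ctx G m → CP G m p →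
  2 ≤ (TT G (p 0)).card → ∀ i, i < m → G.Adj (p 0) (p i) → ¬ G.Adj (p m) (p i) → (∃ q, q < i ∧ G.Adj (p m) (p q)) →
  ∀ r : ℕ → V, CP G m r → r m = p i → G.Adj (p 0) (r 0) → ¬ Tw G (p 0) (r 0) →
  dg G (p m) + (TT G (p 0)).card ≤ (NN G (p i) \ TT G (r 0)).card + 1

/-! ### Labels -/

/-- **TOP** (short). `f` maps `S` injectively to `Icc 1 k`. -/
def TOP_stmt : Prop := ∀ (V : Type) [Fintype V] (f : V → ℕ), Function.Injective f → (∀ v, 1 ≤ f v) → ∀ (S : Finset V) (k : ℕ),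
  (∀ u ∈ S, f u ≤ k) → S.card ≤ k ∧ ∀ x, x ∉ S → f x ≤ k → S.card + 1 ≤ k

/-- **LMX** (medium, from SUM, XCO, TOP). `G` is not complete (otherwise any list of all vertices is a closed path of length `m + 2`). Take `u ≠ v` nonadjacent with `f u + f v` maximal: `f ≤ f v` on `NN u`, `f ≤ f u` on `NN v`, so (TOP) `m + 1 - dg u ≤ f v`, `m + 1 - dg v ≤ f u`. If `dg u + dg v ≤ m` then `dg v + 1 ≤ f v`,
`dg u + 1 ≤ f u`, `f u + f v ≥ m + 2`: against `no` (in the order of the labels). So it is an X-pair (SUM), XCO gives a core frame `u .. v` or `v .. u`, and both are locally maximal. -/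
def LMX_stmt : Prop := ∀ (V : Type) [Fintype V] (G : SimpleGraph V) (m : ℕ) (f : V → ℕ), Ctx G m → Lab G m f → ∃ p, LM G m f p

/-- **LM1** (medium, from ORE, ZTW, LIM, TOP). Let `S = NN b \ TT a`; it contains `z` (ZTW) and has `dg a - τ` elements (`TT a ⊆ NN b`, `#NN b = dg a`). Let `w` be its element with the greatest label. `f w ≥ #S ≥ dg w` (LIM), `dg w + dg b ≤ m`, `f b ≥ #(NN a) = dg b` (`ta`). Suppose `f w + f b ≥ m + 1`. `f b < f w`: `b ∉ S`, so `f w ≥ #S + 1 ≥ dg w + 1`,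
against `no`. `f w < f b`: `z ∉ NN a`, `f z ≤ f w < f b`, so `f b ≥ dg b + 1`, against `no`. -/
def LM1_stmt : Prop := ∀ (V : Type) [Fintype V] (G : SimpleGraph V) (m : ℕ) (f : V → ℕ) (p : ℕ → V), Ctx G m → Lab G m f →
  LM G m f p → ∀ w ∈ NN G (p m), ¬ Tw G (p 0) w → f w + f (p m) ≤ m

/-- **LM2** (medium, from TPR, LIM, TOP, LM1). `Ω` = all vertices which are neither twins of `a` nor common neighbours: `#Ω = m + 2 - τ - ν`. By LM1 for the element with the greatest label `w₀` of `NN b \ TT a` (`f w₀ ≥ #(NN b \ TT a) = dg a - τ`): `f b ≤ m - dg a + τ = dg b + τ - 1`. Let `w ∈ Ω` have the greatest label: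
`f w ≥ #Ω`. If `w ∈ NN a` then `f w ≤ f b`, so `#Ω ≤ dg b + τ - 1`; but `Ω = NN a ∪ WW`, `#Ω ≥ dg b + τ` (TPR). So `w ∈ WW`. `f b ≥ dg b ≥ ν` and `f w + f b ≤ m` (LM1) give `m + 2 - τ - ν + ν ≤ m`, so `τ ≥ 2`. `dg w + 1 ≤ dg a - τ + 1 = m + 2 - dg b - τ ≤ #Ω ≤ f w` (LIM, `ν ≤ dg b`). -/
def LM2_stmt : Prop := ∀ (V : Type) [Fintype V] (G : SimpleGraph V) (m : ℕ) (f : V → ℕ) (p : ℕ → V), Ctx G m → Lab G m f →
  LM G m f p → 2 ≤ (TT G (p 0)).card ∧ ∃ w : V, G.Adj (p 0) w ∧ ¬ G.Adj (p m) w ∧ ¬ Tw G (p 0) w ∧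
    (∀ v, ¬ Tw G (p 0) v → ¬ (G.Adj (p 0) v ∧ G.Adj (p m) v) → f v ≤ f w) ∧
    m + 2 ≤ f w + (CC G (p 0) (p m)).card + (TT G (p 0)).card ∧ dg G w + 1 ≤ f w

/-- **LM3** (long, from ORE, SUM, XCO, XDG, TBE, EAR, LIM, C5E, C5L, TOP, LM2). `w`, `τ ≥ 2` from LM2. Let `y₀ ∈ NN w` (it contains `b`) have the greatest label: `f y₀ ≥ m + 1 - dg w`. If `dg w + dg y₀ ≤ m`: `dg y₀ + 1 ≤ f y₀`, `dg w + 1 ≤ f w`, the sum of the labels is `≥ m + 2`: against `no`. So an X-pair (SUM).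
By XCO there is a core frame `r` from `y₀` to `w` or from `w` to `y₀`.
(I) `r 0 = y₀`, `r m = w`. `dg y₀ = m + 1 - dg w ≥ m + 1 - dg a + τ > dg b` (LIM), so `y₀ ∉ NN a` (XDG), `a ~ y₀`, not a twin of `a` (`y₀ ≁ w ~ a`). CLAIM `dg b + τ ≤ #(NN w \ TT y₀) + 1`: if `w = z` or `w = p_i` without `q < i`, `b ~ p_q`: C5E with EAR; otherwise C5L. `S = NN w \ TT y₀`: not empty; `#S = dg y₀ - #TT y₀` (`TT y₀ ⊆ NN w`,
`#NN w = dg y₀`) and `dg v ≤ #S` for `v ∈ S` (LIM for `r`). Let `v ∈ S` have the greatest label: `f v ≥ #S ≥ dg v`, `f v + f w ≥ #S + m + 2 - ν - τ ≥ dg b + τ - 1 + m + 2 - ν - τ ≥ m + 1`, `dg v + dg w ≤ m` (`dg v ≤ dg y₀ - 1`). `f v < f w`: `dg w + 1 ≤ f w`, against `no`. `f w < f v`: `w ∉ S`, `f v ≥ #S + 1`, against `no`.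
(II) `r 0 = w`, `r m = y₀`. `p' = r` is locally maximal: `ta`: choice of `y₀`. `tb`: let `v ∈ NN y₀`, `f v > f w`. `v` is not a twin of `w` (twins of `w` are adjacent to `a`, or equal to..: `a ~ w` so `a` is in the closed neighbourhood, `v = a` would give `Tw w a`; not adjacent to `b`; not twins of `a`; so their labels are `≤ f w` by LM2). LIM for `r`:
`dg v + #TT w ≤ dg w`, so `dg v + dg y₀ ≤ m`, `dg v < f v`. `f y₀ ≥ dg y₀`, `f v + f y₀ ≥ dg w + 1 + dg y₀ + 1`. `f y₀ < f v`: against `no`. `f v < f y₀`: `w ∉ NN w`, `f w < f y₀`, so `f y₀ ≥ #NN w + 1 = dg y₀ + 1`: against `no`. And `f w < f a`: `w ∈ NN b` (`tb`), `w ≠ a`. -/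
def LM3_stmt : Prop := ∀ (V : Type) [Fintype V] (G : SimpleGraph V) (m : ℕ) (f : V → ℕ) (p : ℕ → V), Ctx G m → Lab G m f →
  LM G m f p → ∃ p' : ℕ → V, LM G m f p' ∧ f (p' 0) < f (p 0)

/-- **FIN** (short, from LMX, LM3). Descent on `f (p 0)`. -/
def FIN_stmt : Prop := ∀ (V : Type) [Fintype V] (G : SimpleGraph V) (m : ℕ) (f : V → ℕ), Ctx G m → Lab G m f → False

/-! ### Reduction to edge maximal graphs, and walks -/

/-- **TWC** (short-medium). `G.induce {w | w ≠ x}` is connected: a walk from an element of `A` to `y` outside `A` has a step from `A` to its complement. -/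
def TWC_stmt : Prop := ∀ (V : Type) [Fintype V] (G : SimpleGraph V) (x : V), (G.induce {w : V | w ≠ x}).Connected →
  ∀ A : Finset V, x ∉ A → A.Nonempty → (∃ y, y ∉ A ∧ y ≠ x) → ∃ u ∈ A, ∃ v, v ∉ A ∧ v ≠ x ∧ G.Adj u v

/-- **SAT** (medium). Let `G` be without closed paths of more than `m` vertices, and `G ⊔ edge u v` with one, `l`. `l` must contain `u`, `v` as (cyclic) neighbours (otherwise it is closed path of `G`). Rotate (and reverse) it so that `u` is the first and `v` the last vertex: `List.IsRotated`; then the other steps are in `G` (`u`, `v` occur only once).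
It has `m + 1` or `m + 2` vertices. Frame: `p i = l[i]` for `i < l.length`, and `p (m+1)` = the remaining vertex if `l.length = m + 1`. -/
def SAT_stmt : Prop := ∀ (V : Type) [Fintype V] (G : SimpleGraph V) (m : ℕ), Noc G m → ∀ u v : V, u ≠ v → ¬ G.Adj u v →
  (∃ l : List V, Clo (G ⊔ SimpleGraph.edge u v) l ∧ m < l.length) → ∃ p, Fr G m p ∧ p 0 = u ∧
    (p m = v ∨ (G.Adj (p m) (p (m + 1)) ∧ p (m + 1) = v))

/-- **MXG** (short-medium, from TWC, SAT). Let `G'` be maximal among the graphs `≥ G` with `Noc G' m` (finitely many graphs). `sat`: `G' ⊔ edge u v` is bigger, so it is not `Noc`: SAT. `two`: TWC for `G` (`G ≤ G'`). `Lab`: degrees grow, nonadjacent pairs shrink. -/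
def MXG_stmt : Prop := ∀ (V : Type) [Fintype V] (G : SimpleGraph V) (m : ℕ) (f : V → ℕ), Noc G m →
  (∀ x : V, (G.induce {w : V | w ≠ x}).Connected) → Lab G m f → ∃ G' : SimpleGraph V, Ctx G' m ∧ Lab G' m f

/-- **WLK** (short-medium). -/
def WLK_stmt : Prop := ∀ (V : Type) (G : SimpleGraph V) (l : List V), Clo G l → 3 ≤ l.length →
  ∃ (u : V) (w : G.Walk u u), w.IsCycle ∧ w.length = l.length

/-- **ASM** (short, from FIN, MXG, WLK). `m = card V - 2`, `f v` = index `+ 1`. If no closed path has more than `m` vertices, MXG and FIN; otherwise WLK. -/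
def ASM_stmt : Prop := ∀ (V : Type) [Fintype V] [DecidableEq V] (G : SimpleGraph V) [DecidableRel G.Adj] (c : ℕ),
  G.Connected → (∀ v : V, (G.induce {w : V | w ≠ v}).Connected) → 3 ≤ c → c + 1 = Fintype.card V →
  ∀ e : Fin (Fintype.card V) ≃ V,
    (¬ ∃ j k : Fin (Fintype.card V), j < k ∧ c ≤ ((j : ℕ) + 1) + ((k : ℕ) + 1) ∧ ¬ G.Adj (e j) (e k) ∧
      G.degree (e j) ≤ (j : ℕ) + 1 ∧ G.degree (e k) ≤ (k : ℕ) ∧ G.degree (e j) + G.degree (e k) + 1 ≤ c) →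
    ∃ (u : V) (p : G.Walk u u), p.IsCycle ∧ c ≤ p.length

end Pool.Agent.helper61.BM
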