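import Pool.Agent.helper61.BM.Spec

/-!
# Project bm2: short forms of SEG for 2, 3, 4 segments

`seg3 hSEG hN hp a b c d e f (by omega) l1 l2 l3 : False` for the closed path
`p_a .. p_b, p_c .. p_d, p_e .. p_f`, with `l1 : G.Adj (p b) (p c)`, `l2 : G.Adj (p d) (p e)`, `l3 : G.Adj (p f) (p a)`;
the numerical condition says that the segments are admissible, disjoint, and have more than `m` vertices together.
-/

set_option autoImplicit false

namespace Pool.Agent.helper61.BM

open Finset
open scoped Classical

/-- admissible segment -/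
abbrev Ok (m a b : ℕ) : Prop := (a ≤ m ∧ b ≤ m) ∨ (a = m + 1 ∧ b = m + 1)

/-- disjoint segments -/
abbrev Dj (a b c d : ℕ) : Prop := (a < c ∧ a < d ∧ b < c ∧ b < d) ∨ (c < a ∧ c < b ∧ d < a ∧ d < b)

section

variable {V : Type} [Fintype V] {G : SimpleGraph V} {m : ℕ} {p : ℕ → V}

theorem seg2 (hSEG : SEG_stmt) (hN : Noc G m) (hp : Fr G m p) (a b c d : ℕ)
    (h : Ok m a b ∧ Ok m c d ∧ Dj a b c d ∧
      m < (max a b - min a b + 1) + (max c d - min c d + 1))
    (l1 : G.Adj (p b) (p c)) (l2 : G.Adj (p d) (p a)) : False := by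
  obtain ⟨h1, h2, h3, h4⟩ := h
  have := hSEG V G m p hN hp [(a, b), (c, d)] (by simp)
    ⟨by
      intro s hs
      simp only [List.mem_cons, List.not_mem_nil, or_false] at hs
      rcases hs with rfl | rfl
      · exact h1
      · exact h2,
     by
      simp only [List.pairwise_cons, List.mem_cons, List.not_mem_nil, or_false, forall_eq, List.Pairwise.nil,
        and_true, IsEmpty.forall_iff, implies_true]
      omega⟩
    (by simpa using l1)
    (by
      intro s hs t ht
      simp at hs ht
      subst hs ht
      exact l2)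
  simp only [len, List.map_cons, List.map_nil, List.sum_cons, List.sum_nil] at this
  omega

theorem seg3 (hSEG : SEG_stmt) (hN : Noc G m) (hp : Fr G m p) (a b c d e f : ℕ)
    (h : Ok m a b ∧ Ok m c d ∧ Ok m e f ∧ Dj a b c d ∧ Dj a b e f ∧ Dj c d e f ∧
      m < (max a b - min a b + 1) + (max c d - min c d + 1) + (max e f - min e f + 1))
    (l1 : G.Adj (p b) (p c)) (l2 : G.Adj (p d) (p e)) (l3 : G.Adj (p f) (p a)) : False := by
  obtain ⟨h1, h2, h3, h4, h5, h6, h7⟩ := h
  have := hSEG V G m p hN hp [(a, b), (c, d), (e, f)] (by simp)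
    ⟨by
      intro s hs
      simp only [List.mem_cons, List.not_mem_nil, or_false] at hs
      rcases hs with rfl | rfl | rfl
      · exact h1
      · exact h2
      · exact h3,
     by
      refine List.Pairwise.cons ?_ (List.Pairwise.cons ?_ (List.pairwise_singleton _ _))
      · intro t ht
        simp only [List.mem_cons, List.not_mem_nil, or_false] at ht
        rcases ht with rfl | rfl
        · show max a b < min c d ∨ max c d < min a b
          omega
        · show max a b < min e f ∨ max e f < min a b
          omega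
      · intro t ht
        simp only [List.mem_cons, List.not_mem_nil, or_false] at ht
        subst ht
        show max c d < min e f ∨ max e f < min c d
        omega⟩
    (by simpa using ⟨l1, l2⟩)
    (by
      intro s hs t ht
      simp at hs ht
      subst hs ht
      exact l3)
  simp only [len, List.map_cons, List.map_nil, List.sum_cons, List.sum_nil] at this
  omega

theorem seg4 (hSEG : SEG_stmt) (hN : Noc G m) (hp : Fr G m p) (a b c d e f g h : ℕ)
    (hh : Ok m a b ∧ Ok m c d ∧ Ok m e f ∧ Ok m g h ∧ Dj a b c d ∧ Dj a b e f ∧ Dj a b g h ∧ Dj c d e f ∧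
      Dj c d g h ∧ Dj e f g h ∧
      m < (max a b - min a b + 1) + (max c d - min c d + 1) + (max e f - min e f + 1) + (max g h - min g h + 1))
    (l1 : G.Adj (p b) (p c)) (l2 : G.Adj (p d) (p e)) (l3 : G.Adj (p f) (p g)) (l4 : G.Adj (p h) (p a)) : False := by
  obtain ⟨h1, h2, h3, h4, h5, h6, h7, h8, h9, h10, h11⟩ := hh
  have := hSEG V G m p hN hp [(a, b), (c, d), (e, f), (g, h)] (by simp)
    ⟨by
      intro s hs
      simp only [List.mem_cons, List.not_mem_nil, or_false] at hs
      rcases hs with rfl | rfl | rfl | rfl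
      · exact h1
      · exact h2
      · exact h3
      · exact h4,
     by
      refine List.Pairwise.cons ?_ (List.Pairwise.cons ?_ (List.Pairwise.cons ?_ (List.pairwise_singleton _ _)))
      · intro t ht
        simp only [List.mem_cons, List.not_mem_nil, or_false] at ht
        rcases ht with rfl | rfl | rfl
        · show max a b < min c d ∨ max c d < min a b
          omega
        · show max a b < min e f ∨ max e f < min a b
          omega
        · show max a b < min g h ∨ max g h < min a b
          omega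
      · intro t ht
        simp only [List.mem_cons, List.not_mem_nil, or_false] at ht
        rcases ht with rfl | rfl
        · show max c d < min e f ∨ max e f < min c d
          omega
        · show max c d < min g h ∨ max g h < min c d
          omega
      · intro t ht
        simp only [List.mem_cons, List.not_mem_nil, or_false] at ht
        subst ht
        show max e f < min g h ∨ max g h < min e f
        omega⟩
    (by simpa using ⟨l1, l2, l3⟩)
    (by
      intro s hs t ht
      simp at hs ht
      subst hs ht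
      exact l4)
  simp only [len, List.map_cons, List.map_nil, List.sum_cons, List.sum_nil] at this
  omega

end

section

variable {V : Type} {G : SimpleGraph V} {m : ℕ} {p : ℕ → V}

theorem Fr.ne (hp : Fr G m p) {i j : ℕ} (hi : i ≤ m + 1) (hj : j ≤ m + 1) (h : i ≠ j) : p i ≠ p j :=
  fun h' => h (hp.inj i j hi hj h')

theorem Tw.nonadj {a t b : V} (h : Tw G a t) (h1 : b ≠ a) (h2 : ¬ G.Adj a b) : b ≠ t ∧ ¬ G.Adj t b := by
  have := h b
  simp only [h1, h2, false_or, false_iff, not_or] at this
  exact this

/-- a neighbour of a twin is a neighbour -/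
theorem Tw.adj_of' {a t v : V} (h : Tw G a t) (h1 : G.Adj t v) (h2 : v ≠ a) : G.Adj a v :=
  h.symm.adj_of h1 h2

theorem rev_in {s e k : ℕ} (h : s ≤ k ∧ k ≤ e) : rev p s e k = p (s + e - k) := by
  simp only [rev, h, and_self, if_true]

theorem rev_out {s e k : ℕ} (h : k < s ∨ e < k) : rev p s e k = p k := by
  have : ¬ (s ≤ k ∧ k ≤ e) := by omega
  simp only [rev, this, if_false]

theorem swp_k {k : ℕ} : swp m p k k = p (m + 1) := by simp [swp]

theorem swp_z {k : ℕ} (h : k ≠ m + 1) : swp m p k (m + 1) = p k := by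
  simp [swp, Ne.symm h]

theorem swp_ne {k i : ℕ} (h : i ≠ k) (h' : i ≠ m + 1) : swp m p k i = p i := by
  simp [swp, h, h']

variable [Fintype V]

theorem XP.full (hp : XP G m p) (hORE : ORE_stmt) (hN : Noc G m) {i : ℕ} (hi : i < m) :
    G.Adj (p 0) (p (i + 1)) ↔ ¬ G.Adj (p m) (p i) :=
  ((hORE V G m p hN hp.toFr hp.na).2 hp.dd).1 i hi

theorem XP.fullz (hp : XP G m p) (hORE : ORE_stmt) (hN : Noc G m) :
    G.Adj (p 0) (p (m + 1)) ↔ ¬ G.Adj (p m) (p (m + 1)) :=
  ((hORE V G m p hN hp.toFr hp.na).2 hp.dd).2

theorem CP.nbz (hp : CP G m p) (hORE : ORE_stmt) (hN : Noc G m) : ¬ G.Adj (p m) (p (m + 1)) :=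
  (hp.toXP.fullz hORE hN).1 hp.za

theorem Noc.card_NN_eq (hN : Noc G m) (v : V) : (NN G v).card + dg G v = m + 1 := by
  have := card_NN (G := G) v
  have := hN.card
  omega

/-- nonneighbours of the first end -/
theorem CP.nna (hp : CP G m p) (hORE : ORE_stmt) (hN : Noc G m) {x : V} (hx : x ∈ NN G (p 0)) :
    ∃ k, k < m ∧ x = p (k + 1) ∧ G.Adj (p m) (p k) := by
  obtain ⟨h1, h2⟩ := mem_NN.1 hx
  obtain ⟨k, hk, rfl⟩ := hp.sur x
  have hk0 : k ≠ 0 := by
    rintro rfl
    exact h1 rfl
  have hkm : k ≠ m + 1 := by
    rintro rfl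
    exact h2 hp.za
  obtain ⟨l, rfl⟩ := Nat.exists_eq_succ_of_ne_zero hk0
  refine ⟨l, by omega, rfl, ?_⟩
  by_contra h
  exact h2 ((hp.toXP.full hORE hN (by omega)).2 h)

end

end Pool.Agent.helper61.BM
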